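import Pool.Agent.Q212.ZE.Stm

/-!
# Project ZE: the coding of sets by partitions and the new finite set
(jobs DEC, LAW, INW, NEW, LOC)
-/

set_option maxHeartbeats 400000
set_option linter.all false

namespace Pool.Agent.Q222.ZE

open FirstOrder FirstOrder.Language
open Pool.Agent.Helper672.ZFA
open Pool.Agent.H310
open Pool.Agent.Q212.ZA
open Pool.Agent.Q212.ZE
open Pool.Agent.Q212.ZD (IWO)

universe u

section

variable {M : Type u} [L.Structure M] [hM : IsModel M]
variable {α κ τ : Type u} [ITy M α] [ITy M κ] [ITy M τ]

/-- Elements determine the code. -/
theorem jn_cases {u : IFun M κ (Fs M α)} {r : Cd M κ} {t : Tr κ} {j : INat M} {x : α}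
    (h : jn u r t j x) : ∃ c : INat M, x ∈ (u (r (t, (j, c)))).1 := by
  rcases h with h | h
  · exact ⟨_, h⟩
  · exact ⟨_, h⟩

theorem jn_unique {D : IPow M κ} {u : IFun M κ (Fs M α)} {r : Cd M κ} (hr : Rg D r)
    (hu : Dj D u) {t t' : Tr κ} {j j' : INat M} {x : α} (ht : T3 D t) (ht' : T3 D t')
    (h : jn u r t j x) (h' : jn u r t' j' x) : t = t' ∧ j = j' := by
  obtain ⟨c, hc⟩ := jn_cases h
  obtain ⟨c', hc'⟩ := jn_cases h'
  have h1 := hu _ _ x (hr.1 t (j, c) ht) (hr.1 t' (j', c') ht') hc hc'
  obtain ⟨h2, h3⟩ := hr.2 t t' _ _ ht ht' h1
  exact ⟨h2, congrArg Prod.fst h3⟩

theorem int_obR : Int M (fun q : ((((IPow M κ × IFun M κ (Fs M α)) × Cd M κ) ×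
    IPow M (Tr κ × INat M)) × α) × α => q.1.2 = q.2 ∨ ∃ t j, T3 q.1.1.1.1.1 t ∧
      (t, j) ∈ q.1.1.2 ∧ jn q.1.1.1.1.2 q.1.1.1.2 t j q.1.2 ∧
        jn q.1.1.1.1.2 q.1.1.1.2 t j q.2) := by
  unfold T3 jn
  (repeat' (first | with_reducible exact IntF.id | with_reducible exact IntF.fst' | with_reducible exact IntF.snd' | with_reducible exact IntF.const _ | with_reducible exact Int.const _ | assumption | with_reducible apply Int.and | with_reducible apply Int.or | with_reducible apply Int.not | with_reducible apply Int.imp | with_reducible apply Int.iff | with_reducible apply Int.ne | with_reducible apply Int.eq | with_reducible apply Int.mem | with_reducible apply Int.subset | with_reducible apply Int.ltN | with_reducible apply Int.leN | with_reducible apply Int.fin | with_reducible apply Int.unique | with_reducible apply Int.all | with_reducible apply Int.ex | with_reducible apply IntF.fst | with_reducible apply IntF.snd | with_reducible apply IntF.app | with_reducible apply IntF.ite | with_reducible apply IntF.sep | with_reducible apply IntF.lam | with_reducible apply IntF.insert | with_reducible apply IntF.singleton | with_reducible apply IntF.union | with_reducible apply IntF.inter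 | with_reducible apply IntF.sdiff | with_reducible apply IntF.isUnion | with_reducible apply IntF.iimage | with_reducible apply IntF.the | with_reducible apply IntF.irec | with_reducible_and_instances apply IntF.add | with_reducible_and_instances apply IntF.mul | with_reducible apply IntF.succ | with_reducible apply IntF.val | (with_reducible refine Int.comp ?_ ?_; assumption) | (with_reducible refine Int.comp₂ ?_ ?_ ?_; assumption) | (with_reducible refine Int.comp₃ ?_ ?_ ?_ ?_; assumption) | (with_reducible refine IntF.comp ?_ ?_; assumption) | (with_reducible refine IntF.comp₂ ?_ ?_ ?_; assumption) | (with_reducible refine Pool.Agent.Helper672.ZFA.IntF.comp₃ ?_ ?_ ?_ ?_; assumption) | with_reducible apply IntF.pair))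

theorem ob_spec {D : IPow M κ} {u : IFun M κ (Fs M α)} {r : Cd M κ}
    {Δ : IPow M (Tr κ × INat M)} (hr : Rg D r) (hu : Dj D u) (x y : α) :
    (x, y) ∈ (ob D u r Δ).1 ↔ (x = y ∨ ∃ t j, T3 D t ∧ (t, j) ∈ Δ ∧ jn u r t j x ∧
      jn u r t j y) := by
  have hI : Int M (fun q : α × α => q.1 = q.2 ∨ ∃ t j, T3 D t ∧ (t, j) ∈ Δ ∧
      jn u r t j q.1 ∧ jn u r t j q.2) := by
    unfold T3 jn
    (repeat' (first | with_reducible exact IntF.id | with_reducible exact IntF.fst' | with_reducible exact IntF.snd' | with_reducible exact IntF.const _ | with_reducible exact Int.const _ | assumption | with_reducible apply Int.and | with_reducible apply Int.or | with_reducible apply Int.not | with_reducible apply Int.imp | with_reducible apply Int.iff | with_reducible apply Int.ne | with_reducible apply Int.eq | with_reducible apply Int.mem | with_reducible apply Int.subset | with_reducible apply Int.ltN | with_reducible apply Int.leN | with_reducible apply Int.fin | with_reducible apply Int.unique | with_reducible apply Int.all | with_reducible apply Int.ex | with_reducible apply IntF.fst | with_reducible apply IntF.snd | with_reducible apply IntF.app | with_reducible apply IntF.ite | with_reducible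 apply IntF.sep | with_reducible apply IntF.lam | with_reducible apply IntF.insert | with_reducible apply IntF.singleton | with_reducible apply IntF.union | with_reducible apply IntF.inter | with_reducible apply IntF.sdiff | with_reducible apply IntF.isUnion | with_reducible apply IntF.iimage | with_reducible apply IntF.the | with_reducible apply IntF.irec | with_reducible_and_instances apply IntF.add | with_reducible_and_instances apply IntF.mul | with_reducible apply IntF.succ | with_reducible apply IntF.val | (with_reducible refine Int.comp ?_ ?_; assumption) | (with_reducible refine Int.comp₂ ?_ ?_ ?_; assumption) | (with_reducible refine Int.comp₃ ?_ ?_ ?_ ?_; assumption) | (with_reducible refine IntF.comp ?_ ?_; assumption) | (with_reducible refine IntF.comp₂ ?_ ?_ ?_; assumption) | (with_reducible refine Pool.Agent.Helper672.ZFA.IntF.comp₃ ?_ ?_ ?_ ?_; assumption) | with_reducible apply IntF.pair))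
  refine mkR_spec (R := fun x y => x = y ∨ ∃ t j, T3 D t ∧ (t, j) ∈ Δ ∧ jn u r t j x ∧
      jn u r t j y) hI (fun a => Or.inl rfl) ?_ ?_ ?_ x y
  · rintro a b (h | ⟨t, j, h1, h2, h3, h4⟩)
    · exact Or.inl h.symm
    · exact Or.inr ⟨t, j, h1, h2, h4, h3⟩
  · rintro a b c (rfl | ⟨t, j, h1, h2, h3, h4⟩) hbc
    · exact hbc
    · rcases hbc with rfl | ⟨t', j', k1, k2, k3, k4⟩
      · exact Or.inr ⟨t, j, h1, h2, h3, h4⟩
      · obtain ⟨rfl, rfl⟩ := jn_unique hr hu h1 k1 h4 k3
        exact Or.inr ⟨t, j, h1, h2, h3, k4⟩
  · intro a
    by_cases h : ∃ t j, T3 D t ∧ (t, j) ∈ Δ ∧ jn u r t j a
    · obtain ⟨t, j, h1, h2, h3⟩ := h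
      refine ⟨insert a ((u (r (t, (j, 0)))).1 ∪ (u (r (t, (j, INat.succ 0)))).1),
        ((u (r (t, (j, 0)))).2.1.union (u (r (t, (j, INat.succ 0)))).2.1).insert a, ?_⟩
      rintro b (rfl | ⟨t', j', k1, k2, k3, k4⟩)
      · rw [mem_insert]
        exact Or.inl rfl
      · obtain ⟨rfl, rfl⟩ := jn_unique hr hu h1 k1 h3 k3
        rw [mem_insert, mem_union]
        exact Or.inr k4
    · refine (FinP.eq a).mono ?_
      rintro b (rfl | ⟨t, j, k1, k2, k3, k4⟩)
      · rfl
      · exact absurd ⟨t, j, k1, k2, k3⟩ h

end

theorem t_DEC : S_DEC.{u} := by
  intro M _ _ α κ _ _ D u r Δ hr hu t j ht
  constructor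
  · rintro ⟨x, y, hx, hy, hxy⟩
    rcases (ob_spec hr hu x y).1 hxy with rfl | ⟨t', j', h1, h2, h3, h4⟩
    · exfalso
      have h5 := hu _ _ x (hr.1 t (j, 0) ht) (hr.1 t (j, INat.succ 0) ht) hx hy
      have h6 := (hr.2 t t _ _ ht ht h5).2
      exact INat.succ_ne_zero (0 : INat M) (congrArg Prod.snd h6).symm
    · obtain ⟨rfl, rfl⟩ := jn_unique hr hu ht h1 (Or.inl hx) h3
      exact h2
  · intro h
    obtain ⟨x, hx⟩ := (u (r (t, (j, 0)))).2.2
    obtain ⟨y, hy⟩ := (u (r (t, (j, INat.succ 0)))).2.2
    exact ⟨x, y, hx, hy, (ob_spec hr hu x y).2 (Or.inr ⟨t, j, ht, h, Or.inl hx, Or.inr hy⟩)⟩

theorem t_LAW : S_LAW.{u} := by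
  intro M _ _ α κ τ _ _ _ sup f hT hf hinj u r t
  have hs : IntF M sup := hT.int
  have hA : Int M (fun k : INat M => Aw3 sup f u r t k) := by
    unfold Aw3 dc
    (repeat' (first | with_reducible exact IntF.id | with_reducible exact IntF.fst' | with_reducible exact IntF.snd' | with_reducible exact IntF.const _ | with_reducible exact Int.const _ | assumption | with_reducible apply Int.and | with_reducible apply Int.or | with_reducible apply Int.not | with_reducible apply Int.imp | with_reducible apply Int.iff | with_reducible apply Int.ne | with_reducible apply Int.eq | with_reducible apply Int.mem | with_reducible apply Int.subset | with_reducible apply Int.ltN | with_reducible apply Int.leN | with_reducible apply Int.fin | with_reducible apply Int.unique | with_reducible apply Int.all | with_reducible apply Int.ex | with_reducible apply IntF.fst | with_reducible apply IntF.snd | with_reducible apply IntF.app | with_reducible apply IntF.ite | with_reducible apply IntF.sep | with_reducible apply IntF.lam | with_reducible apply IntF.insert | with_reducible apply IntF.singleton | with_reducible apply IntF.union | with_reducible apply IntF.inter | with_reducible apply IntF.sdiff | with_reducible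 apply IntF.isUnion | with_reducible apply IntF.iimage | with_reducible apply IntF.the | with_reducible apply IntF.irec | with_reducible_and_instances apply IntF.add | with_reducible_and_instances apply IntF.mul | with_reducible apply IntF.succ | with_reducible apply IntF.val | (with_reducible refine Int.comp ?_ ?_; assumption) | (with_reducible refine Int.comp₂ ?_ ?_ ?_; assumption) | (with_reducible refine Int.comp₃ ?_ ?_ ?_ ?_; assumption) | (with_reducible refine IntF.comp ?_ ?_; assumption) | (with_reducible refine IntF.comp₂ ?_ ?_ ?_; assumption) | (with_reducible refine Pool.Agent.Helper672.ZFA.IntF.comp₃ ?_ ?_ ?_ ?_; assumption) | with_reducible apply IntF.pair))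
  refine INat.exists_least hA ?_
  by_contra hcon
  push Not at hcon
  obtain ⟨s, hsf, hsm⟩ : ∃ s : IPow M α, IFin s ∧ ∀ x, x ∈ s ↔
      (x ∈ (u t.1.1).1 ∨ x ∈ (u t.1.2).1 ∨ x ∈ (u t.2).1) := by
    refine ⟨(u t.1.1).1 ∪ ((u t.1.2).1 ∪ (u t.2).1),
      (u t.1.1).2.1.union ((u t.1.2).2.1.union (u t.2).2.1), fun x => ?_⟩
    rw [mem_union, mem_union]
  have hp : Int M (fun P : IFr M α => sup (f P) ⊆ s) := by
    (repeat' (first | with_reducible exact IntF.id | with_reducible exact IntF.fst' | with_reducible exact IntF.snd' | with_reducible exact IntF.const _ | with_reducible exact Int.const _ | assumption | with_reducible apply Int.and | with_reducible apply Int.or | with_reducible apply Int.not | with_reducible apply Int.imp | with_reducible apply Int.iff | with_reducible apply Int.ne | with_reducible apply Int.eq | with_reducible apply Int.mem | with_reducible apply Int.subset | with_reducible apply Int.ltN | with_reducible apply Int.leN | with_reducible apply Int.fin | with_reducible apply Int.unique | with_reducible apply Int.all | with_reducible apply Int.ex | with_reducible apply IntF.fst | with_reducible apply IntF.snd | with_reducible apply IntF.app | with_reducible apply IntF.ite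 | with_reducible apply IntF.sep | with_reducible apply IntF.lam | with_reducible apply IntF.insert | with_reducible apply IntF.singleton | with_reducible apply IntF.union | with_reducible apply IntF.inter | with_reducible apply IntF.sdiff | with_reducible apply IntF.isUnion | with_reducible apply IntF.iimage | with_reducible apply IntF.the | with_reducible apply IntF.irec | with_reducible_and_instances apply IntF.add | with_reducible_and_instances apply IntF.mul | with_reducible apply IntF.succ | with_reducible apply IntF.val | (with_reducible refine Int.comp ?_ ?_; assumption) | (with_reducible refine Int.comp₂ ?_ ?_ ?_; assumption) | (with_reducible refine Int.comp₃ ?_ ?_ ?_ ?_; assumption) | (with_reducible refine IntF.comp ?_ ?_; assumption) | (with_reducible refine IntF.comp₂ ?_ ?_ ?_; assumption) | (with_reducible refine Pool.Agent.Helper672.ZFA.IntF.comp₃ ?_ ?_ ?_ ?_; assumption) | with_reducible apply IntF.pair))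
  have hfin : FinP M (fun P : IFr M α => sup (f P) ⊆ s) :=
    FinP.of_inj hp hf (fun P Q _ _ h => hinj P Q h) (hT.fib s hsf) (fun P h => h)
  have hd : Int M (fun q : IFr M α × INat M => ∀ j, (dc u r q.1 t j ↔ j = q.2)) := by
    unfold dc
    (repeat' (first | with_reducible exact IntF.id | with_reducible exact IntF.fst' | with_reducible exact IntF.snd' | with_reducible exact IntF.const _ | with_reducible exact Int.const _ | assumption | with_reducible apply Int.and | with_reducible apply Int.or | with_reducible apply Int.not | with_reducible apply Int.imp | with_reducible apply Int.iff | with_reducible apply Int.ne | with_reducible apply Int.eq | with_reducible apply Int.mem | with_reducible apply Int.subset | with_reducible apply Int.ltN | with_reducible apply Int.leN | with_reducible apply Int.fin | with_reducible apply Int.unique | with_reducible apply Int.all | with_reducible apply Int.ex | with_reducible apply IntF.fst | with_reducible apply IntF.snd | with_reducible apply IntF.app | with_reducible apply IntF.ite | with_reducible apply IntF.sep | with_reducible apply IntF.lam | with_reducible apply IntF.insert | with_reducible apply IntF.singleton | with_reducible apply IntF.union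 | with_reducible apply IntF.inter | with_reducible apply IntF.sdiff | with_reducible apply IntF.isUnion | with_reducible apply IntF.iimage | with_reducible apply IntF.the | with_reducible apply IntF.irec | with_reducible_and_instances apply IntF.add | with_reducible_and_instances apply IntF.mul | with_reducible apply IntF.succ | with_reducible apply IntF.val | (with_reducible refine Int.comp ?_ ?_; assumption) | (with_reducible refine Int.comp₂ ?_ ?_ ?_; assumption) | (with_reducible refine Int.comp₃ ?_ ?_ ?_ ?_; assumption) | (with_reducible refine IntF.comp ?_ ?_; assumption) | (with_reducible refine IntF.comp₂ ?_ ?_ ?_; assumption) | (with_reducible refine Pool.Agent.Helper672.ZFA.IntF.comp₃ ?_ ?_ ?_ ?_; assumption) | with_reducible apply IntF.pair))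
  have hG : IntF M (fun P : IFr M α => the (fun k => ∀ j, (dc u r P t j ↔ j = k)) 0) :=
    IntF.the hd (IntF.const 0)
  have h1 := hfin.image hG
  refine not_finP_nat (M := M) (h1.mono ?_)
  intro k _
  have h2 := hcon k
  unfold Aw3 at h2
  push Not at h2
  obtain ⟨P, hP, hP'⟩ := h2
  refine ⟨P, fun x hx => (hsm x).2 (hP x hx), ?_⟩
  refine the_eq ⟨k, hP', ?_⟩ hP'
  intro k' hk'
  exact (hP' k').1 ((hk' k').2 rfl)

section

variable {M : Type u} [L.Structure M] [hM : IsModel M]
variable {α κ τ : Type u} [ITy M α] [ITy M κ] [ITy M τ]
variable {sup : τ → IPow M α} {f : IFr M α → τ}

theorem int_Aw3 (hs : IntF M sup) (hf : IntF M f) :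
    Int M (fun q : ((IFun M κ (Fs M α) × Cd M κ) × Tr κ) × INat M =>
      Aw3 sup f q.1.1.1 q.1.1.2 q.1.2 q.2) := by
  unfold Aw3 dc
  (repeat' (first | with_reducible exact IntF.id | with_reducible exact IntF.fst' | with_reducible exact IntF.snd' | with_reducible exact IntF.const _ | with_reducible exact Int.const _ | assumption | with_reducible apply Int.and | with_reducible apply Int.or | with_reducible apply Int.not | with_reducible apply Int.imp | with_reducible apply Int.iff | with_reducible apply Int.ne | with_reducible apply Int.eq | with_reducible apply Int.mem | with_reducible apply Int.subset | with_reducible apply Int.ltN | with_reducible apply Int.leN | with_reducible apply Int.fin | with_reducible apply Int.unique | with_reducible apply Int.all | with_reducible apply Int.ex | with_reducible apply IntF.fst | with_reducible apply IntF.snd | with_reducible apply IntF.app | with_reducible apply IntF.ite | with_reducible apply IntF.sep | with_reducible apply IntF.lam | with_reducible apply IntF.insert | with_reducible apply IntF.singleton | with_reducible apply IntF.union | with_reducible apply IntF.inter | with_reducible apply IntF.sdiff | with_reducible apply IntF.isUnion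 | with_reducible apply IntF.iimage | with_reducible apply IntF.the | with_reducible apply IntF.irec | with_reducible_and_instances apply IntF.add | with_reducible_and_instances apply IntF.mul | with_reducible apply IntF.succ | with_reducible apply IntF.val | (with_reducible refine Int.comp ?_ ?_; assumption) | (with_reducible refine Int.comp₂ ?_ ?_ ?_; assumption) | (with_reducible refine Int.comp₃ ?_ ?_ ?_ ?_; assumption) | (with_reducible refine IntF.comp ?_ ?_; assumption) | (with_reducible refine IntF.comp₂ ?_ ?_ ?_; assumption) | (with_reducible refine Pool.Agent.Helper672.ZFA.IntF.comp₃ ?_ ?_ ?_ ?_; assumption) | with_reducible apply IntF.pair))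

theorem int_LAw3 (hs : IntF M sup) (hf : IntF M f) :
    Int M (fun q : ((IFun M κ (Fs M α) × Cd M κ) × Tr κ) × INat M =>
      LAw3 sup f q.1.1.1 q.1.1.2 q.1.2 q.2) := by
  have hA := int_Aw3 (κ := κ) hs hf
  unfold LAw3
  refine Int.and hA (Int.all (Int.imp ?_ ?_))
  · refine Int.comp₄ (p := Aw3 sup f) hA ?_ ?_ ?_ ?_
    · (repeat' (first | with_reducible exact IntF.id | with_reducible exact IntF.fst' | with_reducible exact IntF.snd' | with_reducible exact IntF.const _ | with_reducible exact Int.const _ | assumption | with_reducible apply Int.and | with_reducible apply Int.or | with_reducible apply Int.not | with_reducible apply Int.imp | with_reducible apply Int.iff | with_reducible apply Int.ne | with_reducible apply Int.eq | with_reducible apply Int.mem | with_reducible apply Int.subset | with_reducible apply Int.ltN | with_reducible apply Int.leN | with_reducible apply Int.fin | with_reducible apply Int.unique | with_reducible apply Int.all | with_reducible apply Int.ex | with_reducible apply IntF.fst | with_reducible apply IntF.snd | with_reducible apply IntF.app | with_reducible apply IntF.ite | with_reducible apply IntF.sep | with_reducible apply IntF.lam | with_reducible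 apply IntF.insert | with_reducible apply IntF.singleton | with_reducible apply IntF.union | with_reducible apply IntF.inter | with_reducible apply IntF.sdiff | with_reducible apply IntF.isUnion | with_reducible apply IntF.iimage | with_reducible apply IntF.the | with_reducible apply IntF.irec | with_reducible_and_instances apply IntF.add | with_reducible_and_instances apply IntF.mul | with_reducible apply IntF.succ | with_reducible apply IntF.val | (with_reducible refine Int.comp ?_ ?_; assumption) | (with_reducible refine Int.comp₂ ?_ ?_ ?_; assumption) | (with_reducible refine Int.comp₃ ?_ ?_ ?_ ?_; assumption) | (with_reducible refine IntF.comp ?_ ?_; assumption) | (with_reducible refine IntF.comp₂ ?_ ?_ ?_; assumption) | (with_reducible refine Pool.Agent.Helper672.ZFA.IntF.comp₃ ?_ ?_ ?_ ?_; assumption) | with_reducible apply IntF.pair))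
    · (repeat' (first | with_reducible exact IntF.id | with_reducible exact IntF.fst' | with_reducible exact IntF.snd' | with_reducible exact IntF.const _ | with_reducible exact Int.const _ | assumption | with_reducible apply Int.and | with_reducible apply Int.or | with_reducible apply Int.not | with_reducible apply Int.imp | with_reducible apply Int.iff | with_reducible apply Int.ne | with_reducible apply Int.eq | with_reducible apply Int.mem | with_reducible apply Int.subset | with_reducible apply Int.ltN | with_reducible apply Int.leN | with_reducible apply Int.fin | with_reducible apply Int.unique | with_reducible apply Int.all | with_reducible apply Int.ex | with_reducible apply IntF.fst | with_reducible apply IntF.snd | with_reducible apply IntF.app | with_reducible apply IntF.ite | with_reducible apply IntF.sep | with_reducible apply IntF.lam | with_reducible apply IntF.insert | with_reducible apply IntF.singleton | with_reducible apply IntF.union | with_reducible apply IntF.inter | with_reducible apply IntF.sdiff | with_reducible apply IntF.isUnion | with_reducible apply IntF.iimage | with_reducible apply IntF.the | with_reducible apply IntF.irec | with_reducible_and_instances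 apply IntF.add | with_reducible_and_instances apply IntF.mul | with_reducible apply IntF.succ | with_reducible apply IntF.val | (with_reducible refine Int.comp ?_ ?_; assumption) | (with_reducible refine Int.comp₂ ?_ ?_ ?_; assumption) | (with_reducible refine Int.comp₃ ?_ ?_ ?_ ?_; assumption) | (with_reducible refine IntF.comp ?_ ?_; assumption) | (with_reducible refine IntF.comp₂ ?_ ?_ ?_; assumption) | (with_reducible refine Pool.Agent.Helper672.ZFA.IntF.comp₃ ?_ ?_ ?_ ?_; assumption) | with_reducible apply IntF.pair))
    · (repeat' (first | with_reducible exact IntF.id | with_reducible exact IntF.fst' | with_reducible exact IntF.snd' | with_reducible exact IntF.const _ | with_reducible exact Int.const _ | assumption | with_reducible apply Int.and | with_reducible apply Int.or | with_reducible apply Int.not | with_reducible apply Int.imp | with_reducible apply Int.iff | with_reducible apply Int.ne | with_reducible apply Int.eq | with_reducible apply Int.mem | with_reducible apply Int.subset | with_reducible apply Int.ltN | with_reducible apply Int.leN | with_reducible apply Int.fin | with_reducible apply Int.unique | with_reducible apply Int.all | with_reducible apply Int.ex |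 with_reducible apply IntF.fst | with_reducible apply IntF.snd | with_reducible apply IntF.app | with_reducible apply IntF.ite | with_reducible apply IntF.sep | with_reducible apply IntF.lam | with_reducible apply IntF.insert | with_reducible apply IntF.singleton | with_reducible apply IntF.union | with_reducible apply IntF.inter | with_reducible apply IntF.sdiff | with_reducible apply IntF.isUnion | with_reducible apply IntF.iimage | with_reducible apply IntF.the | with_reducible apply IntF.irec | with_reducible_and_instances apply IntF.add | with_reducible_and_instances apply IntF.mul | with_reducible apply IntF.succ | with_reducible apply IntF.val | (with_reducible refine Int.comp ?_ ?_; assumption) | (with_reducible refine Int.comp₂ ?_ ?_ ?_; assumption) | (with_reducible refine Int.comp₃ ?_ ?_ ?_ ?_; assumption) | (with_reducible refine IntF.comp ?_ ?_; assumption) | (with_reducible refine IntF.comp₂ ?_ ?_ ?_; assumption) | (with_reducible refine Pool.Agent.Helper672.ZFA.IntF.comp₃ ?_ ?_ ?_ ?_; assumption) | with_reducible apply IntF.pair))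
    · (repeat' (first | with_reducible exact IntF.id | with_reducible exact IntF.fst' | with_reducible exact IntF.snd' | with_reducible exact IntF.const _ | with_reducible exact Int.const _ | assumption | with_reducible apply Int.and | with_reducible apply Int.or | with_reducible apply Int.not | with_reducible apply Int.imp | with_reducible apply Int.iff | with_reducible apply Int.ne | with_reducible apply Int.eq | with_reducible apply Int.mem | with_reducible apply Int.subset | with_reducible apply Int.ltN | with_reducible apply Int.leN | with_reducible apply Int.fin | with_reducible apply Int.unique | with_reducible apply Int.all | with_reducible apply Int.ex | with_reducible apply IntF.fst | with_reducible apply IntF.snd | with_reducible apply IntF.app | with_reducible apply IntF.ite | with_reducible apply IntF.sep | with_reducible apply IntF.lam | with_reducible apply IntF.insert | with_reducible apply IntF.singleton | with_reducible apply IntF.union | with_reducible apply IntF.inter | with_reducible apply IntF.sdiff | with_reducible apply IntF.isUnion | with_reducible apply IntF.iimage | with_reducible apply IntF.the | with_reducible apply IntF.irec | with_reducible_and_instances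 apply IntF.add | with_reducible_and_instances apply IntF.mul | with_reducible apply IntF.succ | with_reducible apply IntF.val | (with_reducible refine Int.comp ?_ ?_; assumption) | (with_reducible refine Int.comp₂ ?_ ?_ ?_; assumption) | (with_reducible refine Int.comp₃ ?_ ?_ ?_ ?_; assumption) | (with_reducible refine IntF.comp ?_ ?_; assumption) | (with_reducible refine IntF.comp₂ ?_ ?_ ?_; assumption) | (with_reducible refine Pool.Agent.Helper672.ZFA.IntF.comp₃ ?_ ?_ ?_ ?_; assumption) | with_reducible apply IntF.pair))
  · (repeat' (first | with_reducible exact IntF.id | with_reducible exact IntF.fst' | with_reducible exact IntF.snd' | with_reducible exact IntF.const _ | with_reducible exact Int.const _ | assumption | with_reducible apply Int.and | with_reducible apply Int.or | with_reducible apply Int.not | with_reducible apply Int.imp | with_reducible apply Int.iff | with_reducible apply Int.ne | with_reducible apply Int.eq | with_reducible apply Int.mem | with_reducible apply Int.subset | with_reducible apply Int.ltN | with_reducible apply Int.leN | with_reducible apply Int.fin | with_reducible apply Int.unique | with_reducible apply Int.all | with_reducible apply Int.ex | with_reducible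 apply IntF.fst | with_reducible apply IntF.snd | with_reducible apply IntF.app | with_reducible apply IntF.ite | with_reducible apply IntF.sep | with_reducible apply IntF.lam | with_reducible apply IntF.insert | with_reducible apply IntF.singleton | with_reducible apply IntF.union | with_reducible apply IntF.inter | with_reducible apply IntF.sdiff | with_reducible apply IntF.isUnion | with_reducible apply IntF.iimage | with_reducible apply IntF.the | with_reducible apply IntF.irec | with_reducible_and_instances apply IntF.add | with_reducible_and_instances apply IntF.mul | with_reducible apply IntF.succ | with_reducible apply IntF.val | (with_reducible refine Int.comp ?_ ?_; assumption) | (with_reducible refine Int.comp₂ ?_ ?_ ?_; assumption) | (with_reducible refine Int.comp₃ ?_ ?_ ?_ ?_; assumption) | (with_reducible refine IntF.comp ?_ ?_; assumption) | (with_reducible refine IntF.comp₂ ?_ ?_ ?_; assumption) | (with_reducible refine Pool.Agent.Helper672.ZFA.IntF.comp₃ ?_ ?_ ?_ ?_; assumption) | with_reducible apply IntF.pair))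

theorem int_dg3 (hs : IntF M sup) (hf : IntF M f) :
    IntF M (fun q : IFun M κ (Fs M α) × Cd M κ => dg3 sup f q.1 q.2) := by
  unfold dg3
  refine IntF.sep ?_
  refine Int.comp₄ (p := LAw3 sup f) (int_LAw3 hs hf) ?_ ?_ ?_ ?_
  · (repeat' (first | with_reducible exact IntF.id | with_reducible exact IntF.fst' | with_reducible exact IntF.snd' | with_reducible exact IntF.const _ | with_reducible exact Int.const _ | assumption | with_reducible apply Int.and | with_reducible apply Int.or | with_reducible apply Int.not | with_reducible apply Int.imp | with_reducible apply Int.iff | with_reducible apply Int.ne | with_reducible apply Int.eq | with_reducible apply Int.mem | with_reducible apply Int.subset | with_reducible apply Int.ltN | with_reducible apply Int.leN | with_reducible apply Int.fin | with_reducible apply Int.unique | with_reducible apply Int.all | with_reducible apply Int.ex | with_reducible apply IntF.fst | with_reducible apply IntF.snd | with_reducible apply IntF.app | with_reducible apply IntF.ite | with_reducible apply IntF.sep | with_reducible apply IntF.lam | with_reducible apply IntF.insert | with_reducible apply IntF.singleton | with_reducible apply IntF.union | with_reducible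 apply IntF.inter | with_reducible apply IntF.sdiff | with_reducible apply IntF.isUnion | with_reducible apply IntF.iimage | with_reducible apply IntF.the | with_reducible apply IntF.irec | with_reducible_and_instances apply IntF.add | with_reducible_and_instances apply IntF.mul | with_reducible apply IntF.succ | with_reducible apply IntF.val | (with_reducible refine Int.comp ?_ ?_; assumption) | (with_reducible refine Int.comp₂ ?_ ?_ ?_; assumption) | (with_reducible refine Int.comp₃ ?_ ?_ ?_ ?_; assumption) | (with_reducible refine IntF.comp ?_ ?_; assumption) | (with_reducible refine IntF.comp₂ ?_ ?_ ?_; assumption) | (with_reducible refine Pool.Agent.Helper672.ZFA.IntF.comp₃ ?_ ?_ ?_ ?_; assumption) | with_reducible apply IntF.pair))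
  · (repeat' (first | with_reducible exact IntF.id | with_reducible exact IntF.fst' | with_reducible exact IntF.snd' | with_reducible exact IntF.const _ | with_reducible exact Int.const _ | assumption | with_reducible apply Int.and | with_reducible apply Int.or | with_reducible apply Int.not | with_reducible apply Int.imp | with_reducible apply Int.iff | with_reducible apply Int.ne | with_reducible apply Int.eq | with_reducible apply Int.mem | with_reducible apply Int.subset | with_reducible apply Int.ltN | with_reducible apply Int.leN | with_reducible apply Int.fin | with_reducible apply Int.unique | with_reducible apply Int.all | with_reducible apply Int.ex | with_reducible apply IntF.fst | with_reducible apply IntF.snd | with_reducible apply IntF.app | with_reducible apply IntF.ite | with_reducible apply IntF.sep | with_reducible apply IntF.lam | with_reducible apply IntF.insert | with_reducible apply IntF.singleton | with_reducible apply IntF.union | with_reducible apply IntF.inter | with_reducible apply IntF.sdiff | with_reducible apply IntF.isUnion | with_reducible apply IntF.iimage | with_reducible apply IntF.the | with_reducible apply IntF.irec | with_reducible_and_instances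 apply IntF.add | with_reducible_and_instances apply IntF.mul | with_reducible apply IntF.succ | with_reducible apply IntF.val | (with_reducible refine Int.comp ?_ ?_; assumption) | (with_reducible refine Int.comp₂ ?_ ?_ ?_; assumption) | (with_reducible refine Int.comp₃ ?_ ?_ ?_ ?_; assumption) | (with_reducible refine IntF.comp ?_ ?_; assumption) | (with_reducible refine IntF.comp₂ ?_ ?_ ?_; assumption) | (with_reducible refine Pool.Agent.Helper672.ZFA.IntF.comp₃ ?_ ?_ ?_ ?_; assumption) | with_reducible apply IntF.pair))
  · (repeat' (first | with_reducible exact IntF.id | with_reducible exact IntF.fst' | with_reducible exact IntF.snd' | with_reducible exact IntF.const _ | with_reducible exact Int.const _ | assumption | with_reducible apply Int.and | with_reducible apply Int.or | with_reducible apply Int.not | with_reducible apply Int.imp | with_reducible apply Int.iff | with_reducible apply Int.ne | with_reducible apply Int.eq | with_reducible apply Int.mem | with_reducible apply Int.subset | with_reducible apply Int.ltN | with_reducible apply Int.leN | with_reducible apply Int.fin | with_reducible apply Int.unique | with_reducible apply Int.all | with_reducible apply Int.ex | with_reducible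 apply IntF.fst | with_reducible apply IntF.snd | with_reducible apply IntF.app | with_reducible apply IntF.ite | with_reducible apply IntF.sep | with_reducible apply IntF.lam | with_reducible apply IntF.insert | with_reducible apply IntF.singleton | with_reducible apply IntF.union | with_reducible apply IntF.inter | with_reducible apply IntF.sdiff | with_reducible apply IntF.isUnion | with_reducible apply IntF.iimage | with_reducible apply IntF.the | with_reducible apply IntF.irec | with_reducible_and_instances apply IntF.add | with_reducible_and_instances apply IntF.mul | with_reducible apply IntF.succ | with_reducible apply IntF.val | (with_reducible refine Int.comp ?_ ?_; assumption) | (with_reducible refine Int.comp₂ ?_ ?_ ?_; assumption) | (with_reducible refine Int.comp₃ ?_ ?_ ?_ ?_; assumption) | (with_reducible refine IntF.comp ?_ ?_; assumption) | (with_reducible refine IntF.comp₂ ?_ ?_ ?_; assumption) | (with_reducible refine Pool.Agent.Helper672.ZFA.IntF.comp₃ ?_ ?_ ?_ ?_; assumption) | with_reducible apply IntF.pair))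
  · (repeat' (first | with_reducible exact IntF.id | with_reducible exact IntF.fst' | with_reducible exact IntF.snd' | with_reducible exact IntF.const _ | with_reducible exact Int.const _ | assumption | with_reducible apply Int.and | with_reducible apply Int.or | with_reducible apply Int.not | with_reducible apply Int.imp | with_reducible apply Int.iff | with_reducible apply Int.ne | with_reducible apply Int.eq | with_reducible apply Int.mem | with_reducible apply Int.subset | with_reducible apply Int.ltN | with_reducible apply Int.leN | with_reducible apply Int.fin | with_reducible apply Int.unique | with_reducible apply Int.all | with_reducible apply Int.ex | with_reducible apply IntF.fst | with_reducible apply IntF.snd | with_reducible apply IntF.app | with_reducible apply IntF.ite | with_reducible apply IntF.sep | with_reducible apply IntF.lam | with_reducible apply IntF.insert | with_reducible apply IntF.singleton | with_reducible apply IntF.union | with_reducible apply IntF.inter | with_reducible apply IntF.sdiff | with_reducible apply IntF.isUnion | with_reducible apply IntF.iimage | with_reducible apply IntF.the | with_reducible apply IntF.irec | with_reducible_and_instances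 apply IntF.add | with_reducible_and_instances apply IntF.mul | with_reducible apply IntF.succ | with_reducible apply IntF.val | (with_reducible refine Int.comp ?_ ?_; assumption) | (with_reducible refine Int.comp₂ ?_ ?_ ?_; assumption) | (with_reducible refine Int.comp₃ ?_ ?_ ?_ ?_; assumption) | (with_reducible refine IntF.comp ?_ ?_; assumption) | (with_reducible refine IntF.comp₂ ?_ ?_ ?_; assumption) | (with_reducible refine Pool.Agent.Helper672.ZFA.IntF.comp₃ ?_ ?_ ?_ ?_; assumption) | with_reducible apply IntF.pair))

theorem mem_dg3 (hs : IntF M sup) (hf : IntF M f) {u : IFun M κ (Fs M α)} {r : Cd M κ}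
    {t : Tr κ} {j : INat M} : (t, j) ∈ dg3 sup f u r ↔ LAw3 sup f u r t j := by
  have h := int_LAw3 (κ := κ) hs hf
  refine mem_sep (p := fun q : Tr κ × INat M => LAw3 sup f u r q.1 q.2) ?_
  refine Int.comp₄ (p := LAw3 sup f) h ?_ ?_ ?_ ?_
  · (repeat' (first | with_reducible exact IntF.id | with_reducible exact IntF.fst' | with_reducible exact IntF.snd' | with_reducible exact IntF.const _ | with_reducible exact Int.const _ | assumption | with_reducible apply Int.and | with_reducible apply Int.or | with_reducible apply Int.not | with_reducible apply Int.imp | with_reducible apply Int.iff | with_reducible apply Int.ne | with_reducible apply Int.eq | with_reducible apply Int.mem | with_reducible apply Int.subset | with_reducible apply Int.ltN | with_reducible apply Int.leN | with_reducible apply Int.fin | with_reducible apply Int.unique | with_reducible apply Int.all | with_reducible apply Int.ex | with_reducible apply IntF.fst | with_reducible apply IntF.snd | with_reducible apply IntF.app | with_reducible apply IntF.ite | with_reducible apply IntF.sep | with_reducible apply IntF.lam | with_reducible apply IntF.insert | with_reducible apply IntF.singleton | with_reducible apply IntF.union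 | with_reducible apply IntF.inter | with_reducible apply IntF.sdiff | with_reducible apply IntF.isUnion | with_reducible apply IntF.iimage | with_reducible apply IntF.the | with_reducible apply IntF.irec | with_reducible_and_instances apply IntF.add | with_reducible_and_instances apply IntF.mul | with_reducible apply IntF.succ | with_reducible apply IntF.val | (with_reducible refine Int.comp ?_ ?_; assumption) | (with_reducible refine Int.comp₂ ?_ ?_ ?_; assumption) | (with_reducible refine Int.comp₃ ?_ ?_ ?_ ?_; assumption) | (with_reducible refine IntF.comp ?_ ?_; assumption) | (with_reducible refine IntF.comp₂ ?_ ?_ ?_; assumption) | (with_reducible refine Pool.Agent.Helper672.ZFA.IntF.comp₃ ?_ ?_ ?_ ?_; assumption) | with_reducible apply IntF.pair))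
  · (repeat' (first | with_reducible exact IntF.id | with_reducible exact IntF.fst' | with_reducible exact IntF.snd' | with_reducible exact IntF.const _ | with_reducible exact Int.const _ | assumption | with_reducible apply Int.and | with_reducible apply Int.or | with_reducible apply Int.not | with_reducible apply Int.imp | with_reducible apply Int.iff | with_reducible apply Int.ne | with_reducible apply Int.eq | with_reducible apply Int.mem | with_reducible apply Int.subset | with_reducible apply Int.ltN | with_reducible apply Int.leN | with_reducible apply Int.fin | with_reducible apply Int.unique | with_reducible apply Int.all | with_reducible apply Int.ex | with_reducible apply IntF.fst | with_reducible apply IntF.snd | with_reducible apply IntF.app | with_reducible apply IntF.ite | with_reducible apply IntF.sep | with_reducible apply IntF.lam | with_reducible apply IntF.insert | with_reducible apply IntF.singleton | with_reducible apply IntF.union | with_reducible apply IntF.inter | with_reducible apply IntF.sdiff | with_reducible apply IntF.isUnion | with_reducible apply IntF.iimage | with_reducible apply IntF.the | with_reducible apply IntF.irec | with_reducible_and_instances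 apply IntF.add | with_reducible_and_instances apply IntF.mul | with_reducible apply IntF.succ | with_reducible apply IntF.val | (with_reducible refine Int.comp ?_ ?_; assumption) | (with_reducible refine Int.comp₂ ?_ ?_ ?_; assumption) | (with_reducible refine Int.comp₃ ?_ ?_ ?_ ?_; assumption) | (with_reducible refine IntF.comp ?_ ?_; assumption) | (with_reducible refine IntF.comp₂ ?_ ?_ ?_; assumption) | (with_reducible refine Pool.Agent.Helper672.ZFA.IntF.comp₃ ?_ ?_ ?_ ?_; assumption) | with_reducible apply IntF.pair))
  · (repeat' (first | with_reducible exact IntF.id | with_reducible exact IntF.fst' | with_reducible exact IntF.snd' | with_reducible exact IntF.const _ | with_reducible exact Int.const _ | assumption | with_reducible apply Int.and | with_reducible apply Int.or | with_reducible apply Int.not | with_reducible apply Int.imp | with_reducible apply Int.iff | with_reducible apply Int.ne | with_reducible apply Int.eq | with_reducible apply Int.mem | with_reducible apply Int.subset | with_reducible apply Int.ltN | with_reducible apply Int.leN | with_reducible apply Int.fin | with_reducible apply Int.unique | with_reducible apply Int.all | with_reducible apply Int.ex | with_reducible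 apply IntF.fst | with_reducible apply IntF.snd | with_reducible apply IntF.app | with_reducible apply IntF.ite | with_reducible apply IntF.sep | with_reducible apply IntF.lam | with_reducible apply IntF.insert | with_reducible apply IntF.singleton | with_reducible apply IntF.union | with_reducible apply IntF.inter | with_reducible apply IntF.sdiff | with_reducible apply IntF.isUnion | with_reducible apply IntF.iimage | with_reducible apply IntF.the | with_reducible apply IntF.irec | with_reducible_and_instances apply IntF.add | with_reducible_and_instances apply IntF.mul | with_reducible apply IntF.succ | with_reducible apply IntF.val | (with_reducible refine Int.comp ?_ ?_; assumption) | (with_reducible refine Int.comp₂ ?_ ?_ ?_; assumption) | (with_reducible refine Int.comp₃ ?_ ?_ ?_ ?_; assumption) | (with_reducible refine IntF.comp ?_ ?_; assumption) | (with_reducible refine IntF.comp₂ ?_ ?_ ?_; assumption) | (with_reducible refine Pool.Agent.Helper672.ZFA.IntF.comp₃ ?_ ?_ ?_ ?_; assumption) | with_reducible apply IntF.pair))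
  · (repeat' (first | with_reducible exact IntF.id | with_reducible exact IntF.fst' | with_reducible exact IntF.snd' | with_reducible exact IntF.const _ | with_reducible exact Int.const _ | assumption | with_reducible apply Int.and | with_reducible apply Int.or | with_reducible apply Int.not | with_reducible apply Int.imp | with_reducible apply Int.iff | with_reducible apply Int.ne | with_reducible apply Int.eq | with_reducible apply Int.mem | with_reducible apply Int.subset | with_reducible apply Int.ltN | with_reducible apply Int.leN | with_reducible apply Int.fin | with_reducible apply Int.unique | with_reducible apply Int.all | with_reducible apply Int.ex | with_reducible apply IntF.fst | with_reducible apply IntF.snd | with_reducible apply IntF.app | with_reducible apply IntF.ite | with_reducible apply IntF.sep | with_reducible apply IntF.lam | with_reducible apply IntF.insert | with_reducible apply IntF.singleton | with_reducible apply IntF.union | with_reducible apply IntF.inter | with_reducible apply IntF.sdiff | with_reducible apply IntF.isUnion | with_reducible apply IntF.iimage | with_reducible apply IntF.the | with_reducible apply IntF.irec | with_reducible_and_instances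 apply IntF.add | with_reducible_and_instances apply IntF.mul | with_reducible apply IntF.succ | with_reducible apply IntF.val | (with_reducible refine Int.comp ?_ ?_; assumption) | (with_reducible refine Int.comp₂ ?_ ?_ ?_; assumption) | (with_reducible refine Int.comp₃ ?_ ?_ ?_ ?_; assumption) | (with_reducible refine IntF.comp ?_ ?_; assumption) | (with_reducible refine IntF.comp₂ ?_ ?_ ?_; assumption) | (with_reducible refine Pool.Agent.Helper672.ZFA.IntF.comp₃ ?_ ?_ ?_ ?_; assumption) | with_reducible apply IntF.pair))

theorem int_ob : IntF M (fun q : ((IPow M κ × IFun M κ (Fs M α)) × Cd M κ) ×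
    IPow M (Tr κ × INat M) => ob q.1.1.1 q.1.1.2 q.1.2 q.2) := by
  unfold ob
  exact IntF.mkR (R := fun (q : ((IPow M κ × IFun M κ (Fs M α)) × Cd M κ) ×
    IPow M (Tr κ × INat M)) x y => x = y ∨ ∃ t j, T3 q.1.1.1 t ∧
      (t, j) ∈ q.2 ∧ jn q.1.1.2 q.1.2 t j x ∧ jn q.1.1.2 q.1.2 t j y) int_obR

theorem int_nws (hs : IntF M sup) (hf : IntF M f) :
    IntF M (fun q : (IPow M κ × IFun M κ (Fs M α)) × Cd M κ => nws sup f q.1.1 q.1.2 q.2) := by
  have hd : IntF M (fun q : (IPow M κ × IFun M κ (Fs M α)) × Cd M κ =>
      dg3 sup f q.1.2 q.2) :=
    IntF.comp (g := fun q : IFun M κ (Fs M α) × Cd M κ => dg3 sup f q.1 q.2)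
      (f := fun q : (IPow M κ × IFun M κ (Fs M α)) × Cd M κ => (q.1.2, q.2))
      (int_dg3 hs hf) (by (repeat' (first | with_reducible exact IntF.id | with_reducible exact IntF.fst' | with_reducible exact IntF.snd' | with_reducible exact IntF.const _ | with_reducible exact Int.const _ | assumption | with_reducible apply Int.and | with_reducible apply Int.or | with_reducible apply Int.not | with_reducible apply Int.imp | with_reducible apply Int.iff | with_reducible apply Int.ne | with_reducible apply Int.eq | with_reducible apply Int.mem | with_reducible apply Int.subset | with_reducible apply Int.ltN | with_reducible apply Int.leN | with_reducible apply Int.fin | with_reducible apply Int.unique | with_reducible apply Int.all | with_reducible apply Int.ex | with_reducible apply IntF.fst | with_reducible apply IntF.snd | with_reducible apply IntF.app | with_reducible apply IntF.ite | with_reducible apply IntF.sep | with_reducible apply IntF.lam | with_reducible apply IntF.insert | with_reducible apply IntF.singleton | with_reducible apply IntF.union | with_reducible apply IntF.inter | with_reducible apply IntF.sdiff | with_reducible apply IntF.isUnion | with_reducible apply IntF.iimage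 | with_reducible apply IntF.the | with_reducible apply IntF.irec | with_reducible_and_instances apply IntF.add | with_reducible_and_instances apply IntF.mul | with_reducible apply IntF.succ | with_reducible apply IntF.val | (with_reducible refine Int.comp ?_ ?_; assumption) | (with_reducible refine Int.comp₂ ?_ ?_ ?_; assumption) | (with_reducible refine Int.comp₃ ?_ ?_ ?_ ?_; assumption) | (with_reducible refine IntF.comp ?_ ?_; assumption) | (with_reducible refine IntF.comp₂ ?_ ?_ ?_; assumption) | (with_reducible refine Pool.Agent.Helper672.ZFA.IntF.comp₃ ?_ ?_ ?_ ?_; assumption) | with_reducible apply IntF.pair)))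
  have ho : IntF M (fun q : (IPow M κ × IFun M κ (Fs M α)) × Cd M κ =>
      ob q.1.1 q.1.2 q.2 (dg3 sup f q.1.2 q.2)) :=
    IntF.comp (g := fun q : ((IPow M κ × IFun M κ (Fs M α)) × Cd M κ) ×
      IPow M (Tr κ × INat M) => ob q.1.1.1 q.1.1.2 q.1.2 q.2)
      (f := fun q : (IPow M κ × IFun M κ (Fs M α)) × Cd M κ => (q, dg3 sup f q.1.2 q.2))
      int_ob (IntF.pair IntF.id hd)
  have hsf : IntF M (fun q : (IPow M κ × IFun M κ (Fs M α)) × Cd M κ =>
      sup (f (ob q.1.1 q.1.2 q.2 (dg3 sup f q.1.2 q.2)))) :=
    IntF.comp hs (IntF.comp hf ho)
  unfold nws
  refine IntF.sep (Int.and ?_ ?_)
  · exact Int.mem IntF.snd' (IntF.comp (g := fun q : (IPow M κ × IFun M κ (Fs M α)) × Cd M κ =>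
      sup (f (ob q.1.1 q.1.2 q.2 (dg3 sup f q.1.2 q.2)))) hsf IntF.fst')
  · (repeat' (first | with_reducible exact IntF.id | with_reducible exact IntF.fst' | with_reducible exact IntF.snd' | with_reducible exact IntF.const _ | with_reducible exact Int.const _ | assumption | with_reducible apply Int.and | with_reducible apply Int.or | with_reducible apply Int.not | with_reducible apply Int.imp | with_reducible apply Int.iff | with_reducible apply Int.ne | with_reducible apply Int.eq | with_reducible apply Int.mem | with_reducible apply Int.subset | with_reducible apply Int.ltN | with_reducible apply Int.leN | with_reducible apply Int.fin | with_reducible apply Int.unique | with_reducible apply Int.all | with_reducible apply Int.ex | with_reducible apply IntF.fst | with_reducible apply IntF.snd | with_reducible apply IntF.app | with_reducible apply IntF.ite | with_reducible apply IntF.sep | with_reducible apply IntF.lam | with_reducible apply IntF.insert | with_reducible apply IntF.singleton | with_reducible apply IntF.union | with_reducible apply IntF.inter | with_reducible apply IntF.sdiff | with_reducible apply IntF.isUnion | with_reducible apply IntF.iimage | with_reducible apply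 IntF.the | with_reducible apply IntF.irec | with_reducible_and_instances apply IntF.add | with_reducible_and_instances apply IntF.mul | with_reducible apply IntF.succ | with_reducible apply IntF.val | (with_reducible refine Int.comp ?_ ?_; assumption) | (with_reducible refine Int.comp₂ ?_ ?_ ?_; assumption) | (with_reducible refine Int.comp₃ ?_ ?_ ?_ ?_; assumption) | (with_reducible refine IntF.comp ?_ ?_; assumption) | (with_reducible refine IntF.comp₂ ?_ ?_ ?_; assumption) | (with_reducible refine Pool.Agent.Helper672.ZFA.IntF.comp₃ ?_ ?_ ?_ ?_; assumption) | with_reducible apply IntF.pair))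

end

theorem t_INW : S_INW.{u} := by
  intro M _ _ α κ τ _ _ _ sup f hT hf d₀
  have hn := int_nws (κ := κ) hT.int hf
  unfold nw
  refine IntF.the (Int.eq ?_ ?_) (IntF.const d₀)
  · (repeat' (first | with_reducible exact IntF.id | with_reducible exact IntF.fst' | with_reducible exact IntF.snd' | with_reducible exact IntF.const _ | with_reducible exact Int.const _ | assumption | with_reducible apply Int.and | with_reducible apply Int.or | with_reducible apply Int.not | with_reducible apply Int.imp | with_reducible apply Int.iff | with_reducible apply Int.ne | with_reducible apply Int.eq | with_reducible apply Int.mem | with_reducible apply Int.subset | with_reducible apply Int.ltN | with_reducible apply Int.leN | with_reducible apply Int.fin | with_reducible apply Int.unique | with_reducible apply Int.all | with_reducible apply Int.ex | with_reducible apply IntF.fst | with_reducible apply IntF.snd | with_reducible apply IntF.app | with_reducible apply IntF.ite | with_reducible apply IntF.sep | with_reducible apply IntF.lam | with_reducible apply IntF.insert | with_reducible apply IntF.singleton | with_reducible apply IntF.union | with_reducible apply IntF.inter | with_reducible apply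 IntF.sdiff | with_reducible apply IntF.isUnion | with_reducible apply IntF.iimage | with_reducible apply IntF.the | with_reducible apply IntF.irec | with_reducible_and_instances apply IntF.add | with_reducible_and_instances apply IntF.mul | with_reducible apply IntF.succ | with_reducible apply IntF.val | (with_reducible refine Int.comp ?_ ?_; assumption) | (with_reducible refine Int.comp₂ ?_ ?_ ?_; assumption) | (with_reducible refine Int.comp₃ ?_ ?_ ?_ ?_; assumption) | (with_reducible refine IntF.comp ?_ ?_; assumption) | (with_reducible refine IntF.comp₂ ?_ ?_ ?_; assumption) | (with_reducible refine Pool.Agent.Helper672.ZFA.IntF.comp₃ ?_ ?_ ?_ ?_; assumption) | with_reducible apply IntF.pair))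
  · exact IntF.comp (g := fun q : (IPow M κ × IFun M κ (Fs M α)) × Cd M κ =>
      nws sup f q.1.1 q.1.2 q.2) hn IntF.fst'

theorem t_NEW : S_NEW.{u} := by
  intro hDEC hLAW M _ _ α κ τ _ _ _ sup f hT hf hinj d₀ D u r hr hu i hi x hx
  have hs : IntF M sup := hT.int
  -- the set of new elements
  have hI : Int M (fun x : α => x ∈ sup (f (ob D u r (dg3 sup f u r))) ∧
      ∀ i, i ∈ D → ¬ x ∈ (u i).1) := by
    (repeat' (first | with_reducible exact IntF.id | with_reducible exact IntF.fst' | with_reducible exact IntF.snd' | with_reducible exact IntF.const _ | with_reducible exact Int.const _ | assumption | with_reducible apply Int.and | with_reducible apply Int.or | with_reducible apply Int.not | with_reducible apply Int.imp | with_reducible apply Int.iff | with_reducible apply Int.ne | with_reducible apply Int.eq | with_reducible apply Int.mem | with_reducible apply Int.subset | with_reducible apply Int.ltN | with_reducible apply Int.leN | with_reducible apply Int.fin | with_reducible apply Int.unique | with_reducible apply Int.all | with_reducible apply Int.ex | with_reducible apply IntF.fst | with_reducible apply IntF.snd | with_reducible apply IntF.app | with_reducible apply IntF.ite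 | with_reducible apply IntF.sep | with_reducible apply IntF.lam | with_reducible apply IntF.insert | with_reducible apply IntF.singleton | with_reducible apply IntF.union | with_reducible apply IntF.inter | with_reducible apply IntF.sdiff | with_reducible apply IntF.isUnion | with_reducible apply IntF.iimage | with_reducible apply IntF.the | with_reducible apply IntF.irec | with_reducible_and_instances apply IntF.add | with_reducible_and_instances apply IntF.mul | with_reducible apply IntF.succ | with_reducible apply IntF.val | (with_reducible refine Int.comp ?_ ?_; assumption) | (with_reducible refine Int.comp₂ ?_ ?_ ?_; assumption) | (with_reducible refine Int.comp₃ ?_ ?_ ?_ ?_; assumption) | (with_reducible refine IntF.comp ?_ ?_; assumption) | (with_reducible refine IntF.comp₂ ?_ ?_ ?_; assumption) | (with_reducible refine Pool.Agent.Helper672.ZFA.IntF.comp₃ ?_ ?_ ?_ ?_; assumption) | with_reducible apply IntF.pair))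
  have hmem : ∀ x, x ∈ nws sup f D u r ↔ (x ∈ sup (f (ob D u r (dg3 sup f u r))) ∧
      ∀ i, i ∈ D → ¬ x ∈ (u i).1) := fun x => mem_sep hI
  have hne : ∃ x, x ∈ nws sup f D u r := by
    by_contra hcon
    push Not at hcon
    have h1 : ∀ x, x ∈ sup (f (ob D u r (dg3 sup f u r))) → ∃ i, i ∈ D ∧ x ∈ (u i).1 := by
      intro x hx
      by_contra h2
      push Not at h2
      exact hcon x ((hmem x).2 ⟨hx, h2⟩)
    obtain ⟨a, b, c, habc⟩ := hT.three (f (ob D u r (dg3 sup f u r)))
    obtain ⟨i₁, k1, l1⟩ := h1 a ((habc a).2 (Or.inl rfl))
    obtain ⟨i₂, k2, l2⟩ := h1 b ((habc b).2 (Or.inr (Or.inl rfl)))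
    obtain ⟨i₃, k3, l3⟩ := h1 c ((habc c).2 (Or.inr (Or.inr rfl)))
    obtain ⟨k, hk⟩ := hLAW M α κ τ sup f hT hf hinj u r ((i₁, i₂), i₃)
    have ht : T3 D ((i₁, i₂), i₃) := ⟨k1, k2, k3⟩
    refine hk.1 (ob D u r (dg3 sup f u r)) ?_ ?_
    · intro x hx
      rcases (habc x).1 hx with rfl | rfl | rfl
      · exact Or.inl l1
      · exact Or.inr (Or.inl l2)
      · exact Or.inr (Or.inr l3)
    · intro j
      rw [hDEC M α κ D u r _ hr hu _ j ht, mem_dg3 hs hf]
      constructor
      · intro hj
        exact le_antisymm (hj.2 k hk.1) (hk.2 j hj.1)
      · rintro rfl
        exact hk
  have hfin : IFin (nws sup f D u r) := by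
    obtain ⟨a, b, c, habc⟩ := hT.three (f (ob D u r (dg3 sup f u r)))
    refine IFin.subset (((IFin.singleton c).insert b).insert a) fun x hx => ?_
    have h1 := (habc x).1 ((hmem x).1 hx).1
    rw [mem_insert, mem_insert, mem_singleton]
    exact h1
  have hnw : (nw sup f d₀ D u r).1 = nws sup f D u r := by
    have h1 : ∃! v : Fs M α, v.1 = nws sup f D u r :=
      ⟨⟨nws sup f D u r, hfin, hne⟩, rfl, fun v hv => Subtype.ext hv⟩
    exact the_spec (d := d₀) h1
  rw [hnw] at hx
  exact ((hmem x).1 hx).2 i hi

theorem t_LOC : S_LOC.{u} := by
  intro M _ _ α κ τ _ _ _ sup f hT hf d₀ D u u' r hr huu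
  have hs : IntF M sup := hT.int
  have hjn : ∀ t, T3 D t → ∀ j x, (jn u r t j x ↔ jn u' r t j x) := by
    intro t ht j x
    unfold jn
    rw [huu _ (hr.1 t (j, 0) ht), huu _ (hr.1 t (j, INat.succ 0) ht)]
  have hdc : ∀ t, T3 D t → ∀ P j, (dc u r P t j ↔ dc u' r P t j) := by
    intro t ht P j
    unfold dc
    rw [huu _ (hr.1 t (j, 0) ht), huu _ (hr.1 t (j, INat.succ 0) ht)]
  have hAw : ∀ t, T3 D t → ∀ k, (Aw3 sup f u r t k ↔ Aw3 sup f u' r t k) := by
    intro t ht k
    unfold Aw3
    rw [huu _ ht.1, huu _ ht.2.1, huu _ ht.2.2]
    refine forall_congr' fun P => imp_congr Iff.rfl (not_congr (forall_congr' fun j => ?_))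
    rw [hdc t ht P j]
  have hLAw : ∀ t, T3 D t → ∀ k, (LAw3 sup f u r t k ↔ LAw3 sup f u' r t k) := by
    intro t ht k
    unfold LAw3
    rw [hAw t ht k]
    refine and_congr Iff.rfl (forall_congr' fun k' => ?_)
    rw [hAw t ht k']
  have hob : ob D u r (dg3 sup f u r) = ob D u' r (dg3 sup f u' r) := by
    unfold ob
    congr 1
    funext x y
    refine propext (or_congr Iff.rfl (exists_congr fun t => exists_congr fun j => ?_))
    constructor
    · rintro ⟨h1, h2, h3, h4⟩
      exact ⟨h1, (mem_dg3 hs hf).2 ((hLAw t h1 j).1 ((mem_dg3 hs hf).1 h2)),
        (hjn t h1 j x).1 h3, (hjn t h1 j y).1 h4⟩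
    · rintro ⟨h1, h2, h3, h4⟩
      exact ⟨h1, (mem_dg3 hs hf).2 ((hLAw t h1 j).2 ((mem_dg3 hs hf).1 h2)),
        (hjn t h1 j x).2 h3, (hjn t h1 j y).2 h4⟩
  have hnws : nws sup f D u r = nws sup f D u' r := by
    unfold nws
    congr 1
    funext x
    rw [hob]
    refine propext (and_congr Iff.rfl (forall_congr' fun i => ?_))
    constructor
    · intro h1 h2
      rw [← huu i h2]
      exact h1 h2
    · intro h1 h2
      rw [huu i h2]
      exact h1 h2
  unfold nw
  rw [hnws]

end Pool.Agent.Q222.ZE
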