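import Pool.Agent.Q222.ZE.Rr
import Pool.Agent.Q222.ZE.Dec

/-!
# Project ZE: there is no sequence of disjoint nonempty finite sets (job CORE)
-/

set_option maxHeartbeats 400000
set_option linter.all false

namespace Pool.Agent.Q222.ZE

open FirstOrder FirstOrder.Language
open Pool.Agent.Helper672.ZFA
open Pool.Agent.H310
open Pool.Agent.Q212.ZA
open Pool.Agent.Q212.ZE
open Pool.Agent.Q212.ZD (IWO)

universe u

section

variable {M : Type u} [L.Structure M] [hM : IsModel M]
variable {Ω : Type u} [ITy M Ω]

variable (M Ω) in
/-- The zero function. -/
noncomputable def zJ : Jt M Ω := ⟨⟨fun _ => 0, IntF.const 0⟩, by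
  have hI := int_supp (M := M) (δ := Ω) ⟨fun _ => 0, IntF.const 0⟩
  refine IFin.subset IFin.empty fun x hx => ?_
  exact absurd rfl ((mem_sep hI).1 hx)⟩

theorem zJ_apply (x : Ω) : (zJ M Ω).1 x = 0 := rfl

/-- The function with value `succ 0` at `x`. -/
noncomputable def dJ (x : Ω) : Jt M Ω := upd x (zJ M Ω) (INat.succ 0)

theorem int_dJ : IntF M (fun x : Ω => dJ (M := M) x) := by
  classical
  unfold dJ upd
  refine IntF.mk ?_
  refine IntF.lam (f := fun (x : Ω) y => if y = x then (INat.succ 0 : INat M)
    else (zJ M Ω).1 y) ?_
  refine IntF.ite ?_ ?_ ?_
  · (repeat' (first | with_reducible exact IntF.id | with_reducible exact IntF.fst' | with_reducible exact IntF.snd' | with_reducible exact IntF.const _ | with_reducible exact Int.const _ | assumption | with_reducible apply Int.and | with_reducible apply Int.or | with_reducible apply Int.not | with_reducible apply Int.imp | with_reducible apply Int.iff | with_reducible apply Int.ne | with_reducible apply Int.eq | with_reducible apply Int.mem | with_reducible apply Int.subset | with_reducible apply Int.ltN | with_reducible apply Int.leN | with_reducible apply Int.fin | with_reducible apply Int.unique | with_reducible apply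 Int.all | with_reducible apply Int.ex | with_reducible apply IntF.fst | with_reducible apply IntF.snd | with_reducible apply IntF.app | with_reducible apply IntF.ite | with_reducible apply IntF.sep | with_reducible apply IntF.lam | with_reducible apply IntF.insert | with_reducible apply IntF.singleton | with_reducible apply IntF.union | with_reducible apply IntF.inter | with_reducible apply IntF.sdiff | with_reducible apply IntF.isUnion | with_reducible apply IntF.iimage | with_reducible apply IntF.the | with_reducible apply IntF.irec | with_reducible_and_instances apply IntF.add | with_reducible_and_instances apply IntF.mul | with_reducible apply IntF.succ | with_reducible apply IntF.val | (with_reducible refine Int.comp ?_ ?_; assumption) | (with_reducible refine Int.comp₂ ?_ ?_ ?_; assumption) | (with_reducible refine Int.comp₃ ?_ ?_ ?_ ?_; assumption) | (with_reducible refine IntF.comp ?_ ?_; assumption) | (with_reducible refine IntF.comp₂ ?_ ?_ ?_; assumption) | (with_reducible refine Pool.Agent.Helper672.ZFA.IntF.comp₃ ?_ ?_ ?_ ?_; assumption) | with_reducible apply IntF.pair))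
  · (repeat' (first | with_reducible exact IntF.id | with_reducible exact IntF.fst' | with_reducible exact IntF.snd' | with_reducible exact IntF.const _ | with_reducible exact Int.const _ | assumption | with_reducible apply Int.and | with_reducible apply Int.or | with_reducible apply Int.not | with_reducible apply Int.imp | with_reducible apply Int.iff | with_reducible apply Int.ne | with_reducible apply Int.eq | with_reducible apply Int.mem | with_reducible apply Int.subset | with_reducible apply Int.ltN | with_reducible apply Int.leN | with_reducible apply Int.fin | with_reducible apply Int.unique | with_reducible apply Int.all | with_reducible apply Int.ex | with_reducible apply IntF.fst | with_reducible apply IntF.snd | with_reducible apply IntF.app | with_reducible apply IntF.ite | with_reducible apply IntF.sep | with_reducible apply IntF.lam | with_reducible apply IntF.insert | with_reducible apply IntF.singleton | with_reducible apply IntF.union | with_reducible apply IntF.inter | with_reducible apply IntF.sdiff | with_reducible apply IntF.isUnion | with_reducible apply IntF.iimage | with_reducible apply IntF.the | with_reducible apply IntF.irec | with_reducible_and_instances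 apply IntF.add | with_reducible_and_instances apply IntF.mul | with_reducible apply IntF.succ | with_reducible apply IntF.val | (with_reducible refine Int.comp ?_ ?_; assumption) | (with_reducible refine Int.comp₂ ?_ ?_ ?_; assumption) | (with_reducible refine Int.comp₃ ?_ ?_ ?_ ?_; assumption) | (with_reducible refine IntF.comp ?_ ?_; assumption) | (with_reducible refine IntF.comp₂ ?_ ?_ ?_; assumption) | (with_reducible refine Pool.Agent.Helper672.ZFA.IntF.comp₃ ?_ ?_ ?_ ?_; assumption) | with_reducible apply IntF.pair))
  · (repeat' (first | with_reducible exact IntF.id | with_reducible exact IntF.fst' | with_reducible exact IntF.snd' | with_reducible exact IntF.const _ | with_reducible exact Int.const _ | assumption | with_reducible apply Int.and | with_reducible apply Int.or | with_reducible apply Int.not | with_reducible apply Int.imp | with_reducible apply Int.iff | with_reducible apply Int.ne | with_reducible apply Int.eq | with_reducible apply Int.mem | with_reducible apply Int.subset | with_reducible apply Int.ltN | with_reducible apply Int.leN | with_reducible apply Int.fin | with_reducible apply Int.unique | with_reducible apply Int.all | with_reducible apply Int.ex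 | with_reducible apply IntF.fst | with_reducible apply IntF.snd | with_reducible apply IntF.app | with_reducible apply IntF.ite | with_reducible apply IntF.sep | with_reducible apply IntF.lam | with_reducible apply IntF.insert | with_reducible apply IntF.singleton | with_reducible apply IntF.union | with_reducible apply IntF.inter | with_reducible apply IntF.sdiff | with_reducible apply IntF.isUnion | with_reducible apply IntF.iimage | with_reducible apply IntF.the | with_reducible apply IntF.irec | with_reducible_and_instances apply IntF.add | with_reducible_and_instances apply IntF.mul | with_reducible apply IntF.succ | with_reducible apply IntF.val | (with_reducible refine Int.comp ?_ ?_; assumption) | (with_reducible refine Int.comp₂ ?_ ?_ ?_; assumption) | (with_reducible refine Int.comp₃ ?_ ?_ ?_ ?_; assumption) | (with_reducible refine IntF.comp ?_ ?_; assumption) | (with_reducible refine IntF.comp₂ ?_ ?_ ?_; assumption) | (with_reducible refine Pool.Agent.Helper672.ZFA.IntF.comp₃ ?_ ?_ ?_ ?_; assumption) | with_reducible apply IntF.pair))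

theorem dJ_inj {x y : Ω} (h : dJ (M := M) x = dJ (M := M) y) : x = y := by
  by_contra hne
  have h1 : (dJ (M := M) x).1 x = (dJ (M := M) y).1 x := by rw [h]
  unfold dJ at h1
  rw [upd_same, upd_ne hne, zJ_apply] at h1
  exact INat.succ_ne_zero _ h1

end

theorem t_CORE : S_CORE'.{u} := by
  intro hHAR hREC hJWO hKWO hRR hINW hDEC hLAW hNEW hLOC M _ _ α τ _ _ sup f hT hf hinj d hd hdis
  classical
  obtain ⟨Ω, iΩ, lt, hlt, hno⟩ := hHAR M (Fs M α)
  -- the index type
  have hNWO : IWO M (fun m n : INat M => m < n) := by
    refine ⟨?_, lt_irrefl, fun a b c => lt_trans, fun a b => lt_trichotomy a b, ?_⟩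
    · (repeat' (first | with_reducible exact IntF.id | with_reducible exact IntF.fst' | with_reducible exact IntF.snd' | with_reducible exact IntF.const _ | with_reducible exact Int.const _ | assumption | with_reducible apply Int.and | with_reducible apply Int.or | with_reducible apply Int.not | with_reducible apply Int.imp | with_reducible apply Int.iff | with_reducible apply Int.ne | with_reducible apply Int.eq | with_reducible apply Int.mem | with_reducible apply Int.subset | with_reducible apply Int.ltN | with_reducible apply Int.leN | with_reducible apply Int.fin | with_reducible apply Int.unique | with_reducible apply Int.all | with_reducible apply Int.ex | with_reducible apply IntF.fst | with_reducible apply IntF.snd | with_reducible apply IntF.app | with_reducible apply IntF.ite | with_reducible apply IntF.sep | with_reducible apply IntF.lam | with_reducible apply IntF.insert | with_reducible apply IntF.singleton | with_reducible apply IntF.union | with_reducible apply IntF.inter | with_reducible apply IntF.sdiff | with_reducible apply IntF.isUnion | with_reducible apply IntF.iimage | with_reducible apply IntF.the | with_reducible apply IntF.irec | with_reducible_and_instances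 apply IntF.add | with_reducible_and_instances apply IntF.mul | with_reducible apply IntF.succ | with_reducible apply IntF.val | (with_reducible refine Int.comp ?_ ?_; assumption) | (with_reducible refine Int.comp₂ ?_ ?_ ?_; assumption) | (with_reducible refine Int.comp₃ ?_ ?_ ?_ ?_; assumption) | (with_reducible refine IntF.comp ?_ ?_; assumption) | (with_reducible refine IntF.comp₂ ?_ ?_ ?_; assumption) | (with_reducible refine Pool.Agent.Helper672.ZFA.IntF.comp₃ ?_ ?_ ?_ ?_; assumption) | with_reducible apply IntF.pair))
    · rintro p hp ⟨x, hx⟩
      obtain ⟨n, h1, h2⟩ := INat.exists_least hp ⟨x, hx⟩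
      exact ⟨n, h1, fun m hm => not_lt.2 (h2 m hm)⟩
  have hJ : IWO M (ltJ (M := M) lt) := hJWO M Ω lt hlt
  have hK : IWO M (ltK (M := M) lt) := hKWO M (Jt M Ω) (INat M) _ _ hJ hNWO
  have hl : Int M (fun q : Ω × Ω => lt q.1 q.2) := hlt.int
  have hkl : Int M (fun q : Kt M Ω × Kt M Ω => ltK lt q.1 q.2) := hK.int
  obtain ⟨rr, hrr, hRg⟩ := hRR M Ω lt hlt
  -- `Ω` is nonempty
  obtain ⟨ω₀⟩ : Nonempty Ω := by
    by_contra hemp
    rw [not_nonempty_iff] at hemp
    exact hno (fun x => (hemp.false x).elim)
      ((Int.const True).congr fun q => (hemp.false q.1).elim) fun x => (hemp.false x).elim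
  have hT2 : Int M (fun q : Kt M Ω × Ω => Top lt q.1.1 q.2) := by
    unfold Pool.Agent.Q212.ZE.Top
    (repeat' (first | with_reducible exact IntF.id | with_reducible exact IntF.fst' | with_reducible exact IntF.snd' | with_reducible exact IntF.const _ | with_reducible exact Int.const _ | assumption | with_reducible apply Int.and | with_reducible apply Int.or | with_reducible apply Int.not | with_reducible apply Int.imp | with_reducible apply Int.iff | with_reducible apply Int.ne | with_reducible apply Int.eq | with_reducible apply Int.mem | with_reducible apply Int.subset | with_reducible apply Int.ltN | with_reducible apply Int.leN | with_reducible apply Int.fin | with_reducible apply Int.unique | with_reducible apply Int.all | with_reducible apply Int.ex | with_reducible apply IntF.fst | with_reducible apply IntF.snd | with_reducible apply IntF.app | with_reducible apply IntF.ite | with_reducible apply IntF.sep | with_reducible apply IntF.lam | with_reducible apply IntF.insert | with_reducible apply IntF.singleton | with_reducible apply IntF.union | with_reducible apply IntF.inter | with_reducible apply IntF.sdiff | with_reducible apply IntF.isUnion | with_reducible apply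 IntF.iimage | with_reducible apply IntF.the | with_reducible apply IntF.irec | with_reducible_and_instances apply IntF.add | with_reducible_and_instances apply IntF.mul | with_reducible apply IntF.succ | with_reducible apply IntF.val | (with_reducible refine Int.comp ?_ ?_; assumption) | (with_reducible refine Int.comp₂ ?_ ?_ ?_; assumption) | (with_reducible refine Int.comp₃ ?_ ?_ ?_ ?_; assumption) | (with_reducible refine IntF.comp ?_ ?_; assumption) | (with_reducible refine IntF.comp₂ ?_ ?_ ?_; assumption) | (with_reducible refine Pool.Agent.Helper672.ZFA.IntF.comp₃ ?_ ?_ ?_ ?_; assumption) | with_reducible apply IntF.pair))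
  have htop : IntF M (fun k : Kt M Ω => the (fun ξ => Top lt k.1 ξ) ω₀) :=
    IntF.the hT2 (IntF.const ω₀)
  have hbel : IntF M (fun k : Kt M Ω => bel (M := M) (ltK lt) k) := by
    unfold bel
    (repeat' (first | with_reducible exact IntF.id | with_reducible exact IntF.fst' | with_reducible exact IntF.snd' | with_reducible exact IntF.const _ | with_reducible exact Int.const _ | assumption | with_reducible apply Int.and | with_reducible apply Int.or | with_reducible apply Int.not | with_reducible apply Int.imp | with_reducible apply Int.iff | with_reducible apply Int.ne | with_reducible apply Int.eq | with_reducible apply Int.mem | with_reducible apply Int.subset | with_reducible apply Int.ltN | with_reducible apply Int.leN | with_reducible apply Int.fin | with_reducible apply Int.unique | with_reducible apply Int.all | with_reducible apply Int.ex | with_reducible apply IntF.fst | with_reducible apply IntF.snd | with_reducible apply IntF.app | with_reducible apply IntF.ite | with_reducible apply IntF.sep | with_reducible apply IntF.lam | with_reducible apply IntF.insert | with_reducible apply IntF.singleton | with_reducible apply IntF.union | with_reducible apply IntF.inter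 | with_reducible apply IntF.sdiff | with_reducible apply IntF.isUnion | with_reducible apply IntF.iimage | with_reducible apply IntF.the | with_reducible apply IntF.irec | with_reducible_and_instances apply IntF.add | with_reducible_and_instances apply IntF.mul | with_reducible apply IntF.succ | with_reducible apply IntF.val | (with_reducible refine Int.comp ?_ ?_; assumption) | (with_reducible refine Int.comp₂ ?_ ?_ ?_; assumption) | (with_reducible refine Int.comp₃ ?_ ?_ ?_ ?_; assumption) | (with_reducible refine IntF.comp ?_ ?_; assumption) | (with_reducible refine IntF.comp₂ ?_ ?_ ?_; assumption) | (with_reducible refine Pool.Agent.Helper672.ZFA.IntF.comp₃ ?_ ?_ ?_ ?_; assumption) | with_reducible apply IntF.pair))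
  have hmb : ∀ k i : Kt M Ω, i ∈ bel (M := M) (ltK lt) k ↔ ltK lt i k := by
    intro k i
    have hb : Int M (fun i : Kt M Ω => ltK lt i k) := by
      (repeat' (first | with_reducible exact IntF.id | with_reducible exact IntF.fst' | with_reducible exact IntF.snd' | with_reducible exact IntF.const _ | with_reducible exact Int.const _ | assumption | with_reducible apply Int.and | with_reducible apply Int.or | with_reducible apply Int.not | with_reducible apply Int.imp | with_reducible apply Int.iff | with_reducible apply Int.ne | with_reducible apply Int.eq | with_reducible apply Int.mem | with_reducible apply Int.subset | with_reducible apply Int.ltN | with_reducible apply Int.leN | with_reducible apply Int.fin | with_reducible apply Int.unique | with_reducible apply Int.all | with_reducible apply Int.ex | with_reducible apply IntF.fst | with_reducible apply IntF.snd | with_reducible apply IntF.app | with_reducible apply IntF.ite | with_reducible apply IntF.sep | with_reducible apply IntF.lam | with_reducible apply IntF.insert | with_reducible apply IntF.singleton | with_reducible apply IntF.union | with_reducible apply IntF.inter | with_reducible apply IntF.sdiff | with_reducible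 apply IntF.isUnion | with_reducible apply IntF.iimage | with_reducible apply IntF.the | with_reducible apply IntF.irec | with_reducible_and_instances apply IntF.add | with_reducible_and_instances apply IntF.mul | with_reducible apply IntF.succ | with_reducible apply IntF.val | (with_reducible refine Int.comp ?_ ?_; assumption) | (with_reducible refine Int.comp₂ ?_ ?_ ?_; assumption) | (with_reducible refine Int.comp₃ ?_ ?_ ?_ ?_; assumption) | (with_reducible refine IntF.comp ?_ ?_; assumption) | (with_reducible refine IntF.comp₂ ?_ ?_ ?_; assumption) | (with_reducible refine Pool.Agent.Helper672.ZFA.IntF.comp₃ ?_ ?_ ?_ ?_; assumption) | with_reducible apply IntF.pair))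
    exact mem_sep hb
  haveI : Nonempty (Fs M α) := ⟨d 0⟩
  -- the recursion
  let G : Kt M Ω → IFun M (Kt M Ω) (Fs M α) → Fs M α := fun k t =>
    if ∀ x, k.1.1 x = 0 then d k.2 else
      nw sup f (d 0) (bel (M := M) (ltK lt) k) t (rr (the (fun ξ => Top lt k.1 ξ) ω₀))
  have hG : IntF M (fun q : Kt M Ω × IFun M (Kt M Ω) (Fs M α) => G q.1 q.2) := by
    refine IntF.ite ?_ ?_ ?_
    · (repeat' (first | with_reducible exact IntF.id | with_reducible exact IntF.fst' | with_reducible exact IntF.snd' | with_reducible exact IntF.const _ | with_reducible exact Int.const _ | assumption | with_reducible apply Int.and | with_reducible apply Int.or | with_reducible apply Int.not | with_reducible apply Int.imp | with_reducible apply Int.iff | with_reducible apply Int.ne | with_reducible apply Int.eq | with_reducible apply Int.mem | with_reducible apply Int.subset | with_reducible apply Int.ltN | with_reducible apply Int.leN | with_reducible apply Int.fin | with_reducible apply Int.unique | with_reducible apply Int.all | with_reducible apply Int.ex | with_reducible apply IntF.fst | with_reducible apply IntF.snd | with_reducible apply IntF.app | with_reducible apply IntF.ite | with_reducible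 apply IntF.sep | with_reducible apply IntF.lam | with_reducible apply IntF.insert | with_reducible apply IntF.singleton | with_reducible apply IntF.union | with_reducible apply IntF.inter | with_reducible apply IntF.sdiff | with_reducible apply IntF.isUnion | with_reducible apply IntF.iimage | with_reducible apply IntF.the | with_reducible apply IntF.irec | with_reducible_and_instances apply IntF.add | with_reducible_and_instances apply IntF.mul | with_reducible apply IntF.succ | with_reducible apply IntF.val | (with_reducible refine Int.comp ?_ ?_; assumption) | (with_reducible refine Int.comp₂ ?_ ?_ ?_; assumption) | (with_reducible refine Int.comp₃ ?_ ?_ ?_ ?_; assumption) | (with_reducible refine IntF.comp ?_ ?_; assumption) | (with_reducible refine IntF.comp₂ ?_ ?_ ?_; assumption) | (with_reducible refine Pool.Agent.Helper672.ZFA.IntF.comp₃ ?_ ?_ ?_ ?_; assumption) | with_reducible apply IntF.pair))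
    · (repeat' (first | with_reducible exact IntF.id | with_reducible exact IntF.fst' | with_reducible exact IntF.snd' | with_reducible exact IntF.const _ | with_reducible exact Int.const _ | assumption | with_reducible apply Int.and | with_reducible apply Int.or | with_reducible apply Int.not | with_reducible apply Int.imp | with_reducible apply Int.iff | with_reducible apply Int.ne | with_reducible apply Int.eq | with_reducible apply Int.mem | with_reducible apply Int.subset | with_reducible apply Int.ltN | with_reducible apply Int.leN | with_reducible apply Int.fin | with_reducible apply Int.unique | with_reducible apply Int.all | with_reducible apply Int.ex | with_reducible apply IntF.fst | with_reducible apply IntF.snd | with_reducible apply IntF.app | with_reducible apply IntF.ite | with_reducible apply IntF.sep | with_reducible apply IntF.lam | with_reducible apply IntF.insert | with_reducible apply IntF.singleton | with_reducible apply IntF.union | with_reducible apply IntF.inter | with_reducible apply IntF.sdiff | with_reducible apply IntF.isUnion | with_reducible apply IntF.iimage | with_reducible apply IntF.the | with_reducible apply IntF.irec | with_reducible_and_instances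 apply IntF.add | with_reducible_and_instances apply IntF.mul | with_reducible apply IntF.succ | with_reducible apply IntF.val | (with_reducible refine Int.comp ?_ ?_; assumption) | (with_reducible refine Int.comp₂ ?_ ?_ ?_; assumption) | (with_reducible refine Int.comp₃ ?_ ?_ ?_ ?_; assumption) | (with_reducible refine IntF.comp ?_ ?_; assumption) | (with_reducible refine IntF.comp₂ ?_ ?_ ?_; assumption) | (with_reducible refine Pool.Agent.Helper672.ZFA.IntF.comp₃ ?_ ?_ ?_ ?_; assumption) | with_reducible apply IntF.pair))
    · have h1 := hINW M α (Kt M Ω) τ sup f hT hf (d 0)
      refine IntF.comp (g := fun q : (IPow M (Kt M Ω) × IFun M (Kt M Ω) (Fs M α)) ×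
          Cd M (Kt M Ω) => nw sup f (d 0) q.1.1 q.1.2 q.2)
        (f := fun q : Kt M Ω × IFun M (Kt M Ω) (Fs M α) =>
          ((bel (M := M) (ltK lt) q.1, q.2), rr (the (fun ξ => Top lt q.1.1 ξ) ω₀))) h1 ?_
      refine IntF.pair (IntF.pair ?_ IntF.snd') ?_
      · exact IntF.comp (g := fun k : Kt M Ω => bel (M := M) (ltK lt) k) hbel IntF.fst'
      · exact IntF.comp hrr (IntF.comp
          (g := fun k : Kt M Ω => the (fun ξ => Top lt k.1 ξ) ω₀) htop IntF.fst')
  have hthe : ∀ g : Jt M Ω, (∃ x, g.1 x ≠ 0) → Top lt g (the (fun ξ => Top lt g ξ) ω₀) := by
    intro g hg
    obtain ⟨ξ, hξ⟩ := exists_top hlt hg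
    refine the_spec ⟨ξ, hξ, fun η hη => ?_⟩
    rcases hlt.tri η ξ with h1 | h1 | h1
    · exact absurd (hη.2 ξ h1) hξ.1
    · exact h1
    · exact absurd (hξ.2 η h1) hη.1
  have hR : ∀ k : Kt M Ω, ¬ (∀ x, k.1.1 x = 0) →
      Rg (bel (M := M) (ltK lt) k) (rr (the (fun ξ => Top lt k.1 ξ) ω₀)) := by
    intro k hk
    push Not at hk
    exact hRg k.1 _ k.2 (hthe k.1 hk)
  obtain ⟨e, he⟩ := hREC M (Kt M Ω) (Fs M α) (ltK lt) hK G hG (by
    intro j t t' htt
    change (if ∀ x, j.1.1 x = 0 then d j.2 else
      nw sup f (d 0) (bel (M := M) (ltK lt) j) t (rr (the (fun ξ => Top lt j.1 ξ) ω₀))) =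
      (if ∀ x, j.1.1 x = 0 then d j.2 else
      nw sup f (d 0) (bel (M := M) (ltK lt) j) t' (rr (the (fun ξ => Top lt j.1 ξ) ω₀)))
    by_cases h0 : ∀ x, j.1.1 x = 0
    · rw [if_pos h0, if_pos h0]
    · rw [if_neg h0, if_neg h0]
      exact hLOC M α (Kt M Ω) τ sup f hT hf (d 0) _ t t' _ (hR j h0)
        (fun i hi => htt i ((hmb j i).1 hi)))
  -- disjointness
  have hdj : ∀ k i, ltK (M := M) lt i k → ∀ x, x ∈ (e k).1 → ¬ x ∈ (e i).1 := by
    by_contra hcon
    push Not at hcon
    obtain ⟨k₀, hk₀⟩ := hcon
    have hI : Int M (fun k : Kt M Ω => ∃ i, ltK lt i k ∧ ∃ x, x ∈ (e k).1 ∧ x ∈ (e i).1) := by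
      (repeat' (first | with_reducible exact IntF.id | with_reducible exact IntF.fst' | with_reducible exact IntF.snd' | with_reducible exact IntF.const _ | with_reducible exact Int.const _ | assumption | with_reducible apply Int.and | with_reducible apply Int.or | with_reducible apply Int.not | with_reducible apply Int.imp | with_reducible apply Int.iff | with_reducible apply Int.ne | with_reducible apply Int.eq | with_reducible apply Int.mem | with_reducible apply Int.subset | with_reducible apply Int.ltN | with_reducible apply Int.leN | with_reducible apply Int.fin | with_reducible apply Int.unique | with_reducible apply Int.all | with_reducible apply Int.ex | with_reducible apply IntF.fst | with_reducible apply IntF.snd | with_reducible apply IntF.app | with_reducible apply IntF.ite | with_reducible apply IntF.sep | with_reducible apply IntF.lam | with_reducible apply IntF.insert | with_reducible apply IntF.singleton | with_reducible apply IntF.union | with_reducible apply IntF.inter | with_reducible apply IntF.sdiff | with_reducible apply IntF.isUnion | with_reducible apply IntF.iimage | with_reducible apply IntF.the | with_reducible apply IntF.irec | with_reducible_and_instances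 apply IntF.add | with_reducible_and_instances apply IntF.mul | with_reducible apply IntF.succ | with_reducible apply IntF.val | (with_reducible refine Int.comp ?_ ?_; assumption) | (with_reducible refine Int.comp₂ ?_ ?_ ?_; assumption) | (with_reducible refine Int.comp₃ ?_ ?_ ?_ ?_; assumption) | (with_reducible refine IntF.comp ?_ ?_; assumption) | (with_reducible refine IntF.comp₂ ?_ ?_ ?_; assumption) | (with_reducible refine Pool.Agent.Helper672.ZFA.IntF.comp₃ ?_ ?_ ?_ ?_; assumption) | with_reducible apply IntF.pair))
    obtain ⟨k, ⟨i, hi, x, hx, hx'⟩, hmin⟩ := hK.min _ hI ⟨k₀, hk₀⟩
    have hbl : ∀ j, ltK (M := M) lt j k → ∀ i, ltK (M := M) lt i j → ∀ x, x ∈ (e j).1 →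
        ¬ x ∈ (e i).1 := by
      intro j hj i hi x hx hx'
      exact hmin j ⟨i, hi, x, hx, hx'⟩ hj
    by_cases h0 : ∀ x, k.1.1 x = 0
    · have hek : e k = d k.2 := by
        rw [he k]
        change (if ∀ x, k.1.1 x = 0 then d k.2 else _) = _
        rw [if_pos h0]
      rcases hi with ⟨y, hy, -⟩ | ⟨h1, h2⟩
      · rw [h0 y] at hy
        exact INat.not_lt_zero hy
      · have h3 : ∀ x, i.1.1 x = 0 := by
          rw [h1]
          exact h0
        have hei : e i = d i.2 := by
          rw [he i]
          change (if ∀ x, i.1.1 x = 0 then d i.2 else _) = _
          rw [if_pos h3]
        rw [hek] at hx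
        rw [hei] at hx'
        have h4 := hdis _ _ x hx hx'
        rw [h4] at h2
        exact lt_irrefl _ h2
    · have hek : e k = nw sup f (d 0) (bel (M := M) (ltK lt) k) e
          (rr (the (fun ξ => Top lt k.1 ξ) ω₀)) := by
        rw [he k]
        change (if ∀ x, k.1.1 x = 0 then d k.2 else _) = _
        rw [if_neg h0]
      rw [hek] at hx
      refine hNEW hDEC hLAW M α (Kt M Ω) τ sup f hT hf hinj (d 0) _ e _ (hR k h0) ?_ i
        ((hmb k i).2 hi) x hx hx'
      intro i j x hi hj hxi hxj
      rcases hK.tri i j with h1 | h1 | h1
      · exact absurd hxi (hbl j ((hmb k j).1 hj) i h1 x hxj)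
      · exact h1
      · exact absurd hxj (hbl i ((hmb k i).1 hi) j h1 x hxi)
  -- the injection
  have hdJ : IntF M (fun x : Ω => dJ (M := M) x) := int_dJ
  refine hno (fun x => e ((dJ x, 0) : Kt M Ω)) (by (repeat' (first | with_reducible exact IntF.id | with_reducible exact IntF.fst' | with_reducible exact IntF.snd' | with_reducible exact IntF.const _ | with_reducible exact Int.const _ | assumption | with_reducible apply Int.and | with_reducible apply Int.or | with_reducible apply Int.not | with_reducible apply Int.imp | with_reducible apply Int.iff | with_reducible apply Int.ne | with_reducible apply Int.eq | with_reducible apply Int.mem | with_reducible apply Int.subset | with_reducible apply Int.ltN | with_reducible apply Int.leN | with_reducible apply Int.fin | with_reducible apply Int.unique | with_reducible apply Int.all | with_reducible apply Int.ex | with_reducible apply IntF.fst | with_reducible apply IntF.snd | with_reducible apply IntF.app | with_reducible apply IntF.ite | with_reducible apply IntF.sep | with_reducible apply IntF.lam | with_reducible apply IntF.insert | with_reducible apply IntF.singleton | with_reducible apply IntF.union | with_reducible apply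 IntF.inter | with_reducible apply IntF.sdiff | with_reducible apply IntF.isUnion | with_reducible apply IntF.iimage | with_reducible apply IntF.the | with_reducible apply IntF.irec | with_reducible_and_instances apply IntF.add | with_reducible_and_instances apply IntF.mul | with_reducible apply IntF.succ | with_reducible apply IntF.val | (with_reducible refine Int.comp ?_ ?_; assumption) | (with_reducible refine Int.comp₂ ?_ ?_ ?_; assumption) | (with_reducible refine Int.comp₃ ?_ ?_ ?_ ?_; assumption) | (with_reducible refine IntF.comp ?_ ?_; assumption) | (with_reducible refine IntF.comp₂ ?_ ?_ ?_; assumption) | (with_reducible refine Pool.Agent.Helper672.ZFA.IntF.comp₃ ?_ ?_ ?_ ?_; assumption) | with_reducible apply IntF.pair))) ?_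
  intro x y hxy
  have hxy' : e ((dJ x, 0) : Kt M Ω) = e ((dJ y, 0) : Kt M Ω) := hxy
  obtain ⟨z, hz⟩ := (e ((dJ x, 0) : Kt M Ω)).2.2
  have hz' := hz
  rw [hxy'] at hz'
  rcases hK.tri ((dJ x, 0) : Kt M Ω) ((dJ y, 0) : Kt M Ω) with h1 | h1 | h1
  · exact absurd hz (hdj _ _ h1 z hz')
  · exact dJ_inj (congrArg Prod.fst h1)
  · exact absurd hz' (hdj _ _ h1 z hz)

end Pool.Agent.Q222.ZE
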