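import Pool.Agent.Q222.ZE.Clo

/-!
# Project ZE: the injection of the 3-cycles into the partitions, and the combination
(jobs GI, FIN)
-/

set_option maxHeartbeats 400000
set_option linter.all false

namespace Pool.Agent.Q222.ZE

open FirstOrder FirstOrder.Language
open Pool.Agent.Helper672.ZFA
open Pool.Agent.H310
open Pool.Agent.Q212.ZA
open Pool.Agent.Q212.ZE
open Pool.Agent.Q212.ZD (IWO)

universe u

theorem cyc_false {N : Type u} [LinearOrder N] {A B C : N} (n1 : A ≠ B) (n2 : B ≠ C) (n3 : A ≠ C)
    (h : ((A < B ∧ B < C) ∨ (B < C ∧ C < A) ∨ (C < A ∧ A < B)) ↔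
      ((A < C ∧ C < B) ∨ (C < B ∧ B < A) ∨ (B < A ∧ A < C))) : False := by
  rcases lt_or_gt_of_ne n1 with p1 | p1 <;> rcases lt_or_gt_of_ne n2 with p2 | p2 <;>
    rcases lt_or_gt_of_ne n3 with p3 | p3 <;>
    simp [p1, not_lt_of_gt p1, p2, not_lt_of_gt p2, p3, not_lt_of_gt p3] at h

section

variable {M : Type u} [L.Structure M] [hM : IsModel M]
variable {α : Type u} [ITy M α]

theorem c3_three (g : C3 M α) {x : α} (hx : x ∈ sp g) :
    g.1 (g.1 (g.1 x)) = x ∧ g.1 x ≠ x ∧ g.1 (g.1 x) ≠ x := by
  obtain ⟨a, b, c, h1, h2, h3, h4, h5, h6, h7, h8⟩ := sp_cases g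
  rcases (h7 x).1 hx with rfl | rfl | rfl
  · rw [h4, h5, h6]; exact ⟨rfl, h1.symm, h3.symm⟩
  · rw [h5, h6, h4]; exact ⟨rfl, h2.symm, h1⟩
  · rw [h6, h4, h5]; exact ⟨rfl, h3, h2⟩

theorem c3_out (g : C3 M α) {x : α} (hx : ¬ x ∈ sp g) : g.1 x = x := by
  by_contra h
  exact hx (mem_sp.2 h)

variable (e : IFun M α (INat M)) (E : IPow M α)

/-- Positive 3-cycles. -/
def Pos (g : C3 M α) : Prop := ∃ x, g.1 x ≠ x ∧ e x < e (g.1 x) ∧ e (g.1 x) < e (g.1 (g.1 x))

theorem int_Pos : Int M (fun g : C3 M α => Pos e g) := by
  unfold Pos
  (repeat' (first | with_reducible exact IntF.id | with_reducible exact IntF.fst' | with_reducible exact IntF.snd' | with_reducible exact IntF.const _ | with_reducible exact Int.const _ | assumption | with_reducible apply Int.and | with_reducible apply Int.or | with_reducible apply Int.not | with_reducible apply Int.imp | with_reducible apply Int.iff | with_reducible apply Int.ne | with_reducible apply Int.eq | with_reducible apply Int.mem | with_reducible apply Int.subset | with_reducible apply Int.ltN | with_reducible apply Int.leN | with_reducible apply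 Int.fin | with_reducible apply Int.unique | with_reducible apply Int.all | with_reducible apply Int.ex | with_reducible apply IntF.fst | with_reducible apply IntF.snd | with_reducible apply IntF.app | with_reducible apply IntF.ite | with_reducible apply IntF.sep | with_reducible apply IntF.lam | with_reducible apply IntF.insert | with_reducible apply IntF.singleton | with_reducible apply IntF.union | with_reducible apply IntF.inter | with_reducible apply IntF.sdiff | with_reducible apply IntF.isUnion | with_reducible apply IntF.iimage | with_reducible apply IntF.the | with_reducible apply IntF.irec | with_reducible_and_instances apply IntF.add | with_reducible_and_instances apply IntF.mul | with_reducible apply IntF.succ | with_reducible apply IntF.val | (with_reducible refine Int.comp ?_ ?_; assumption) | (with_reducible refine Int.comp₂ ?_ ?_ ?_; assumption) | (with_reducible refine Int.comp₃ ?_ ?_ ?_ ?_; assumption) | (with_reducible refine IntF.comp ?_ ?_; assumption) | (with_reducible refine IntF.comp₂ ?_ ?_ ?_; assumption) | (with_reducible refine Pool.Agent.Helper672.ZFA.IntF.comp₃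 ?_ ?_ ?_ ?_; assumption) | with_reducible apply IntF.pair))

theorem pos_iff {g : C3 M α} {a b c : α} (hs : ∀ x, x ∈ sp g ↔ x = a ∨ x = b ∨ x = c)
    (h1 : g.1 a = b) (h2 : g.1 b = c) (h3 : g.1 c = a) :
    Pos e g ↔ (e a < e b ∧ e b < e c) ∨ (e b < e c ∧ e c < e a) ∨ (e c < e a ∧ e a < e b) := by
  constructor
  · rintro ⟨x, hx, hx', hx''⟩
    rcases (hs x).1 (mem_sp.2 hx) with rfl | rfl | rfl
    · rw [h1, h2] at hx''
      rw [h1] at hx'
      exact Or.inl ⟨hx', hx''⟩
    · rw [h2, h3] at hx''
      rw [h2] at hx'
      exact Or.inr (Or.inl ⟨hx', hx''⟩)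
    · rw [h3, h1] at hx''
      rw [h3] at hx'
      exact Or.inr (Or.inr ⟨hx', hx''⟩)
  · rintro (⟨k1, k2⟩ | ⟨k1, k2⟩ | ⟨k1, k2⟩)
    · refine ⟨a, mem_sp.1 ((hs a).2 (Or.inl rfl)), ?_, ?_⟩
      · rw [h1]; exact k1
      · rw [h1, h2]; exact k2
    · refine ⟨b, mem_sp.1 ((hs b).2 (Or.inr (Or.inl rfl))), ?_, ?_⟩
      · rw [h2]; exact k1
      · rw [h2, h3]; exact k2
    · refine ⟨c, mem_sp.1 ((hs c).2 (Or.inr (Or.inr rfl))), ?_, ?_⟩
      · rw [h3]; exact k1
      · rw [h3, h1]; exact k2

/-- The 3-cycle is determined by its support and its sign. -/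
theorem eq_of_pos (he : ∀ x y, x ∈ E → y ∈ E → e x = e y → x = y) {g g' : C3 M α}
    (hg : sp g ⊆ E) (hsp : ∀ x, x ∈ sp g ↔ x ∈ sp g') (hpos : Pos e g ↔ Pos e g') : g = g' := by
  obtain ⟨a, b, c, h1, h2, h3, h4, h5, h6, h7, h8⟩ := sp_cases g
  have ha : a ∈ sp g := (h7 a).2 (Or.inl rfl)
  have hb : b ∈ sp g := (h7 b).2 (Or.inr (Or.inl rfl))
  have hc : c ∈ sp g := (h7 c).2 (Or.inr (Or.inr rfl))
  have ha' := (hsp a).1 ha
  have hb' := (hsp b).1 hb
  have hc' := (hsp c).1 hc
  have h7' : ∀ x, x ∈ sp g' ↔ x = a ∨ x = b ∨ x = c := fun x => (hsp x).symm.trans (h7 x)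
  obtain ⟨t1, t2, t3⟩ := c3_three g' ha'
  have hext : g'.1 a = b → g'.1 b = c → g'.1 c = a → g = g' := by
    intro k1 k2 k3
    refine Subtype.ext (IFun.ext' fun x => ?_)
    by_cases hx : x ∈ sp g
    · rcases (h7 x).1 hx with rfl | rfl | rfl
      · rw [h4, k1]
      · rw [h5, k2]
      · rw [h6, k3]
    · rw [c3_out g hx, c3_out g' (fun h => hx ((hsp x).2 h))]
  rcases (h7' _).1 (sp_next ha') with k | k | k
  · exact absurd k t2
  · -- `g' a = b`
    rw [k] at t3 t1
    obtain ⟨s1, s2, s3⟩ := c3_three g' hb'
    rcases (h7' _).1 (sp_next hb') with l | l | l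
    · exact absurd l t3
    · exact absurd l s2
    · rw [l] at t1
      exact hext k l t1
  · -- `g' a = c`
    exfalso
    rw [k] at t3 t1
    obtain ⟨s1, s2, s3⟩ := c3_three g' hc'
    rcases (h7' _).1 (sp_next hc') with l | l | l
    · exact absurd l t3
    · rw [l] at t1
      have hs' : ∀ x, x ∈ sp g' ↔ x = a ∨ x = c ∨ x = b := by
        intro x
        rw [h7' x]
        constructor
        · rintro (h | h | h)
          · exact Or.inl h
          · exact Or.inr (Or.inr h)
          · exact Or.inr (Or.inl h)
        · rintro (h | h | h)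
          · exact Or.inl h
          · exact Or.inr (Or.inr h)
          · exact Or.inr (Or.inl h)
      rw [pos_iff e h7 h4 h5 h6, pos_iff e hs' k l t1] at hpos
      have n1 : e a ≠ e b := fun h => h1 (he _ _ (hg _ ha) (hg _ hb) h)
      have n2 : e b ≠ e c := fun h => h2 (he _ _ (hg _ hb) (hg _ hc) h)
      have n3 : e a ≠ e c := fun h => h3 (he _ _ (hg _ ha) (hg _ hc) h)
      exact cyc_false n1 n2 n3 hpos
    · exact absurd l s2

/-- The relation of the partition. -/
def RG (g : C3 M α) (x y : α) : Prop :=
  x = y ∨ (x ∈ sp g ∧ y ∈ sp g) ∨ (¬ Pos e g ∧ x ∈ E ∧ y ∈ E ∧ ¬ x ∈ sp g ∧ ¬ y ∈ sp g)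

theorem int_RG : Int M (fun q : (C3 M α × α) × α => RG e E q.1.1 q.1.2 q.2) := by
  have hsp : IntF M (fun g : C3 M α => sp g) := int_sp
  have hpos : Int M (fun g : C3 M α => Pos e g) := int_Pos e
  unfold RG
  (repeat' (first | with_reducible exact IntF.id | with_reducible exact IntF.fst' | with_reducible exact IntF.snd' | with_reducible exact IntF.const _ | with_reducible exact Int.const _ | assumption | with_reducible apply Int.and | with_reducible apply Int.or | with_reducible apply Int.not | with_reducible apply Int.imp | with_reducible apply Int.iff | with_reducible apply Int.ne | with_reducible apply Int.eq | with_reducible apply Int.mem | with_reducible apply Int.subset | with_reducible apply Int.ltN | with_reducible apply Int.leN | with_reducible apply Int.fin | with_reducible apply Int.unique | with_reducible apply Int.all | with_reducible apply Int.ex | with_reducible apply IntF.fst | with_reducible apply IntF.snd | with_reducible apply IntF.app | with_reducible apply IntF.ite | with_reducible apply IntF.sep | with_reducible apply IntF.lam | with_reducible apply IntF.insert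 | with_reducible apply IntF.singleton | with_reducible apply IntF.union | with_reducible apply IntF.inter | with_reducible apply IntF.sdiff | with_reducible apply IntF.isUnion | with_reducible apply IntF.iimage | with_reducible apply IntF.the | with_reducible apply IntF.irec | with_reducible_and_instances apply IntF.add | with_reducible_and_instances apply IntF.mul | with_reducible apply IntF.succ | with_reducible apply IntF.val | (with_reducible refine Int.comp ?_ ?_; assumption) | (with_reducible refine Int.comp₂ ?_ ?_ ?_; assumption) | (with_reducible refine Int.comp₃ ?_ ?_ ?_ ?_; assumption) | (with_reducible refine IntF.comp ?_ ?_; assumption) | (with_reducible refine IntF.comp₂ ?_ ?_ ?_; assumption) | (with_reducible refine Pool.Agent.Helper672.ZFA.IntF.comp₃ ?_ ?_ ?_ ?_; assumption) | with_reducible apply IntF.pair))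

theorem fin_sp (g : C3 M α) : IFin (sp g) := by
  obtain ⟨a, b, c, h1, h2, h3, h4, h5, h6, h7, h8⟩ := sp_cases g
  refine IFin.subset (((IFin.singleton c).insert b).insert a) fun x hx => ?_
  rw [mem_insert, mem_insert, mem_singleton]
  exact (h7 x).1 hx

/-- The partition. -/
noncomputable def GG (g : C3 M α) : IFr M α := mkR M (RG e E g)

theorem mem_GG (hE : IFin E) (g : C3 M α) (x y : α) : (x, y) ∈ (GG e E g).1 ↔ RG e E g x y := by
  have hsp : IntF M (fun g : C3 M α => sp g) := int_sp
  have hI : Int M (fun q : α × α => RG e E g q.1 q.2) := by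
    unfold RG
    (repeat' (first | with_reducible exact IntF.id | with_reducible exact IntF.fst' | with_reducible exact IntF.snd' | with_reducible exact IntF.const _ | with_reducible exact Int.const _ | assumption | with_reducible apply Int.and | with_reducible apply Int.or | with_reducible apply Int.not | with_reducible apply Int.imp | with_reducible apply Int.iff | with_reducible apply Int.ne | with_reducible apply Int.eq | with_reducible apply Int.mem | with_reducible apply Int.subset | with_reducible apply Int.ltN | with_reducible apply Int.leN | with_reducible apply Int.fin | with_reducible apply Int.unique | with_reducible apply Int.all | with_reducible apply Int.ex | with_reducible apply IntF.fst | with_reducible apply IntF.snd | with_reducible apply IntF.app | with_reducible apply IntF.ite | with_reducible apply IntF.sep | with_reducible apply IntF.lam | with_reducible apply IntF.insert | with_reducible apply IntF.singleton | with_reducible apply IntF.union | with_reducible apply IntF.inter | with_reducible apply IntF.sdiff | with_reducible apply IntF.isUnion | with_reducible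 apply IntF.iimage | with_reducible apply IntF.the | with_reducible apply IntF.irec | with_reducible_and_instances apply IntF.add | with_reducible_and_instances apply IntF.mul | with_reducible apply IntF.succ | with_reducible apply IntF.val | (with_reducible refine Int.comp ?_ ?_; assumption) | (with_reducible refine Int.comp₂ ?_ ?_ ?_; assumption) | (with_reducible refine Int.comp₃ ?_ ?_ ?_ ?_; assumption) | (with_reducible refine IntF.comp ?_ ?_; assumption) | (with_reducible refine IntF.comp₂ ?_ ?_ ?_; assumption) | (with_reducible refine Pool.Agent.Helper672.ZFA.IntF.comp₃ ?_ ?_ ?_ ?_; assumption) | with_reducible apply IntF.pair))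
  refine mkR_spec hI (fun a => Or.inl rfl) ?_ ?_ ?_ x y
  · rintro a b (h | ⟨h1, h2⟩ | ⟨h1, h2, h3, h4, h5⟩)
    · exact Or.inl h.symm
    · exact Or.inr (Or.inl ⟨h2, h1⟩)
    · exact Or.inr (Or.inr ⟨h1, h3, h2, h5, h4⟩)
  · rintro a b c (rfl | ⟨h1, h2⟩ | ⟨h1, h2, h3, h4, h5⟩) hbc
    · exact hbc
    · rcases hbc with rfl | ⟨k1, k2⟩ | ⟨k1, k2, k3, k4, k5⟩
      · exact Or.inr (Or.inl ⟨h1, h2⟩)
      · exact Or.inr (Or.inl ⟨h1, k2⟩)
      · exact absurd h2 k4
    · rcases hbc with rfl | ⟨k1, k2⟩ | ⟨k1, k2, k3, k4, k5⟩
      · exact Or.inr (Or.inr ⟨h1, h2, h3, h4, h5⟩)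
      · exact absurd k1 h5
      · exact Or.inr (Or.inr ⟨h1, h2, k3, h4, k5⟩)
  · intro a
    refine ⟨insert a (sp g ∪ E), ((fin_sp g).union hE).insert a, ?_⟩
    rintro b (h | ⟨h1, h2⟩ | ⟨h1, h2, h3, h4, h5⟩)
    · rw [mem_insert]; exact Or.inl h.symm
    · rw [mem_insert, mem_union]; exact Or.inr (Or.inl h2)
    · rw [mem_insert, mem_union]; exact Or.inr (Or.inr h3)

end

theorem t_GI : S_GI.{u} := by
  intro M _ _ α _ E hE w hw hwE
  classical
  obtain ⟨e, n, hBN⟩ := exists_BN hE
  have he : ∀ x y, x ∈ E → y ∈ E → e x = e y → x = y := by
    intro x y hx hy hxy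
    exact hBN.2.1 x y hx hy hxy
  have hnew : ∀ F : Finset α, F.card < 7 → ∃ i, ¬ w i ∈ F := by
    intro F hF
    by_contra hc
    push Not at hc
    have h1 : (Finset.univ.image w) ⊆ F := by
      intro x hx
      obtain ⟨i, -, rfl⟩ := Finset.mem_image.1 hx
      exact hc i
    have h2 := Finset.card_le_card h1
    rw [Finset.card_image_of_injective _ hw, Finset.card_univ, Fintype.card_fin] at h2
    omega
  refine ⟨GG e E, ?_, ?_, ?_⟩
  · exact IntF.mkR (R := RG e E) (int_RG e E)
  · intro g hg
    constructor
    · intro x y hxy
      rcases (mem_GG e E hE g x y).1 hxy with h | ⟨h1, h2⟩ | ⟨h1, h2, h3, h4, h5⟩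
      · exact Or.inl h
      · exact Or.inr ⟨hg x h1, hg y h2⟩
      · exact Or.inr ⟨h2, h3⟩
    · intro h
      obtain ⟨a, b, c, h1, h2, h3, h4, h5, h6, h7, h8⟩ := sp_cases g
      have h9 : (a, b) ∈ (GG e E g).1 := (mem_GG e E hE g a b).2
        (Or.inr (Or.inl ⟨(h7 a).2 (Or.inl rfl), (h7 b).2 (Or.inr (Or.inl rfl))⟩))
      rw [h] at h9
      have hI : Int M (fun q : α × α => q.1 = q.2) := by
        (repeat' (first | with_reducible exact IntF.id | with_reducible exact IntF.fst' | with_reducible exact IntF.snd' | with_reducible exact IntF.const _ | with_reducible exact Int.const _ | assumption | with_reducible apply Int.and | with_reducible apply Int.or | with_reducible apply Int.not | with_reducible apply Int.imp | with_reducible apply Int.iff | with_reducible apply Int.ne | with_reducible apply Int.eq | with_reducible apply Int.mem | with_reducible apply Int.subset | with_reducible apply Int.ltN | with_reducible apply Int.leN | with_reducible apply Int.fin | with_reducible apply Int.unique | with_reducible apply Int.all | with_reducible apply Int.ex | with_reducible apply IntF.fst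 | with_reducible apply IntF.snd | with_reducible apply IntF.app | with_reducible apply IntF.ite | with_reducible apply IntF.sep | with_reducible apply IntF.lam | with_reducible apply IntF.insert | with_reducible apply IntF.singleton | with_reducible apply IntF.union | with_reducible apply IntF.inter | with_reducible apply IntF.sdiff | with_reducible apply IntF.isUnion | with_reducible apply IntF.iimage | with_reducible apply IntF.the | with_reducible apply IntF.irec | with_reducible_and_instances apply IntF.add | with_reducible_and_instances apply IntF.mul | with_reducible apply IntF.succ | with_reducible apply IntF.val | (with_reducible refine Int.comp ?_ ?_; assumption) | (with_reducible refine Int.comp₂ ?_ ?_ ?_; assumption) | (with_reducible refine Int.comp₃ ?_ ?_ ?_ ?_; assumption) | (with_reducible refine IntF.comp ?_ ?_; assumption) | (with_reducible refine IntF.comp₂ ?_ ?_ ?_; assumption) | (with_reducible refine Pool.Agent.Helper672.ZFA.IntF.comp₃ ?_ ?_ ?_ ?_; assumption) | with_reducible apply IntF.pair))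
      exact h1 ((mem_sep hI).1 h9)
  · intro g g' hg hg' hGG
    have hR : ∀ x y, RG e E g x y ↔ RG e E g' x y := by
      intro x y
      rw [← mem_GG e E hE, ← mem_GG e E hE, hGG]
    obtain ⟨a, b, c, h1, h2, h3, h4, h5, h6, h7, h8⟩ := sp_cases g
    obtain ⟨a', b', c', h1', h2', h3', h4', h5', h6', h7', h8'⟩ := sp_cases g'
    -- the other elements of the support
    have hoth : ∀ (g : C3 M α) x, x ∈ sp g → g.1 x ∈ sp g ∧ g.1 x ≠ x := fun g x hx =>
      ⟨sp_next hx, mem_sp.1 hx⟩
    have hmix : ∀ g g' : C3 M α, sp g ⊆ E → sp g' ⊆ E → (∀ x y, RG e E g x y ↔ RG e E g' x y) →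
        Pos e g → ¬ Pos e g' → False := by
      intro g g' hg hg' hR hp hp'
      obtain ⟨a', b', c', h1', h2', h3', h4', h5', h6', h7', h8'⟩ := sp_cases g'
      obtain ⟨i, hi⟩ := hnew {a', b', c'} (by
        refine lt_of_le_of_lt (Finset.card_le_three) (by norm_num))
      obtain ⟨j, hj⟩ := hnew {a', b', c', w i} (by
        refine lt_of_le_of_lt (Finset.card_le_four) (by norm_num))
      simp only [Finset.mem_insert, Finset.mem_singleton] at hi hj
      push Not at hi hj
      have hi' : ¬ w i ∈ sp g' := by
        rw [h7']; push Not; exact hi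
      have hj' : ¬ w j ∈ sp g' := by
        rw [h7']; push Not; exact ⟨hj.1, hj.2.1, hj.2.2.1⟩
      have h9 : RG e E g (w i) (w j) := (hR _ _).2 (Or.inr (Or.inr ⟨hp', hwE i, hwE j, hi', hj'⟩))
      have h10 : w i ∈ sp g := by
        rcases h9 with h | h | h
        · exact absurd h.symm hj.2.2.2
        · exact h.1
        · exact absurd hp h.1
      have h11 : RG e E g a' b' := (hR _ _).2 (Or.inr (Or.inl ⟨(h7' a').2 (Or.inl rfl),
        (h7' b').2 (Or.inr (Or.inl rfl))⟩))
      have h12 : a' ∈ sp g := by
        rcases h11 with h | h | h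
        · exact absurd h h1'
        · exact h.1
        · exact absurd hp h.1
      have h13 : RG e E g' (w i) a' := (hR _ _).1 (Or.inr (Or.inl ⟨h10, h12⟩))
      rcases h13 with h | h | h
      · exact hi.1 h
      · exact hi' h.1
      · exact h.2.2.2.2 ((h7' a').2 (Or.inl rfl))
    have hpp : Pos e g ↔ Pos e g' := by
      by_cases hp : Pos e g
      · by_cases hp' : Pos e g'
        · exact ⟨fun _ => hp', fun _ => hp⟩
        · exact (hmix g g' hg hg' hR hp hp').elim
      · by_cases hp' : Pos e g'
        · exact (hmix g' g hg' hg (fun x y => (hR x y).symm) hp' hp).elim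
        · exact ⟨fun h => absurd h hp, fun h => absurd h hp'⟩
    have hsub : ∀ g g' : C3 M α, sp g ⊆ E → sp g' ⊆ E → (∀ x y, RG e E g x y ↔ RG e E g' x y) →
        (Pos e g ↔ Pos e g') → ∀ x, x ∈ sp g → x ∈ sp g' := by
      intro g g' hg hg' hR hpp x hx
      by_contra hx'
      by_cases hp : Pos e g
      · -- both positive
        obtain ⟨k1, k2⟩ := hoth g x hx
        rcases (hR x (g.1 x)).1 (Or.inr (Or.inl ⟨hx, k1⟩)) with h | h | h
        · exact k2 h.symm
        · exact hx' h.1
        · exact h.1 (hpp.1 hp)
      · have hp' : ¬ Pos e g' := fun h => hp (hpp.2 h)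
        -- all elements are in one of the supports
        have hall : ∀ y, y ∈ E → y ∈ sp g' ∨ y ∈ sp g := by
          intro y hy
          by_contra hcon
          push Not at hcon
          rcases (hR x y).2 (Or.inr (Or.inr ⟨hp', hg x hx, hy, hx', hcon.1⟩)) with h | h | h
          · rw [h] at hx
            exact hcon.2 hx
          · exact hcon.2 h.2
          · exact h.2.2.2.1 hx
        obtain ⟨a, b, c, h1, h2, h3, h4, h5, h6, h7, h8⟩ := sp_cases g
        obtain ⟨a', b', c', h1', h2', h3', h4', h5', h6', h7', h8'⟩ := sp_cases g'
        obtain ⟨i, hi⟩ := hnew {a, b, c, a', b', c'} (by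
          refine lt_of_le_of_lt (Finset.card_le_six) (by norm_num))
        simp only [Finset.mem_insert, Finset.mem_singleton] at hi
        push Not at hi
        rcases hall (w i) (hwE i) with h | h
        · rcases (h7' _).1 h with h | h | h
          · exact hi.2.2.2.1 h
          · exact hi.2.2.2.2.1 h
          · exact hi.2.2.2.2.2 h
        · rcases (h7 _).1 h with h | h | h
          · exact hi.1 h
          · exact hi.2.1 h
          · exact hi.2.2.1 h
    exact eq_of_pos e E he hg (fun x => ⟨hsub g g' hg hg' hR hpp x,
      hsub g' g hg' hg (fun x y => (hR x y).symm) hpp.symm x⟩) hpp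

theorem t_FIN : S_FIN'.{u} := by
  intro hCORE hFPP hCLO hTGC hPIG hGI M _ _ α _ hinf f hf hinj
  classical
  have hfinset : ∀ F : Finset α, FinP M (fun x : α => x ∈ F) := by
    intro F
    induction F using Finset.induction_on with
    | empty => exact ⟨∅, IFin.empty, fun x hx => absurd hx (Finset.notMem_empty x)⟩
    | insert a F _ ih =>
      refine ((FinP.eq a).or ih).mono fun x hx => ?_
      exact Finset.mem_insert.1 hx
  have hInf : Infinite α := by
    by_contra hc
    rw [not_infinite_iff_finite] at hc
    haveI := Fintype.ofFinite α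
    exact hinf ((hfinset Finset.univ).mono fun x _ => Finset.mem_univ x)
  obtain ⟨w, hw⟩ : ∃ w : Fin 7 → α, Function.Injective w :=
    ⟨fun i => Infinite.natEmbedding α i.1, fun i j h =>
      Fin.ext ((Infinite.natEmbedding α).injective h)⟩
  obtain ⟨E₀, hE₀, hw₀⟩ := hfinset (Finset.univ.image w)
  have hT := hTGC M α
  obtain ⟨E, hE, hEE, hcl⟩ := hCLO hCORE hFPP M α (C3 M α) (fun g : C3 M α => sp g) f hT hf hinj
    E₀ hE₀
  obtain ⟨G, hG, hG1, hG2⟩ := hGI M α E hE w hw
    (fun i => hEE _ (hw₀ _ (Finset.mem_image_of_mem w (Finset.mem_univ i))))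
  have hsp : IntF M (fun g : C3 M α => sp g) := int_sp
  have hp : Int M (fun g : C3 M α => sp g ⊆ E) := by
    (repeat' (first | with_reducible exact IntF.id | with_reducible exact IntF.fst' | with_reducible exact IntF.snd' | with_reducible exact IntF.const _ | with_reducible exact Int.const _ | assumption | with_reducible apply Int.and | with_reducible apply Int.or | with_reducible apply Int.not | with_reducible apply Int.imp | with_reducible apply Int.iff | with_reducible apply Int.ne | with_reducible apply Int.eq | with_reducible apply Int.mem | with_reducible apply Int.subset | with_reducible apply Int.ltN | with_reducible apply Int.leN | with_reducible apply Int.fin | with_reducible apply Int.unique | with_reducible apply Int.all | with_reducible apply Int.ex | with_reducible apply IntF.fst | with_reducible apply IntF.snd | with_reducible apply IntF.app | with_reducible apply IntF.ite | with_reducible apply IntF.sep | with_reducible apply IntF.lam | with_reducible apply IntF.insert | with_reducible apply IntF.singleton | with_reducible apply IntF.union | with_reducible apply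 IntF.inter | with_reducible apply IntF.sdiff | with_reducible apply IntF.isUnion | with_reducible apply IntF.iimage | with_reducible apply IntF.the | with_reducible apply IntF.irec | with_reducible_and_instances apply IntF.add | with_reducible_and_instances apply IntF.mul | with_reducible apply IntF.succ | with_reducible apply IntF.val | (with_reducible refine Int.comp ?_ ?_; assumption) | (with_reducible refine Int.comp₂ ?_ ?_ ?_; assumption) | (with_reducible refine Int.comp₃ ?_ ?_ ?_ ?_; assumption) | (with_reducible refine IntF.comp ?_ ?_; assumption) | (with_reducible refine IntF.comp₂ ?_ ?_ ?_; assumption) | (with_reducible refine Pool.Agent.Helper672.ZFA.IntF.comp₃ ?_ ?_ ?_ ?_; assumption) | with_reducible apply IntF.pair))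
  have hs : IFin (sep M fun g : C3 M α => sp g ⊆ E) := (hT.fib E hE).fin hp
  have hid : ∀ x y : α, (x, y) ∈ (idR M α).1 → x = y := by
    intro x y h
    have hI : Int M (fun q : α × α => q.1 = q.2) := by
      (repeat' (first | with_reducible exact IntF.id | with_reducible exact IntF.fst' | with_reducible exact IntF.snd' | with_reducible exact IntF.const _ | with_reducible exact Int.const _ | assumption | with_reducible apply Int.and | with_reducible apply Int.or | with_reducible apply Int.not | with_reducible apply Int.imp | with_reducible apply Int.iff | with_reducible apply Int.ne | with_reducible apply Int.eq | with_reducible apply Int.mem | with_reducible apply Int.subset | with_reducible apply Int.ltN | with_reducible apply Int.leN | with_reducible apply Int.fin | with_reducible apply Int.unique | with_reducible apply Int.all | with_reducible apply Int.ex | with_reducible apply IntF.fst | with_reducible apply IntF.snd | with_reducible apply IntF.app | with_reducible apply IntF.ite | with_reducible apply IntF.sep | with_reducible apply IntF.lam | with_reducible apply IntF.insert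 | with_reducible apply IntF.singleton | with_reducible apply IntF.union | with_reducible apply IntF.inter | with_reducible apply IntF.sdiff | with_reducible apply IntF.isUnion | with_reducible apply IntF.iimage | with_reducible apply IntF.the | with_reducible apply IntF.irec | with_reducible_and_instances apply IntF.add | with_reducible_and_instances apply IntF.mul | with_reducible apply IntF.succ | with_reducible apply IntF.val | (with_reducible refine Int.comp ?_ ?_; assumption) | (with_reducible refine Int.comp₂ ?_ ?_ ?_; assumption) | (with_reducible refine Int.comp₃ ?_ ?_ ?_ ?_; assumption) | (with_reducible refine IntF.comp ?_ ?_; assumption) | (with_reducible refine IntF.comp₂ ?_ ?_ ?_; assumption) | (with_reducible refine Pool.Agent.Helper672.ZFA.IntF.comp₃ ?_ ?_ ?_ ?_; assumption) | with_reducible apply IntF.pair))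
    exact (mem_sep hI).1 h
  obtain ⟨g, hg, hg'⟩ := hPIG M (C3 M α) _ hs (fun g => f (G g)) (IntF.comp hf hG) (by
      intro g hg
      rw [mem_sep hp] at hg ⊢
      exact hcl (G g) (hG1 g hg).1) (by
      intro g g' hg hg' h
      rw [mem_sep hp] at hg hg'
      exact hG2 g g' hg hg' (hinj _ _ h)) (f (idR M α)) (by
      rw [mem_sep hp]
      exact hcl (idR M α) (fun x y hxy => Or.inl (hid x y hxy)))
  rw [mem_sep hp] at hg
  exact (hG1 g hg).2 (hinj _ _ hg')

end Pool.Agent.Q222.ZE
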