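import Pool.Agent.Q222.ZE.Har
import Pool.Agent.Q222.ZE.Core
import Pool.Agent.Q222.ZE.Gi
import Pool.Agent.Q212.ZE.Asm

/-! Project ZE: all jobs. -/

namespace Pool.Agent.Q222.ZE

open Pool.Agent.Q212.ZE

universe u

theorem all_jobs : S_FIN.{u} :=
  asm t_H1 t_H2 t_HAR t_REC t_JWO t_KWO t_RR t_DEC t_LAW t_INW t_NEW t_LOC t_CORE t_FPP t_CLO
    t_TGC t_PIG t_GI t_FIN

end Pool.Agent.Q222.ZE
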