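import Pool.Agent.Q222.ZE.Ord

/-!
# Project ZE: Hartogs numbers (job HAR)
-/

set_option maxHeartbeats 400000
set_option linter.all false

namespace Pool.Agent.Q222.ZE

open FirstOrder FirstOrder.Language
open Pool.Agent.Helper672.ZFA
open Pool.Agent.H310
open Pool.Agent.Q212.ZA
open Pool.Agent.Q212.ZE
open Pool.Agent.Q212.ZD (IWO)

universe u

section

variable {M : Type u} [L.Structure M] [hM : IsModel M]
variable {σ : Type u} [ITy M σ]

variable (M σ) in
/-- Isomorphism of well-orders. -/
@[reducible] def woS : Setoid (WO M σ) where
  r R S := ∃ f, Iso R.1 S.1 f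
  iseqv := ⟨fun R => iso_refl R.2, fun ⟨f, h⟩ => iso_symm h, fun ⟨f, h⟩ ⟨g, h'⟩ => iso_comp h h'⟩

theorem int_woS : Int M (fun q : WO M σ × WO M σ => (woS M σ).r q.1 q.2) := by
  have hi : Int M (fun q : (IPow M (σ × σ) × IPow M (σ × σ)) × IPow M (σ × σ) =>
    Iso q.1.1 q.1.2 q.2) := int_Iso
  have h : Int M (fun q : WO M σ × WO M σ => ∃ f, Iso q.1.1 q.2.1 f) := by
    (repeat' (first | with_reducible exact IntF.id | with_reducible exact IntF.fst' | with_reducible exact IntF.snd' | with_reducible exact IntF.const _ | with_reducible exact Int.const _ | assumption | with_reducible apply Int.and | with_reducible apply Int.or | with_reducible apply Int.not | with_reducible apply Int.imp | with_reducible apply Int.iff | with_reducible apply Int.ne | with_reducible apply Int.eq | with_reducible apply Int.mem | with_reducible apply Int.subset | with_reducible apply Int.ltN | with_reducible apply Int.leN | with_reducible apply Int.fin | with_reducible apply Int.unique | with_reducible apply Int.all | with_reducible apply Int.ex | with_reducible apply IntF.fst | with_reducible apply IntF.snd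 | with_reducible apply IntF.app | with_reducible apply IntF.ite | with_reducible apply IntF.sep | with_reducible apply IntF.lam | with_reducible apply IntF.insert | with_reducible apply IntF.singleton | with_reducible apply IntF.union | with_reducible apply IntF.inter | with_reducible apply IntF.sdiff | with_reducible apply IntF.isUnion | with_reducible apply IntF.iimage | with_reducible apply IntF.the | with_reducible apply IntF.irec | with_reducible_and_instances apply IntF.add | with_reducible_and_instances apply IntF.mul | with_reducible apply IntF.succ | with_reducible apply IntF.val | (with_reducible refine Int.comp ?_ ?_; assumption) | (with_reducible refine Int.comp₂ ?_ ?_ ?_; assumption) | (with_reducible refine Int.comp₃ ?_ ?_ ?_ ?_; assumption) | (with_reducible refine IntF.comp ?_ ?_; assumption) | (with_reducible refine IntF.comp₂ ?_ ?_ ?_; assumption) | (with_reducible refine IntF.comp₃ ?_ ?_ ?_ ?_; assumption) | with_reducible apply IntF.pair))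
  exact h

instance instFactWoS : Fact (Int M (fun q : WO M σ × WO M σ => (woS M σ).r q.1 q.2)) := ⟨int_woS⟩

variable {Ω : Type u} [ITy M Ω] {π : WO M σ → Ω}

/-- The order. -/
def ltO (π : WO M σ → Ω) (a b : Ω) : Prop := ∃ R S : WO M σ, π R = a ∧ π S = b ∧
  ∃ x, (x, x) ∈ S.1 ∧ ∃ f, Iso R.1 (rst S.1 x) f

theorem int_ltO (hπ : IntF M π) : Int M (fun q : Ω × Ω => ltO π q.1 q.2) := by
  have hi : Int M (fun q : (IPow M (σ × σ) × IPow M (σ × σ)) × IPow M (σ × σ) =>
    Iso q.1.1 q.1.2 q.2) := int_Iso
  have hr : IntF M (fun q : IPow M (σ × σ) × σ => rst q.1 q.2) := int_rst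
  unfold ltO
  (repeat' (first | with_reducible exact IntF.id | with_reducible exact IntF.fst' | with_reducible exact IntF.snd' | with_reducible exact IntF.const _ | with_reducible exact Int.const _ | assumption | with_reducible apply Int.and | with_reducible apply Int.or | with_reducible apply Int.not | with_reducible apply Int.imp | with_reducible apply Int.iff | with_reducible apply Int.ne | with_reducible apply Int.eq | with_reducible apply Int.mem | with_reducible apply Int.subset | with_reducible apply Int.ltN | with_reducible apply Int.leN | with_reducible apply Int.fin | with_reducible apply Int.unique | with_reducible apply Int.all | with_reducible apply Int.ex | with_reducible apply IntF.fst | with_reducible apply IntF.snd | with_reducible apply IntF.app | with_reducible apply IntF.ite | with_reducible apply IntF.sep | with_reducible apply IntF.lam | with_reducible apply IntF.insert | with_reducible apply IntF.singleton | with_reducible apply IntF.union | with_reducible apply IntF.inter | with_reducible apply IntF.sdiff | with_reducible apply IntF.isUnion | with_reducible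 apply IntF.iimage | with_reducible apply IntF.the | with_reducible apply IntF.irec | with_reducible_and_instances apply IntF.add | with_reducible_and_instances apply IntF.mul | with_reducible apply IntF.succ | with_reducible apply IntF.val | (with_reducible refine Int.comp ?_ ?_; assumption) | (with_reducible refine Int.comp₂ ?_ ?_ ?_; assumption) | (with_reducible refine Int.comp₃ ?_ ?_ ?_ ?_; assumption) | (with_reducible refine IntF.comp ?_ ?_; assumption) | (with_reducible refine IntF.comp₂ ?_ ?_ ?_; assumption) | (with_reducible refine IntF.comp₃ ?_ ?_ ?_ ?_; assumption) | with_reducible apply IntF.pair))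

variable (hs : Function.Surjective π) (hk : ∀ R S : WO M σ, π R = π S ↔ ∃ f, Iso R.1 S.1 f)

include hk

theorem ltO_mk {R S : WO M σ} : ltO π (π R) (π S) ↔ ∃ x, (x, x) ∈ S.1 ∧ ∃ f, Iso R.1 (rst S.1 x) f := by
  constructor
  · rintro ⟨R', S', h1, h2, x', hx', f, hf⟩
    obtain ⟨g, hg⟩ := (hk R R').1 h1.symm
    obtain ⟨k, hkk⟩ := (hk S' S).1 h2
    obtain ⟨x, hx⟩ := hkk.2.1 x' hx'
    obtain ⟨k', hk'⟩ := iso_rst S'.2 S.2 hkk hx
    obtain ⟨l, hl⟩ := iso_comp hg hf
    exact ⟨x, (hkk.1 x' x hx).2, iso_comp hl hk'⟩
  · intro h
    exact ⟨R, S, rfl, rfl, h⟩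

theorem ltO_irr (hs : Function.Surjective π) (h1 : S_H1.{u}) (a : Ω) : ¬ ltO π a a := by
  obtain ⟨R, rfl⟩ := hs a
  rw [ltO_mk hk]
  rintro ⟨x, hx, f, hf⟩
  exact h1 M σ R.1 f x R.2 hx hf

theorem ltO_tr (hs : Function.Surjective π) (a b c : Ω) (hab : ltO π a b) (hbc : ltO π b c) :
    ltO π a c := by
  obtain ⟨R, rfl⟩ := hs a
  obtain ⟨S, rfl⟩ := hs b
  obtain ⟨T, rfl⟩ := hs c
  rw [ltO_mk hk] at hab hbc ⊢
  obtain ⟨x, hx, f, hf⟩ := hab
  obtain ⟨y, hy, g, hg⟩ := hbc
  obtain ⟨z, hz⟩ := hg.2.1 x hx
  obtain ⟨k1, k2, k3, -⟩ := mem_rst.1 (hg.1 x z hz).2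
  obtain ⟨l, hl⟩ := iso_rst S.2 (isW_rst T.2 y) hg hz
  rw [rst_rst T.2 k2 k3] at hl
  exact ⟨z, k1, iso_comp hf hl⟩

theorem ltO_tri (hs : Function.Surjective π) (h2 : S_H2.{u}) (a b : Ω) :
    ltO π a b ∨ a = b ∨ ltO π b a := by
  obtain ⟨R, rfl⟩ := hs a
  obtain ⟨S, rfl⟩ := hs b
  rw [ltO_mk hk, ltO_mk hk, hk]
  rcases h2 M σ R.1 S.1 R.2 S.2 with h | ⟨f, y, hy, h⟩ | ⟨f, x, hx, h⟩
  · exact Or.inr (Or.inl h)
  · exact Or.inl ⟨y, hy, f, h⟩
  · exact Or.inr (Or.inr ⟨x, hx, iso_symm h⟩)

theorem ltO_min (hs : Function.Surjective π) (hπ : IntF M π) (p : Ω → Prop) (hp : Int M p)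
    (hne : ∃ a, p a) : ∃ a, p a ∧ ∀ b, p b → ¬ ltO π b a := by
  obtain ⟨a, ha⟩ := hne
  obtain ⟨R, rfl⟩ := hs a
  have hr : IntF M (fun q : IPow M (σ × σ) × σ => rst q.1 q.2) := int_rst
  have hr' : IntF M (fun x : σ => rst R.1 x) := by
    (repeat' (first | with_reducible exact IntF.id | with_reducible exact IntF.fst' | with_reducible exact IntF.snd' | with_reducible exact IntF.const _ | with_reducible exact Int.const _ | assumption | with_reducible apply Int.and | with_reducible apply Int.or | with_reducible apply Int.not | with_reducible apply Int.imp | with_reducible apply Int.iff | with_reducible apply Int.ne | with_reducible apply Int.eq | with_reducible apply Int.mem | with_reducible apply Int.subset | with_reducible apply Int.ltN | with_reducible apply Int.leN | with_reducible apply Int.fin | with_reducible apply Int.unique | with_reducible apply Int.all | with_reducible apply Int.ex | with_reducible apply IntF.fst | with_reducible apply IntF.snd | with_reducible apply IntF.app | with_reducible apply IntF.ite | with_reducible apply IntF.sep | with_reducible apply IntF.lam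 | with_reducible apply IntF.insert | with_reducible apply IntF.singleton | with_reducible apply IntF.union | with_reducible apply IntF.inter | with_reducible apply IntF.sdiff | with_reducible apply IntF.isUnion | with_reducible apply IntF.iimage | with_reducible apply IntF.the | with_reducible apply IntF.irec | with_reducible_and_instances apply IntF.add | with_reducible_and_instances apply IntF.mul | with_reducible apply IntF.succ | with_reducible apply IntF.val | (with_reducible refine Int.comp ?_ ?_; assumption) | (with_reducible refine Int.comp₂ ?_ ?_ ?_; assumption) | (with_reducible refine Int.comp₃ ?_ ?_ ?_ ?_; assumption) | (with_reducible refine IntF.comp ?_ ?_; assumption) | (with_reducible refine IntF.comp₂ ?_ ?_ ?_; assumption) | (with_reducible refine IntF.comp₃ ?_ ?_ ?_ ?_; assumption) | with_reducible apply IntF.pair))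
  have hq : IntF M (fun x : σ => (⟨rst R.1 x, isW_rst R.2 x⟩ : WO M σ)) := IntF.mk hr'
  have hI : Int M (fun x : σ => (x, x) ∈ R.1 ∧ p (π ⟨rst R.1 x, isW_rst R.2 x⟩)) :=
    Int.and (by (repeat' (first | with_reducible exact IntF.id | with_reducible exact IntF.fst' | with_reducible exact IntF.snd' | with_reducible exact IntF.const _ | with_reducible exact Int.const _ | assumption | with_reducible apply Int.and | with_reducible apply Int.or | with_reducible apply Int.not | with_reducible apply Int.imp | with_reducible apply Int.iff | with_reducible apply Int.ne | with_reducible apply Int.eq | with_reducible apply Int.mem | with_reducible apply Int.subset | with_reducible apply Int.ltN | with_reducible apply Int.leN | with_reducible apply Int.fin | with_reducible apply Int.unique | with_reducible apply Int.all | with_reducible apply Int.ex | with_reducible apply IntF.fst | with_reducible apply IntF.snd | with_reducible apply IntF.app | with_reducible apply IntF.ite | with_reducible apply IntF.sep | with_reducible apply IntF.lam | with_reducible apply IntF.insert | with_reducible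 apply IntF.singleton | with_reducible apply IntF.union | with_reducible apply IntF.inter | with_reducible apply IntF.sdiff | with_reducible apply IntF.isUnion | with_reducible apply IntF.iimage | with_reducible apply IntF.the | with_reducible apply IntF.irec | with_reducible_and_instances apply IntF.add | with_reducible_and_instances apply IntF.mul | with_reducible apply IntF.succ | with_reducible apply IntF.val | (with_reducible refine Int.comp ?_ ?_; assumption) | (with_reducible refine Int.comp₂ ?_ ?_ ?_; assumption) | (with_reducible refine Int.comp₃ ?_ ?_ ?_ ?_; assumption) | (with_reducible refine IntF.comp ?_ ?_; assumption) | (with_reducible refine IntF.comp₂ ?_ ?_ ?_; assumption) | (with_reducible refine IntF.comp₃ ?_ ?_ ?_ ?_; assumption) | with_reducible apply IntF.pair))) (Int.comp hp (IntF.comp hπ hq))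
  by_cases h : ∃ x, (x, x) ∈ R.1 ∧ p (π ⟨rst R.1 x, isW_rst R.2 x⟩)
  · obtain ⟨x, hx⟩ := h
    obtain ⟨y, hy, hy', hy''⟩ := R.2.2.2.2.2 (sep M fun x => (x, x) ∈ R.1 ∧
      p (π ⟨rst R.1 x, isW_rst R.2 x⟩)) ⟨x, (mem_sep hI).2 hx, hx.1⟩
    obtain ⟨k1, k2⟩ := (mem_sep hI).1 hy
    refine ⟨_, k2, fun b hb hlt => ?_⟩
    obtain ⟨S, rfl⟩ := hs b
    obtain ⟨z, hz, f, hf⟩ := (ltO_mk hk).1 hlt
    obtain ⟨l1, l2, l3, -⟩ := mem_rst.1 hz
    have hf2 : Iso S.1 (rst (rst R.1 y) z) f := hf
    rw [rst_rst R.2 l2 l3] at hf2
    have h3 : π S = π ⟨rst R.1 z, isW_rst R.2 z⟩ := (hk _ _).2 ⟨f, hf2⟩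
    rw [h3] at hb
    have h4 := hy'' z ((mem_sep hI).2 ⟨l1, hb⟩) l1
    exact l3 (R.2.2.1 _ _ l2 h4)
  · refine ⟨_, ha, fun b hb hlt => ?_⟩
    obtain ⟨S, rfl⟩ := hs b
    obtain ⟨z, hz, f, hf⟩ := (ltO_mk hk).1 hlt
    have h3 : π S = π ⟨rst R.1 z, isW_rst R.2 z⟩ := (hk _ _).2 ⟨f, hf⟩
    rw [h3] at hb
    exact h ⟨z, hz, hb⟩

/-- No injection. -/
theorem ltO_inj (hs : Function.Surjective π) (hπ : IntF M π) (h1 : S_H1.{u}) (h2 : S_H2.{u})
    (g : Ω → σ) (hg : IntF M g) (hinj : Function.Injective g) : False := by
  have hlt : Int M (fun q : Ω × Ω => ltO π q.1 q.2) := int_ltO hπ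
  have hirr := ltO_irr hk hs h1
  have htr := ltO_tr hk hs
  have htri := ltO_tri hk hs h2
  have hmin := ltO_min hk hs hπ
  have hI : Int M (fun q : σ × σ => ∃ a b, q.1 = g a ∧ q.2 = g b ∧ (ltO π a b ∨ a = b)) := by
    (repeat' (first | with_reducible exact IntF.id | with_reducible exact IntF.fst' | with_reducible exact IntF.snd' | with_reducible exact IntF.const _ | with_reducible exact Int.const _ | assumption | with_reducible apply Int.and | with_reducible apply Int.or | with_reducible apply Int.not | with_reducible apply Int.imp | with_reducible apply Int.iff | with_reducible apply Int.ne | with_reducible apply Int.eq | with_reducible apply Int.mem | with_reducible apply Int.subset | with_reducible apply Int.ltN | with_reducible apply Int.leN | with_reducible apply Int.fin | with_reducible apply Int.unique | with_reducible apply Int.all | with_reducible apply Int.ex | with_reducible apply IntF.fst | with_reducible apply IntF.snd | with_reducible apply IntF.app | with_reducible apply IntF.ite | with_reducible apply IntF.sep | with_reducible apply IntF.lam | with_reducible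 apply IntF.insert | with_reducible apply IntF.singleton | with_reducible apply IntF.union | with_reducible apply IntF.inter | with_reducible apply IntF.sdiff | with_reducible apply IntF.isUnion | with_reducible apply IntF.iimage | with_reducible apply IntF.the | with_reducible apply IntF.irec | with_reducible_and_instances apply IntF.add | with_reducible_and_instances apply IntF.mul | with_reducible apply IntF.succ | with_reducible apply IntF.val | (with_reducible refine Int.comp ?_ ?_; assumption) | (with_reducible refine Int.comp₂ ?_ ?_ ?_; assumption) | (with_reducible refine Int.comp₃ ?_ ?_ ?_ ?_; assumption) | (with_reducible refine IntF.comp ?_ ?_; assumption) | (with_reducible refine IntF.comp₂ ?_ ?_ ?_; assumption) | (with_reducible refine IntF.comp₃ ?_ ?_ ?_ ?_; assumption) | with_reducible apply IntF.pair))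
  obtain ⟨W, hW⟩ : ∃ W : IPow M (σ × σ), ∀ x y, (x, y) ∈ W ↔
      ∃ a b, x = g a ∧ y = g b ∧ (ltO π a b ∨ a = b) := ⟨_, fun x y => mem_sep hI⟩
  have hW' : ∀ a b, (g a, g b) ∈ W ↔ (ltO π a b ∨ a = b) := by
    intro a b
    rw [hW]
    constructor
    · rintro ⟨a', b', h3, h4, h5⟩
      rw [hinj h3, hinj h4]
      exact h5
    · intro h
      exact ⟨a, b, rfl, rfl, h⟩
  have hfld : ∀ x, (x, x) ∈ W → ∃ a, x = g a := by
    intro x hx
    obtain ⟨a, b, h3, -⟩ := (hW x x).1 hx
    exact ⟨a, h3⟩
  have hWW : IsW W := by
    refine ⟨?_, ?_, ?_, ?_, ?_⟩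
    · intro x y hxy
      obtain ⟨a, b, rfl, rfl, -⟩ := (hW x y).1 hxy
      exact ⟨(hW' a a).2 (Or.inr rfl), (hW' b b).2 (Or.inr rfl)⟩
    · intro x y hxy hyx
      obtain ⟨a, b, rfl, rfl, h3⟩ := (hW x y).1 hxy
      rcases h3 with h3 | rfl
      · rcases (hW' b a).1 hyx with h4 | rfl
        · exact absurd (htr _ _ _ h3 h4) (hirr _)
        · rfl
      · rfl
    · intro x y z hxy hyz
      obtain ⟨a, b, rfl, rfl, h3⟩ := (hW x y).1 hxy
      obtain ⟨b', c, h5, rfl, h4⟩ := (hW (g b) z).1 hyz
      have h6 := hinj h5
      subst h6
      refine (hW' a c).2 ?_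
      rcases h3 with h3 | rfl
      · rcases h4 with h4 | rfl
        · exact Or.inl (htr _ _ _ h3 h4)
        · exact Or.inl h3
      · exact h4
    · intro x y hx hy
      obtain ⟨a, rfl⟩ := hfld x hx
      obtain ⟨b, rfl⟩ := hfld y hy
      rw [hW', hW']
      rcases htri a b with h | rfl | h
      · exact Or.inl (Or.inl h)
      · exact Or.inl (Or.inr rfl)
      · exact Or.inr (Or.inl h)
    · rintro s ⟨x, hx, hx'⟩
      obtain ⟨a, rfl⟩ := hfld x hx'
      have hJ : Int M (fun a : Ω => g a ∈ s) := by
        (repeat' (first | with_reducible exact IntF.id | with_reducible exact IntF.fst' | with_reducible exact IntF.snd' | with_reducible exact IntF.const _ | with_reducible exact Int.const _ | assumption | with_reducible apply Int.and | with_reducible apply Int.or | with_reducible apply Int.not | with_reducible apply Int.imp | with_reducible apply Int.iff | with_reducible apply Int.ne | with_reducible apply Int.eq | with_reducible apply Int.mem | with_reducible apply Int.subset | with_reducible apply Int.ltN | with_reducible apply Int.leN | with_reducible apply Int.fin | with_reducible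 apply Int.unique | with_reducible apply Int.all | with_reducible apply Int.ex | with_reducible apply IntF.fst | with_reducible apply IntF.snd | with_reducible apply IntF.app | with_reducible apply IntF.ite | with_reducible apply IntF.sep | with_reducible apply IntF.lam | with_reducible apply IntF.insert | with_reducible apply IntF.singleton | with_reducible apply IntF.union | with_reducible apply IntF.inter | with_reducible apply IntF.sdiff | with_reducible apply IntF.isUnion | with_reducible apply IntF.iimage | with_reducible apply IntF.the | with_reducible apply IntF.irec | with_reducible_and_instances apply IntF.add | with_reducible_and_instances apply IntF.mul | with_reducible apply IntF.succ | with_reducible apply IntF.val | (with_reducible refine Int.comp ?_ ?_; assumption) | (with_reducible refine Int.comp₂ ?_ ?_ ?_; assumption) | (with_reducible refine Int.comp₃ ?_ ?_ ?_ ?_; assumption) | (with_reducible refine IntF.comp ?_ ?_; assumption) | (with_reducible refine IntF.comp₂ ?_ ?_ ?_; assumption) | (with_reducible refine IntF.comp₃ ?_ ?_ ?_ ?_; assumption) | with_reducible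 apply IntF.pair))
      obtain ⟨b, hb, hb'⟩ := hmin (fun a => g a ∈ s) hJ ⟨a, hx⟩
      refine ⟨g b, hb, (hW' b b).2 (Or.inr rfl), fun y hy hy' => ?_⟩
      obtain ⟨c, rfl⟩ := hfld y hy'
      rw [hW']
      rcases htri b c with h | rfl | h
      · exact Or.inl h
      · exact Or.inr rfl
      · exact absurd h (hb' c hy)
  -- the isomorphism
  obtain ⟨a, ha⟩ : ∃ a : Ω, a = π ⟨W, hWW⟩ := ⟨_, rfl⟩
  have hcl : ∀ S : WO M σ, ∃ k, Iso S.1 (rst W (g (π S))) k := by
    intro S
    have hr : IntF M (fun q : IPow M (σ × σ) × σ => rst q.1 q.2) := int_rst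
    have hr' : IntF M (fun x : σ => rst S.1 x) := by
      (repeat' (first | with_reducible exact IntF.id | with_reducible exact IntF.fst' | with_reducible exact IntF.snd' | with_reducible exact IntF.const _ | with_reducible exact Int.const _ | assumption | with_reducible apply Int.and | with_reducible apply Int.or | with_reducible apply Int.not | with_reducible apply Int.imp | with_reducible apply Int.iff | with_reducible apply Int.ne | with_reducible apply Int.eq | with_reducible apply Int.mem | with_reducible apply Int.subset | with_reducible apply Int.ltN | with_reducible apply Int.leN | with_reducible apply Int.fin | with_reducible apply Int.unique | with_reducible apply Int.all | with_reducible apply Int.ex | with_reducible apply IntF.fst | with_reducible apply IntF.snd | with_reducible apply IntF.app | with_reducible apply IntF.ite | with_reducible apply IntF.sep | with_reducible apply IntF.lam | with_reducible apply IntF.insert | with_reducible apply IntF.singleton | with_reducible apply IntF.union | with_reducible apply IntF.inter | with_reducible apply IntF.sdiff | with_reducible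 apply IntF.isUnion | with_reducible apply IntF.iimage | with_reducible apply IntF.the | with_reducible apply IntF.irec | with_reducible_and_instances apply IntF.add | with_reducible_and_instances apply IntF.mul | with_reducible apply IntF.succ | with_reducible apply IntF.val | (with_reducible refine Int.comp ?_ ?_; assumption) | (with_reducible refine Int.comp₂ ?_ ?_ ?_; assumption) | (with_reducible refine Int.comp₃ ?_ ?_ ?_ ?_; assumption) | (with_reducible refine IntF.comp ?_ ?_; assumption) | (with_reducible refine IntF.comp₂ ?_ ?_ ?_; assumption) | (with_reducible refine IntF.comp₃ ?_ ?_ ?_ ?_; assumption) | with_reducible apply IntF.pair))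
    have hq : IntF M (fun x : σ => (⟨rst S.1 x, isW_rst S.2 x⟩ : WO M σ)) := IntF.mk hr'
    have hq' : IntF M (fun x : σ => g (π ⟨rst S.1 x, isW_rst S.2 x⟩)) :=
      IntF.comp hg (IntF.comp hπ hq)
    obtain ⟨h, hh⟩ : ∃ h : σ → σ, h = fun x : σ => g (π ⟨rst S.1 x, isW_rst S.2 x⟩) := ⟨_, rfl⟩
    rw [← hh] at hq'
    have hK : Int M (fun q : σ × σ => (q.1, q.1) ∈ S.1 ∧ q.2 = h q.1) := by
      (repeat' (first | with_reducible exact IntF.id | with_reducible exact IntF.fst' | with_reducible exact IntF.snd' | with_reducible exact IntF.const _ | with_reducible exact Int.const _ | assumption | with_reducible apply Int.and | with_reducible apply Int.or | with_reducible apply Int.not | with_reducible apply Int.imp | with_reducible apply Int.iff | with_reducible apply Int.ne | with_reducible apply Int.eq | with_reducible apply Int.mem | with_reducible apply Int.subset | with_reducible apply Int.ltN | with_reducible apply Int.leN | with_reducible apply Int.fin | with_reducible apply Int.unique | with_reducible apply Int.all | with_reducible apply Int.ex | with_reducible apply IntF.fst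 | with_reducible apply IntF.snd | with_reducible apply IntF.app | with_reducible apply IntF.ite | with_reducible apply IntF.sep | with_reducible apply IntF.lam | with_reducible apply IntF.insert | with_reducible apply IntF.singleton | with_reducible apply IntF.union | with_reducible apply IntF.inter | with_reducible apply IntF.sdiff | with_reducible apply IntF.isUnion | with_reducible apply IntF.iimage | with_reducible apply IntF.the | with_reducible apply IntF.irec | with_reducible_and_instances apply IntF.add | with_reducible_and_instances apply IntF.mul | with_reducible apply IntF.succ | with_reducible apply IntF.val | (with_reducible refine Int.comp ?_ ?_; assumption) | (with_reducible refine Int.comp₂ ?_ ?_ ?_; assumption) | (with_reducible refine Int.comp₃ ?_ ?_ ?_ ?_; assumption) | (with_reducible refine IntF.comp ?_ ?_; assumption) | (with_reducible refine IntF.comp₂ ?_ ?_ ?_; assumption) | (with_reducible refine IntF.comp₃ ?_ ?_ ?_ ?_; assumption) | with_reducible apply IntF.pair))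
    have hlt1 : ∀ x y, (x, y) ∈ S.1 → x ≠ y → ltO π (π ⟨rst S.1 x, isW_rst S.2 x⟩)
        (π ⟨rst S.1 y, isW_rst S.2 y⟩) := by
      intro x y hxy hne
      rw [ltO_mk hk]
      refine ⟨x, mem_rst.2 ⟨(S.2.1 _ _ hxy).1, hxy, hne, hxy, hne⟩, ?_⟩
      change ∃ f, Iso (rst S.1 x) (rst (rst S.1 y) x) f
      rw [rst_rst S.2 hxy hne]
      exact iso_refl (isW_rst S.2 x)
    have hlt2 : ∀ x, (x, x) ∈ S.1 → ltO π (π ⟨rst S.1 x, isW_rst S.2 x⟩) (π S) := by
      intro x hx
      rw [ltO_mk hk]
      exact ⟨x, hx, iso_refl (isW_rst S.2 x)⟩
    have hor : ∀ x y, (x, x) ∈ S.1 → (y, y) ∈ S.1 → ((x, y) ∈ S.1 ↔ (h x, h y) ∈ W) := by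
      intro x y hx hy
      rw [hh]
      simp only
      rw [hW']
      constructor
      · intro hxy
        by_cases hne : x = y
        · subst hne
          exact Or.inr rfl
        · exact Or.inl (hlt1 x y hxy hne)
      · intro hxy
        by_contra hc
        rcases S.2.2.2.2.1 x y hx hy with h3 | h3
        · exact hc h3
        · have hne : y ≠ x := by
            rintro rfl
            exact hc h3
          have h4 := hlt1 y x h3 hne
          rcases hxy with h5 | h5
          · exact hirr _ (htr _ _ _ h4 h5)
          · rw [h5] at h4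
            exact hirr _ h4
    have hlow : ∀ x, (x, x) ∈ S.1 → (h x, h x) ∈ rst W (g (π S)) := by
      intro x hx
      have h3 := hlt2 x hx
      have h4 : (h x, g (π S)) ∈ W := by
        rw [hh]
        exact (hW' _ _).2 (Or.inl h3)
      have h5 : h x ≠ g (π S) := by
        rw [hh]
        intro h6
        rw [hinj h6] at h3
        exact hirr _ h3
      exact mem_rst.2 ⟨(hWW.1 _ _ h4).1, h4, h5, h4, h5⟩
    refine ⟨sep M fun q => (q.1, q.1) ∈ S.1 ∧ q.2 = h q.1, ?_, ?_, ?_, ?_⟩
    · intro x y hxy
      obtain ⟨h3, h4⟩ := (mem_sep hK).1 hxy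
      have h5 : y = h x := h4
      rw [h5]
      exact ⟨h3, hlow x h3⟩
    · intro x hx
      exact ⟨h x, (mem_sep hK).2 ⟨hx, rfl⟩⟩
    · intro y hy
      obtain ⟨k1, k2, k3, -⟩ := mem_rst.1 hy
      obtain ⟨b, rfl⟩ := hfld y k1
      have h3 : ltO π b (π S) := by
        rcases (hW' _ _).1 k2 with h3 | h3
        · exact h3
        · exact absurd (congrArg g h3) k3
      obtain ⟨T, rfl⟩ := hs b
      obtain ⟨x, hx, f, hf⟩ := (ltO_mk hk).1 h3
      refine ⟨x, (mem_sep hK).2 ⟨hx, ?_⟩⟩
      change g (π T) = h x
      rw [hh]
      exact congrArg g ((hk _ _).2 ⟨f, hf⟩)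
    · intro x y x' y' h3 h4
      obtain ⟨k1, k2⟩ := (mem_sep hK).1 h3
      obtain ⟨l1, l2⟩ := (mem_sep hK).1 h4
      have k3 : y = h x := k2
      have l3 : y' = h x' := l2
      rw [k3, l3, hor x x' k1 l1]
      obtain ⟨m1, m2, m3, -⟩ := mem_rst.1 (hlow x k1)
      obtain ⟨n1, n2, n3, -⟩ := mem_rst.1 (hlow x' l1)
      constructor
      · intro h5
        exact mem_rst.2 ⟨h5, m2, m3, n2, n3⟩
      · intro h5
        exact (mem_rst.1 h5).1
  obtain ⟨k, hkk⟩ := hcl ⟨W, hWW⟩
  exact h1 M σ W k (g (π ⟨W, hWW⟩)) hWW ((hW' _ _).2 (Or.inr rfl)) hkk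

end

theorem t_HAR : S_HAR'.{u} := by
  intro h1 h2 M _ _ σ _
  have hπ : IntF M (fun R : WO M σ => (Quotient.mk (woS M σ) R : Quotient (woS M σ))) := IntF.qmk'
  have hs : Function.Surjective (fun R : WO M σ => (Quotient.mk (woS M σ) R : Quotient (woS M σ))) :=
    Quotient.mk_surjective
  have hk : ∀ R S : WO M σ, (fun R : WO M σ => (Quotient.mk (woS M σ) R : Quotient (woS M σ))) R =
      (fun R : WO M σ => (Quotient.mk (woS M σ) R : Quotient (woS M σ))) S ↔
        ∃ f, Iso R.1 S.1 f := fun R S => Quotient.eq
  refine ⟨Quotient (woS M σ), ITy.quotient, ltO (fun R : WO M σ =>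
    (Quotient.mk (woS M σ) R : Quotient (woS M σ))), ⟨int_ltO hπ, ltO_irr hk hs h1, ltO_tr hk hs,
    ltO_tri hk hs h2, ltO_min hk hs hπ⟩, fun g hg hinj => ltO_inj hk hs hπ h1 h2 g hg hinj⟩

end Pool.Agent.Q222.ZE
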