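import Pool.Agent.Q212.ZE.Stm

/-!
# Project ZE: isomorphisms of well-orders (jobs H1, H2)
-/

set_option maxHeartbeats 400000
set_option linter.all false

namespace Pool.Agent.Q222.ZE

open FirstOrder FirstOrder.Language
open Pool.Agent.Helper672.ZFA
open Pool.Agent.H310
open Pool.Agent.Q212.ZA
open Pool.Agent.Q212.ZE

universe u

section

variable {M : Type u} [L.Structure M] [hM : IsModel M]
variable {σ : Type u} [ITy M σ]

theorem int_rstp (R : IPow M (σ × σ)) (x : σ) : Int M (fun q : σ × σ => q ∈ R ∧ (q.1, x) ∈ R ∧
    q.1 ≠ x ∧ (q.2, x) ∈ R ∧ q.2 ≠ x) := by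
  (repeat' (first | with_reducible exact IntF.id | with_reducible exact IntF.fst' | with_reducible exact IntF.snd' | with_reducible exact IntF.const _ | with_reducible exact Int.const _ | assumption | with_reducible apply Int.and | with_reducible apply Int.or | with_reducible apply Int.not | with_reducible apply Int.imp | with_reducible apply Int.iff | with_reducible apply Int.ne | with_reducible apply Int.eq | with_reducible apply Int.mem | with_reducible apply Int.subset | with_reducible apply Int.ltN | with_reducible apply Int.leN | with_reducible apply Int.fin | with_reducible apply Int.unique | with_reducible apply Int.all | with_reducible apply Int.ex | with_reducible apply IntF.fst | with_reducible apply IntF.snd | with_reducible apply IntF.app | with_reducible apply IntF.ite | with_reducible apply IntF.sep | with_reducible apply IntF.lam | with_reducible apply IntF.insert | with_reducible apply IntF.singleton | with_reducible apply IntF.union | with_reducible apply IntF.inter | with_reducible apply IntF.sdiff | with_reducible apply IntF.isUnion | with_reducible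 apply IntF.iimage | with_reducible apply IntF.the | with_reducible apply IntF.irec | with_reducible_and_instances apply IntF.add | with_reducible_and_instances apply IntF.mul | with_reducible apply IntF.succ | with_reducible apply IntF.val | (with_reducible refine Int.comp ?_ ?_; assumption) | (with_reducible refine Int.comp₂ ?_ ?_ ?_; assumption) | (with_reducible refine Int.comp₃ ?_ ?_ ?_ ?_; assumption) | (with_reducible refine IntF.comp ?_ ?_; assumption) | (with_reducible refine IntF.comp₂ ?_ ?_ ?_; assumption) | (with_reducible refine IntF.comp₃ ?_ ?_ ?_ ?_; assumption) | with_reducible apply IntF.pair))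

theorem mem_rst {R : IPow M (σ × σ)} {x a b : σ} : (a, b) ∈ rst R x ↔
    (a, b) ∈ R ∧ (a, x) ∈ R ∧ a ≠ x ∧ (b, x) ∈ R ∧ b ≠ x := mem_sep (int_rstp R x)

theorem int_rst : IntF M (fun q : IPow M (σ × σ) × σ => rst q.1 q.2) := by
  unfold rst
  (repeat' (first | with_reducible exact IntF.id | with_reducible exact IntF.fst' | with_reducible exact IntF.snd' | with_reducible exact IntF.const _ | with_reducible exact Int.const _ | assumption | with_reducible apply Int.and | with_reducible apply Int.or | with_reducible apply Int.not | with_reducible apply Int.imp | with_reducible apply Int.iff | with_reducible apply Int.ne | with_reducible apply Int.eq | with_reducible apply Int.mem | with_reducible apply Int.subset | with_reducible apply Int.ltN | with_reducible apply Int.leN | with_reducible apply Int.fin | with_reducible apply Int.unique | with_reducible apply Int.all | with_reducible apply Int.ex | with_reducible apply IntF.fst | with_reducible apply IntF.snd | with_reducible apply IntF.app | with_reducible apply IntF.ite | with_reducible apply IntF.sep | with_reducible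 apply IntF.lam | with_reducible apply IntF.insert | with_reducible apply IntF.singleton | with_reducible apply IntF.union | with_reducible apply IntF.inter | with_reducible apply IntF.sdiff | with_reducible apply IntF.isUnion | with_reducible apply IntF.iimage | with_reducible apply IntF.the | with_reducible apply IntF.irec | with_reducible_and_instances apply IntF.add | with_reducible_and_instances apply IntF.mul | with_reducible apply IntF.succ | with_reducible apply IntF.val | (with_reducible refine Int.comp ?_ ?_; assumption) | (with_reducible refine Int.comp₂ ?_ ?_ ?_; assumption) | (with_reducible refine Int.comp₃ ?_ ?_ ?_ ?_; assumption) | (with_reducible refine IntF.comp ?_ ?_; assumption) | (with_reducible refine IntF.comp₂ ?_ ?_ ?_; assumption) | (with_reducible refine IntF.comp₃ ?_ ?_ ?_ ?_; assumption) | with_reducible apply IntF.pair))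

theorem int_Iso : Int M (fun q : (IPow M (σ × σ) × IPow M (σ × σ)) × IPow M (σ × σ) =>
    Iso q.1.1 q.1.2 q.2) := by
  unfold Iso
  (repeat' (first | with_reducible exact IntF.id | with_reducible exact IntF.fst' | with_reducible exact IntF.snd' | with_reducible exact IntF.const _ | with_reducible exact Int.const _ | assumption | with_reducible apply Int.and | with_reducible apply Int.or | with_reducible apply Int.not | with_reducible apply Int.imp | with_reducible apply Int.iff | with_reducible apply Int.ne | with_reducible apply Int.eq | with_reducible apply Int.mem | with_reducible apply Int.subset | with_reducible apply Int.ltN | with_reducible apply Int.leN | with_reducible apply Int.fin | with_reducible apply Int.unique | with_reducible apply Int.all | with_reducible apply Int.ex | with_reducible apply IntF.fst | with_reducible apply IntF.snd | with_reducible apply IntF.app | with_reducible apply IntF.ite | with_reducible apply IntF.sep | with_reducible apply IntF.lam | with_reducible apply IntF.insert | with_reducible apply IntF.singleton | with_reducible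 apply IntF.union | with_reducible apply IntF.inter | with_reducible apply IntF.sdiff | with_reducible apply IntF.isUnion | with_reducible apply IntF.iimage | with_reducible apply IntF.the | with_reducible apply IntF.irec | with_reducible_and_instances apply IntF.add | with_reducible_and_instances apply IntF.mul | with_reducible apply IntF.succ | with_reducible apply IntF.val | (with_reducible refine Int.comp ?_ ?_; assumption) | (with_reducible refine Int.comp₂ ?_ ?_ ?_; assumption) | (with_reducible refine Int.comp₃ ?_ ?_ ?_ ?_; assumption) | (with_reducible refine IntF.comp ?_ ?_; assumption) | (with_reducible refine IntF.comp₂ ?_ ?_ ?_; assumption) | (with_reducible refine IntF.comp₃ ?_ ?_ ?_ ?_; assumption) | with_reducible apply IntF.pair))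

theorem iso_fn {R S f : IPow M (σ × σ)} (hS : IsW S) (h : Iso R S f) {a b b' : σ}
    (h1 : (a, b) ∈ f) (h2 : (a, b') ∈ f) : b = b' := by
  have ha := (h.1 a b h1).1
  exact hS.2.1 b b' ((h.2.2.2 a b a b' h1 h2).1 ha) ((h.2.2.2 a b' a b h2 h1).1 ha)

theorem iso_inj {R S f : IPow M (σ × σ)} (hR : IsW R) (h : Iso R S f) {a a' b : σ}
    (h1 : (a, b) ∈ f) (h2 : (a', b) ∈ f) : a = a' := by
  have hb := (h.1 a b h1).2
  exact hR.2.1 a a' ((h.2.2.2 a b a' b h1 h2).2 hb) ((h.2.2.2 a' b a b h2 h1).2 hb)

theorem iso_symm {R S f : IPow M (σ × σ)} (h : Iso R S f) : ∃ g, Iso S R g := by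
  have hI : Int M (fun q : σ × σ => (q.2, q.1) ∈ f) := by
    (repeat' (first | with_reducible exact IntF.id | with_reducible exact IntF.fst' | with_reducible exact IntF.snd' | with_reducible exact IntF.const _ | with_reducible exact Int.const _ | assumption | with_reducible apply Int.and | with_reducible apply Int.or | with_reducible apply Int.not | with_reducible apply Int.imp | with_reducible apply Int.iff | with_reducible apply Int.ne | with_reducible apply Int.eq | with_reducible apply Int.mem | with_reducible apply Int.subset | with_reducible apply Int.ltN | with_reducible apply Int.leN | with_reducible apply Int.fin | with_reducible apply Int.unique | with_reducible apply Int.all | with_reducible apply Int.ex | with_reducible apply IntF.fst | with_reducible apply IntF.snd | with_reducible apply IntF.app | with_reducible apply IntF.ite | with_reducible apply IntF.sep | with_reducible apply IntF.lam | with_reducible apply IntF.insert | with_reducible apply IntF.singleton | with_reducible apply IntF.union | with_reducible apply IntF.inter | with_reducible apply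 IntF.sdiff | with_reducible apply IntF.isUnion | with_reducible apply IntF.iimage | with_reducible apply IntF.the | with_reducible apply IntF.irec | with_reducible_and_instances apply IntF.add | with_reducible_and_instances apply IntF.mul | with_reducible apply IntF.succ | with_reducible apply IntF.val | (with_reducible refine Int.comp ?_ ?_; assumption) | (with_reducible refine Int.comp₂ ?_ ?_ ?_; assumption) | (with_reducible refine Int.comp₃ ?_ ?_ ?_ ?_; assumption) | (with_reducible refine IntF.comp ?_ ?_; assumption) | (with_reducible refine IntF.comp₂ ?_ ?_ ?_; assumption) | (with_reducible refine IntF.comp₃ ?_ ?_ ?_ ?_; assumption) | with_reducible apply IntF.pair))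
  refine ⟨sep M fun q => (q.2, q.1) ∈ f, ?_, ?_, ?_, ?_⟩
  · intro a b hab
    have h1 := (mem_sep hI).1 hab
    exact (h.1 b a h1).symm
  · intro a ha
    obtain ⟨b, hb⟩ := h.2.2.1 a ha
    exact ⟨b, (mem_sep hI).2 hb⟩
  · intro b hb
    obtain ⟨a, ha⟩ := h.2.1 b hb
    exact ⟨a, (mem_sep hI).2 ha⟩
  · intro a b a' b' h1 h2
    exact (h.2.2.2 b a b' a' ((mem_sep hI).1 h1) ((mem_sep hI).1 h2)).symm

theorem iso_comp {R S T f g : IPow M (σ × σ)} (h : Iso R S f) (h' : Iso S T g) :
    ∃ k, Iso R T k := by
  have hI : Int M (fun q : σ × σ => ∃ b, (q.1, b) ∈ f ∧ (b, q.2) ∈ g) := by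
    (repeat' (first | with_reducible exact IntF.id | with_reducible exact IntF.fst' | with_reducible exact IntF.snd' | with_reducible exact IntF.const _ | with_reducible exact Int.const _ | assumption | with_reducible apply Int.and | with_reducible apply Int.or | with_reducible apply Int.not | with_reducible apply Int.imp | with_reducible apply Int.iff | with_reducible apply Int.ne | with_reducible apply Int.eq | with_reducible apply Int.mem | with_reducible apply Int.subset | with_reducible apply Int.ltN | with_reducible apply Int.leN | with_reducible apply Int.fin | with_reducible apply Int.unique | with_reducible apply Int.all | with_reducible apply Int.ex | with_reducible apply IntF.fst | with_reducible apply IntF.snd | with_reducible apply IntF.app | with_reducible apply IntF.ite | with_reducible apply IntF.sep | with_reducible apply IntF.lam | with_reducible apply IntF.insert | with_reducible apply IntF.singleton | with_reducible apply IntF.union | with_reducible apply IntF.inter | with_reducible apply IntF.sdiff | with_reducible apply IntF.isUnion | with_reducible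 apply IntF.iimage | with_reducible apply IntF.the | with_reducible apply IntF.irec | with_reducible_and_instances apply IntF.add | with_reducible_and_instances apply IntF.mul | with_reducible apply IntF.succ | with_reducible apply IntF.val | (with_reducible refine Int.comp ?_ ?_; assumption) | (with_reducible refine Int.comp₂ ?_ ?_ ?_; assumption) | (with_reducible refine Int.comp₃ ?_ ?_ ?_ ?_; assumption) | (with_reducible refine IntF.comp ?_ ?_; assumption) | (with_reducible refine IntF.comp₂ ?_ ?_ ?_; assumption) | (with_reducible refine IntF.comp₃ ?_ ?_ ?_ ?_; assumption) | with_reducible apply IntF.pair))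
  refine ⟨sep M fun q => ∃ b, (q.1, b) ∈ f ∧ (b, q.2) ∈ g, ?_, ?_, ?_, ?_⟩
  · intro a c hac
    obtain ⟨b, h1, h2⟩ := (mem_sep hI).1 hac
    exact ⟨(h.1 a b h1).1, (h'.1 b c h2).2⟩
  · intro a ha
    obtain ⟨b, hb⟩ := h.2.1 a ha
    obtain ⟨c, hc⟩ := h'.2.1 b (h.1 a b hb).2
    exact ⟨c, (mem_sep hI).2 ⟨b, hb, hc⟩⟩
  · intro c hc
    obtain ⟨b, hb⟩ := h'.2.2.1 c hc
    obtain ⟨a, ha⟩ := h.2.2.1 b (h'.1 b c hb).1
    exact ⟨a, (mem_sep hI).2 ⟨b, ha, hb⟩⟩
  · intro a c a' c' h1 h2
    obtain ⟨b, h3, h4⟩ := (mem_sep hI).1 h1
    obtain ⟨b', h3', h4'⟩ := (mem_sep hI).1 h2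
    exact (h.2.2.2 a b a' b' h3 h3').trans (h'.2.2.2 b c b' c' h4 h4')

theorem iso_refl {R : IPow M (σ × σ)} (hR : IsW R) : ∃ k, Iso R R k := by
  have hI : Int M (fun q : σ × σ => (q.1, q.1) ∈ R ∧ q.1 = q.2) := by
    (repeat' (first | with_reducible exact IntF.id | with_reducible exact IntF.fst' | with_reducible exact IntF.snd' | with_reducible exact IntF.const _ | with_reducible exact Int.const _ | assumption | with_reducible apply Int.and | with_reducible apply Int.or | with_reducible apply Int.not | with_reducible apply Int.imp | with_reducible apply Int.iff | with_reducible apply Int.ne | with_reducible apply Int.eq | with_reducible apply Int.mem | with_reducible apply Int.subset | with_reducible apply Int.ltN | with_reducible apply Int.leN | with_reducible apply Int.fin | with_reducible apply Int.unique | with_reducible apply Int.all | with_reducible apply Int.ex | with_reducible apply IntF.fst | with_reducible apply IntF.snd | with_reducible apply IntF.app | with_reducible apply IntF.ite | with_reducible apply IntF.sep | with_reducible apply IntF.lam |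 with_reducible apply IntF.insert | with_reducible apply IntF.singleton | with_reducible apply IntF.union | with_reducible apply IntF.inter | with_reducible apply IntF.sdiff | with_reducible apply IntF.isUnion | with_reducible apply IntF.iimage | with_reducible apply IntF.the | with_reducible apply IntF.irec | with_reducible_and_instances apply IntF.add | with_reducible_and_instances apply IntF.mul | with_reducible apply IntF.succ | with_reducible apply IntF.val | (with_reducible refine Int.comp ?_ ?_; assumption) | (with_reducible refine Int.comp₂ ?_ ?_ ?_; assumption) | (with_reducible refine Int.comp₃ ?_ ?_ ?_ ?_; assumption) | (with_reducible refine IntF.comp ?_ ?_; assumption) | (with_reducible refine IntF.comp₂ ?_ ?_ ?_; assumption) | (with_reducible refine IntF.comp₃ ?_ ?_ ?_ ?_; assumption) | with_reducible apply IntF.pair))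
  refine ⟨sep M fun q => (q.1, q.1) ∈ R ∧ q.1 = q.2, ?_, ?_, ?_, ?_⟩
  · intro a c hac
    obtain ⟨h1, h2⟩ := (mem_sep hI).1 hac
    have h3 : a = c := h2
    subst h3
    exact ⟨h1, h1⟩
  · intro a ha
    exact ⟨a, (mem_sep hI).2 ⟨ha, rfl⟩⟩
  · intro a ha
    exact ⟨a, (mem_sep hI).2 ⟨ha, rfl⟩⟩
  · intro a c a' c' h1 h2
    obtain ⟨-, h3⟩ := (mem_sep hI).1 h1
    obtain ⟨-, h4⟩ := (mem_sep hI).1 h2
    have h5 : a = c := h3
    have h6 : a' = c' := h4
    rw [h5, h6]

theorem rst_rst {S : IPow M (σ × σ)} (hS : IsW S) {y y' : σ} (h : (y', y) ∈ S) (hne : y' ≠ y) :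
    rst (rst S y) y' = rst S y' := by
  refine IPow.ext' fun q => ?_
  obtain ⟨a, b⟩ := q
  have key : ∀ c, (c, y') ∈ S → (c, y) ∈ S ∧ c ≠ y := by
    intro c hc
    refine ⟨hS.2.2.1 c y' y hc h, ?_⟩
    rintro rfl
    exact hne (hS.2.1 _ _ h hc)
  rw [mem_rst, mem_rst, mem_rst, mem_rst, mem_rst]
  constructor
  · rintro ⟨⟨h1, -⟩, ⟨h2, -⟩, h3, ⟨h4, -⟩, h5⟩
    exact ⟨h1, h2, h3, h4, h5⟩
  · rintro ⟨h1, h2, h3, h4, h5⟩
    obtain ⟨k1, k2⟩ := key a h2
    obtain ⟨k3, k4⟩ := key b h4
    exact ⟨⟨h1, k1, k2, k3, k4⟩, ⟨h2, k1, k2, h, hne⟩, h3, ⟨h4, k3, k4, h, hne⟩, h5⟩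

theorem isW_rst {S : IPow M (σ × σ)} (hS : IsW S) (y : σ) : IsW (rst S y) := by
  obtain ⟨h1, h2, h3, h4, h5⟩ := hS
  refine ⟨?_, ?_, ?_, ?_, ?_⟩
  · intro a b hab
    obtain ⟨k1, k2, k3, k4, k5⟩ := mem_rst.1 hab
    exact ⟨mem_rst.2 ⟨(h1 _ _ k1).1, k2, k3, k2, k3⟩, mem_rst.2 ⟨(h1 _ _ k1).2, k4, k5, k4, k5⟩⟩
  · intro a b k k'
    exact h2 a b (mem_rst.1 k).1 (mem_rst.1 k').1
  · intro a b c k k'
    obtain ⟨k1, k2, k3, k4, k5⟩ := mem_rst.1 k
    obtain ⟨l1, l2, l3, l4, l5⟩ := mem_rst.1 k'
    exact mem_rst.2 ⟨h3 _ _ _ k1 l1, k2, k3, l4, l5⟩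
  · intro a b k k'
    obtain ⟨k1, k2, k3, k4, k5⟩ := mem_rst.1 k
    obtain ⟨l1, l2, l3, l4, l5⟩ := mem_rst.1 k'
    rcases h4 a b k1 l1 with h | h
    · exact Or.inl (mem_rst.2 ⟨h, k2, k3, l2, l3⟩)
    · exact Or.inr (mem_rst.2 ⟨h, l2, l3, k2, k3⟩)
  · intro s hs
    have hI : Int M (fun x : σ => x ∈ s ∧ (x, x) ∈ rst S y) := by
      (repeat' (first | with_reducible exact IntF.id | with_reducible exact IntF.fst' | with_reducible exact IntF.snd' | with_reducible exact IntF.const _ | with_reducible exact Int.const _ | assumption | with_reducible apply Int.and | with_reducible apply Int.or | with_reducible apply Int.not | with_reducible apply Int.imp | with_reducible apply Int.iff | with_reducible apply Int.ne | with_reducible apply Int.eq | with_reducible apply Int.mem | with_reducible apply Int.subset | with_reducible apply Int.ltN | with_reducible apply Int.leN | with_reducible apply Int.fin | with_reducible apply Int.unique | with_reducible apply Int.all | with_reducible apply Int.ex | with_reducible apply IntF.fst | with_reducible apply IntF.snd | with_reducible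 apply IntF.app | with_reducible apply IntF.ite | with_reducible apply IntF.sep | with_reducible apply IntF.lam | with_reducible apply IntF.insert | with_reducible apply IntF.singleton | with_reducible apply IntF.union | with_reducible apply IntF.inter | with_reducible apply IntF.sdiff | with_reducible apply IntF.isUnion | with_reducible apply IntF.iimage | with_reducible apply IntF.the | with_reducible apply IntF.irec | with_reducible_and_instances apply IntF.add | with_reducible_and_instances apply IntF.mul | with_reducible apply IntF.succ | with_reducible apply IntF.val | (with_reducible refine Int.comp ?_ ?_; assumption) | (with_reducible refine Int.comp₂ ?_ ?_ ?_; assumption) | (with_reducible refine Int.comp₃ ?_ ?_ ?_ ?_; assumption) | (with_reducible refine IntF.comp ?_ ?_; assumption) | (with_reducible refine IntF.comp₂ ?_ ?_ ?_; assumption) | (with_reducible refine IntF.comp₃ ?_ ?_ ?_ ?_; assumption) | with_reducible apply IntF.pair))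
    obtain ⟨x, hx, hx'⟩ := hs
    obtain ⟨a, ha, ha', ha''⟩ := h5 (sep M fun x => x ∈ s ∧ (x, x) ∈ rst S y)
      ⟨x, (mem_sep hI).2 ⟨hx, hx'⟩, (mem_rst.1 hx').1⟩
    obtain ⟨k1, k2⟩ := (mem_sep hI).1 ha
    refine ⟨a, k1, k2, fun b hb hb' => ?_⟩
    have k3 := ha'' b ((mem_sep hI).2 ⟨hb, hb'⟩) (mem_rst.1 hb').1
    obtain ⟨l1, l2, l3, l4, l5⟩ := mem_rst.1 k2
    obtain ⟨m1, m2, m3, m4, m5⟩ := mem_rst.1 hb'
    exact mem_rst.2 ⟨k3, l2, l3, m2, m3⟩

/-- The restriction of an isomorphism. -/
theorem iso_rst {R S f : IPow M (σ × σ)} (hR : IsW R) (hS : IsW S) (h : Iso R S f) {x y : σ}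
    (hxy : (x, y) ∈ f) : ∃ g, Iso (rst R x) (rst S y) g := by
  have hI : Int M (fun q : σ × σ => q ∈ f ∧ (q.1, x) ∈ R ∧ q.1 ≠ x) := by
    (repeat' (first | with_reducible exact IntF.id | with_reducible exact IntF.fst' | with_reducible exact IntF.snd' | with_reducible exact IntF.const _ | with_reducible exact Int.const _ | assumption | with_reducible apply Int.and | with_reducible apply Int.or | with_reducible apply Int.not | with_reducible apply Int.imp | with_reducible apply Int.iff | with_reducible apply Int.ne | with_reducible apply Int.eq | with_reducible apply Int.mem | with_reducible apply Int.subset | with_reducible apply Int.ltN | with_reducible apply Int.leN | with_reducible apply Int.fin | with_reducible apply Int.unique | with_reducible apply Int.all | with_reducible apply Int.ex | with_reducible apply IntF.fst | with_reducible apply IntF.snd | with_reducible apply IntF.app | with_reducible apply IntF.ite | with_reducible apply IntF.sep | with_reducible apply IntF.lam | with_reducible apply IntF.insert | with_reducible apply IntF.singleton | with_reducible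 apply IntF.union | with_reducible apply IntF.inter | with_reducible apply IntF.sdiff | with_reducible apply IntF.isUnion | with_reducible apply IntF.iimage | with_reducible apply IntF.the | with_reducible apply IntF.irec | with_reducible_and_instances apply IntF.add | with_reducible_and_instances apply IntF.mul | with_reducible apply IntF.succ | with_reducible apply IntF.val | (with_reducible refine Int.comp ?_ ?_; assumption) | (with_reducible refine Int.comp₂ ?_ ?_ ?_; assumption) | (with_reducible refine Int.comp₃ ?_ ?_ ?_ ?_; assumption) | (with_reducible refine IntF.comp ?_ ?_; assumption) | (with_reducible refine IntF.comp₂ ?_ ?_ ?_; assumption) | (with_reducible refine IntF.comp₃ ?_ ?_ ?_ ?_; assumption) | with_reducible apply IntF.pair))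
  have hlt : ∀ a b, (a, b) ∈ f → (a, x) ∈ R → a ≠ x → (b, y) ∈ S ∧ b ≠ y := by
    intro a b h1 h2 h3
    refine ⟨(h.2.2.2 a b x y h1 hxy).1 h2, ?_⟩
    rintro rfl
    exact h3 (iso_inj hR h h1 hxy)
  have hlt' : ∀ a b, (a, b) ∈ f → (b, y) ∈ S → b ≠ y → (a, x) ∈ R ∧ a ≠ x := by
    intro a b h1 h2 h3
    refine ⟨(h.2.2.2 a b x y h1 hxy).2 h2, ?_⟩
    rintro rfl
    exact h3 (iso_fn hS h h1 hxy)
  refine ⟨sep M fun q => q ∈ f ∧ (q.1, x) ∈ R ∧ q.1 ≠ x, ?_, ?_, ?_, ?_⟩
  · intro a b hab
    obtain ⟨h1, h2, h3⟩ := (mem_sep hI).1 hab
    obtain ⟨h4, h5⟩ := hlt a b h1 h2 h3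
    exact ⟨mem_rst.2 ⟨(h.1 a b h1).1, h2, h3, h2, h3⟩, mem_rst.2 ⟨(h.1 a b h1).2, h4, h5, h4, h5⟩⟩
  · intro a ha
    obtain ⟨k1, k2, k3, k4, k5⟩ := mem_rst.1 ha
    obtain ⟨b, hb⟩ := h.2.1 a k1
    exact ⟨b, (mem_sep hI).2 ⟨hb, k2, k3⟩⟩
  · intro b hb
    obtain ⟨k1, k2, k3, k4, k5⟩ := mem_rst.1 hb
    obtain ⟨a, ha⟩ := h.2.2.1 b k1
    obtain ⟨l1, l2⟩ := hlt' a b ha k2 k3
    exact ⟨a, (mem_sep hI).2 ⟨ha, l1, l2⟩⟩
  · intro a b a' b' h1 h2
    obtain ⟨k1, k2, k3⟩ := (mem_sep hI).1 h1
    obtain ⟨l1, l2, l3⟩ := (mem_sep hI).1 h2
    obtain ⟨m1, m2⟩ := hlt a b k1 k2 k3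
    obtain ⟨n1, n2⟩ := hlt a' b' l1 l2 l3
    have h3 := h.2.2.2 a b a' b' k1 l1
    rw [mem_rst, mem_rst]
    constructor
    · rintro ⟨h4, -⟩
      exact ⟨h3.1 h4, m1, m2, n1, n2⟩
    · rintro ⟨h4, -⟩
      exact ⟨h3.2 h4, k2, k3, l2, l3⟩

end

theorem t_H1 : S_H1.{u} := by
  intro M _ _ σ _ R f x hR hx hf
  obtain ⟨hfld, hanti, htr, htot, hmin⟩ := hR
  obtain ⟨hf1, hf2, hf3, hf4⟩ := hf
  have hI : Int M (fun a : σ => ∃ b, (a, b) ∈ f ∧ (b, a) ∈ R ∧ b ≠ a) := by
    (repeat' (first | with_reducible exact IntF.id | with_reducible exact IntF.fst' | with_reducible exact IntF.snd' | with_reducible exact IntF.const _ | with_reducible exact Int.const _ | assumption | with_reducible apply Int.and | with_reducible apply Int.or | with_reducible apply Int.not | with_reducible apply Int.imp | with_reducible apply Int.iff | with_reducible apply Int.ne | with_reducible apply Int.eq | with_reducible apply Int.mem | with_reducible apply Int.subset | with_reducible apply Int.ltN | with_reducible apply Int.leN | with_reducible apply Int.fin | with_reducible apply Int.unique | with_reducible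 apply Int.all | with_reducible apply Int.ex | with_reducible apply IntF.fst | with_reducible apply IntF.snd | with_reducible apply IntF.app | with_reducible apply IntF.ite | with_reducible apply IntF.sep | with_reducible apply IntF.lam | with_reducible apply IntF.insert | with_reducible apply IntF.singleton | with_reducible apply IntF.union | with_reducible apply IntF.inter | with_reducible apply IntF.sdiff | with_reducible apply IntF.isUnion | with_reducible apply IntF.iimage | with_reducible apply IntF.the | with_reducible apply IntF.irec | with_reducible_and_instances apply IntF.add | with_reducible_and_instances apply IntF.mul | with_reducible apply IntF.succ | with_reducible apply IntF.val | (with_reducible refine Int.comp ?_ ?_; assumption) | (with_reducible refine Int.comp₂ ?_ ?_ ?_; assumption) | (with_reducible refine Int.comp₃ ?_ ?_ ?_ ?_; assumption) | (with_reducible refine IntF.comp ?_ ?_; assumption) | (with_reducible refine IntF.comp₂ ?_ ?_ ?_; assumption) | (with_reducible refine IntF.comp₃ ?_ ?_ ?_ ?_; assumption) | with_reducible apply IntF.pair))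
  obtain ⟨b₀, hb₀⟩ := hf2 x hx
  have hb₁ := mem_rst.1 (hf1 x b₀ hb₀).2
  obtain ⟨a, ha, ha', ha''⟩ := hmin (sep M fun a => ∃ b, (a, b) ∈ f ∧ (b, a) ∈ R ∧ b ≠ a)
    ⟨x, (mem_sep hI).2 ⟨b₀, hb₀, hb₁.2.1, hb₁.2.2.1⟩, hx⟩
  obtain ⟨b, h1, h2, h3⟩ := (mem_sep hI).1 ha
  have hbb := (hfld b a h2).1
  obtain ⟨c, hc⟩ := hf2 b hbb
  have h4 := (mem_rst.1 ((hf4 b c a b hc h1).1 h2)).1
  have hcb : c ≠ b := by
    rintro rfl
    have h5 := (hf4 a c c c h1 hc).2 (hf1 a c h1).2
    exact h3 (hanti _ _ h2 h5)
  have h6 := ha'' b ((mem_sep hI).2 ⟨c, hc, h4, hcb⟩) hbb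
  exact h3 (hanti _ _ h2 h6)

section

variable {M : Type u} [L.Structure M] [hM : IsModel M]
variable {σ : Type u} [ITy M σ]

/-- Different initial segments are not isomorphic. -/
theorem seg_unique (h1 : S_H1.{u}) {S : IPow M (σ × σ)} (hS : IsW S) {y y' : σ}
    (hy : (y, y) ∈ S) (hy' : (y', y') ∈ S) (h : ∃ f, Iso (rst S y) (rst S y') f) : y = y' := by
  have key : ∀ y y', (y, y) ∈ S → (y', y') ∈ S → (y', y) ∈ S → y' ≠ y →
      (∃ f, Iso (rst S y) (rst S y') f) → False := by
    intro y y' hy hy' hlt hne ⟨f, hf⟩
    rw [← rst_rst hS hlt hne] at hf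
    exact h1 M σ (rst S y) f y' (isW_rst hS y)
      (mem_rst.2 ⟨hy', hlt, hne, hlt, hne⟩) hf
  by_contra hne
  rcases hS.2.2.2.1 y y' hy hy' with hl | hl
  · obtain ⟨f, hf⟩ := h
    exact key y' y hy' hy hl hne (iso_symm hf)
  · exact key y y' hy hy' hl (fun h => hne h.symm) h

/-- Initial segments of a well-order. -/
theorem seg_cases {R : IPow M (σ × σ)} (hR : IsW R) {dm : σ → Prop} (hd : Int M dm)
    (h1 : ∀ a, dm a → (a, a) ∈ R) (h2 : ∀ a b, dm a → (b, a) ∈ R → dm b) :
    (∀ a, (a, a) ∈ R → dm a) ∨ ∃ x, (x, x) ∈ R ∧ ¬ dm x ∧ ∀ a, dm a ↔ ((a, x) ∈ R ∧ a ≠ x) := by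
  by_cases h : ∀ a, (a, a) ∈ R → dm a
  · exact Or.inl h
  · right
    push Not at h
    obtain ⟨a, ha, ha'⟩ := h
    have hI : Int M (fun a : σ => ¬ dm a) := by
      (repeat' (first | with_reducible exact IntF.id | with_reducible exact IntF.fst' | with_reducible exact IntF.snd' | with_reducible exact IntF.const _ | with_reducible exact Int.const _ | assumption | with_reducible apply Int.and | with_reducible apply Int.or | with_reducible apply Int.not | with_reducible apply Int.imp | with_reducible apply Int.iff | with_reducible apply Int.ne | with_reducible apply Int.eq | with_reducible apply Int.mem | with_reducible apply Int.subset | with_reducible apply Int.ltN | with_reducible apply Int.leN | with_reducible apply Int.fin | with_reducible apply Int.unique | with_reducible apply Int.all | with_reducible apply Int.ex | with_reducible apply IntF.fst | with_reducible apply IntF.snd | with_reducible apply IntF.app | with_reducible apply IntF.ite | with_reducible apply IntF.sep | with_reducible apply IntF.lam | with_reducible apply IntF.insert | with_reducible apply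 IntF.singleton | with_reducible apply IntF.union | with_reducible apply IntF.inter | with_reducible apply IntF.sdiff | with_reducible apply IntF.isUnion | with_reducible apply IntF.iimage | with_reducible apply IntF.the | with_reducible apply IntF.irec | with_reducible_and_instances apply IntF.add | with_reducible_and_instances apply IntF.mul | with_reducible apply IntF.succ | with_reducible apply IntF.val | (with_reducible refine Int.comp ?_ ?_; assumption) | (with_reducible refine Int.comp₂ ?_ ?_ ?_; assumption) | (with_reducible refine Int.comp₃ ?_ ?_ ?_ ?_; assumption) | (with_reducible refine IntF.comp ?_ ?_; assumption) | (with_reducible refine IntF.comp₂ ?_ ?_ ?_; assumption) | (with_reducible refine IntF.comp₃ ?_ ?_ ?_ ?_; assumption) | with_reducible apply IntF.pair))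
    obtain ⟨x, hx, hx', hx''⟩ := hR.2.2.2.2 (sep M fun a => ¬ dm a) ⟨a, (mem_sep hI).2 ha', ha⟩
    have hxd := (mem_sep hI).1 hx
    refine ⟨x, hx', hxd, fun b => ⟨fun hb => ?_, fun hb => ?_⟩⟩
    · rcases hR.2.2.2.1 b x (h1 b hb) hx' with h | h
      · refine ⟨h, ?_⟩
        rintro rfl
        exact hxd hb
      · exact absurd (h2 b x hb h) hxd
    · by_contra hbd
      have h3 := hx'' b ((mem_sep hI).2 hbd) ((hR.1 _ _ hb.1).1)
      exact hb.2 (hR.2.1 _ _ hb.1 h3)

end

theorem t_H2 : S_H2'.{u} := by
  intro hH1 M _ _ σ _ R S hR hS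
  have hr : IntF M (fun q : IPow M (σ × σ) × σ => rst q.1 q.2) := int_rst
  have hi : Int M (fun q : (IPow M (σ × σ) × IPow M (σ × σ)) × IPow M (σ × σ) =>
    Iso q.1.1 q.1.2 q.2) := int_Iso
  have hI : Int M (fun q : σ × σ => (q.1, q.1) ∈ R ∧ (q.2, q.2) ∈ S ∧
      ∃ f, Iso (rst R q.1) (rst S q.2) f) := by
    (repeat' (first | with_reducible exact IntF.id | with_reducible exact IntF.fst' | with_reducible exact IntF.snd' | with_reducible exact IntF.const _ | with_reducible exact Int.const _ | assumption | with_reducible apply Int.and | with_reducible apply Int.or | with_reducible apply Int.not | with_reducible apply Int.imp | with_reducible apply Int.iff | with_reducible apply Int.ne | with_reducible apply Int.eq | with_reducible apply Int.mem | with_reducible apply Int.subset | with_reducible apply Int.ltN | with_reducible apply Int.leN | with_reducible apply Int.fin | with_reducible apply Int.unique | with_reducible apply Int.all | with_reducible apply Int.ex | with_reducible apply IntF.fst | with_reducible apply IntF.snd | with_reducible apply IntF.app | with_reducible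 apply IntF.ite | with_reducible apply IntF.sep | with_reducible apply IntF.lam | with_reducible apply IntF.insert | with_reducible apply IntF.singleton | with_reducible apply IntF.union | with_reducible apply IntF.inter | with_reducible apply IntF.sdiff | with_reducible apply IntF.isUnion | with_reducible apply IntF.iimage | with_reducible apply IntF.the | with_reducible apply IntF.irec | with_reducible_and_instances apply IntF.add | with_reducible_and_instances apply IntF.mul | with_reducible apply IntF.succ | with_reducible apply IntF.val | (with_reducible refine Int.comp ?_ ?_; assumption) | (with_reducible refine Int.comp₂ ?_ ?_ ?_; assumption) | (with_reducible refine Int.comp₃ ?_ ?_ ?_ ?_; assumption) | (with_reducible refine IntF.comp ?_ ?_; assumption) | (with_reducible refine IntF.comp₂ ?_ ?_ ?_; assumption) | (with_reducible refine IntF.comp₃ ?_ ?_ ?_ ?_; assumption) | with_reducible apply IntF.pair))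
  obtain ⟨g, hg⟩ : ∃ g : IPow M (σ × σ), ∀ x y, (x, y) ∈ g ↔ (x, x) ∈ R ∧ (y, y) ∈ S ∧
      ∃ f, Iso (rst R x) (rst S y) f := ⟨_, fun x y => mem_sep hI⟩
  have hfn : ∀ x y y', (x, y) ∈ g → (x, y') ∈ g → y = y' := by
    intro x y y' h1 h2
    obtain ⟨k1, k2, f, hf⟩ := (hg x y).1 h1
    obtain ⟨l1, l2, f', hf'⟩ := (hg x y').1 h2
    obtain ⟨f'', hf''⟩ := iso_symm hf
    exact seg_unique hH1 hS k2 l2 (iso_comp hf'' hf')
  have hinj : ∀ x x' y, (x, y) ∈ g → (x', y) ∈ g → x = x' := by
    intro x x' y h1 h2
    obtain ⟨k1, k2, f, hf⟩ := (hg x y).1 h1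
    obtain ⟨l1, l2, f', hf'⟩ := (hg x' y).1 h2
    obtain ⟨f'', hf''⟩ := iso_symm hf'
    exact seg_unique hH1 hR k1 l1 (iso_comp hf hf'')
  have hdn : ∀ x y x', (x, y) ∈ g → (x', x) ∈ R → x' ≠ x → ∃ z, (x', z) ∈ g ∧ (z, y) ∈ S := by
    intro x y x' h1 h2 h3
    obtain ⟨k1, k2, f, hf⟩ := (hg x y).1 h1
    have k3 := (hR.1 _ _ h2).1
    obtain ⟨z, hz⟩ := hf.2.1 x' (mem_rst.2 ⟨k3, h2, h3, h2, h3⟩)
    obtain ⟨l1, l2, l3, l4, l5⟩ := mem_rst.1 (hf.1 x' z hz).2
    obtain ⟨f', hf'⟩ := iso_rst (isW_rst hR x) (isW_rst hS y) hf hz
    rw [rst_rst hR h2 h3, rst_rst hS l2 l3] at hf'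
    exact ⟨z, (hg x' z).2 ⟨k3, l1, f', hf'⟩, l2⟩
  have hup : ∀ x y y', (x, y) ∈ g → (y', y) ∈ S → y' ≠ y → ∃ z, (z, y') ∈ g ∧ (z, x) ∈ R := by
    intro x y y' h1 h2 h3
    obtain ⟨k1, k2, f, hf⟩ := (hg x y).1 h1
    have k3 := (hS.1 _ _ h2).1
    obtain ⟨z, hz⟩ := hf.2.2.1 y' (mem_rst.2 ⟨k3, h2, h3, h2, h3⟩)
    obtain ⟨l1, l2, l3, l4, l5⟩ := mem_rst.1 (hf.1 z y' hz).1
    obtain ⟨f', hf'⟩ := iso_rst (isW_rst hR x) (isW_rst hS y) hf hz
    rw [rst_rst hR l2 l3, rst_rst hS h2 h3] at hf'
    exact ⟨z, (hg z y').2 ⟨l1, k3, f', hf'⟩, l2⟩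
  have hor : ∀ x y x' y', (x, y) ∈ g → (x', y') ∈ g → ((x, x') ∈ R ↔ (y, y') ∈ S) := by
    intro x y x' y' h1 h2
    have a1 := ((hg x y).1 h1).1
    have a2 := ((hg x y).1 h1).2.1
    have b1 := ((hg x' y').1 h2).1
    have b2 := ((hg x' y').1 h2).2.1
    constructor
    · intro h3
      by_cases h4 : x = x'
      · subst h4
        rw [hfn _ _ _ h2 h1]
        exact a2
      · obtain ⟨z, hz, hz'⟩ := hdn x' y' x h2 h3 h4
        rw [hfn _ _ _ h1 hz]
        exact hz'
    · intro h3
      by_cases h4 : y = y'
      · subst h4
        rw [hinj _ _ _ h2 h1]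
        exact a1
      · obtain ⟨z, hz, hz'⟩ := hup x' y' y h2 h3 h4
        rw [hinj _ _ _ h1 hz]
        exact hz'
  have hI1 : Int M (fun a : σ => ∃ b, (a, b) ∈ g) := by
    (repeat' (first | with_reducible exact IntF.id | with_reducible exact IntF.fst' | with_reducible exact IntF.snd' | with_reducible exact IntF.const _ | with_reducible exact Int.const _ | assumption | with_reducible apply Int.and | with_reducible apply Int.or | with_reducible apply Int.not | with_reducible apply Int.imp | with_reducible apply Int.iff | with_reducible apply Int.ne | with_reducible apply Int.eq | with_reducible apply Int.mem | with_reducible apply Int.subset | with_reducible apply Int.ltN | with_reducible apply Int.leN | with_reducible apply Int.fin | with_reducible apply Int.unique | with_reducible apply Int.all | with_reducible apply Int.ex | with_reducible apply IntF.fst | with_reducible apply IntF.snd | with_reducible apply IntF.app | with_reducible apply IntF.ite | with_reducible apply IntF.sep | with_reducible apply IntF.lam | with_reducible apply IntF.insert | with_reducible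 apply IntF.singleton | with_reducible apply IntF.union | with_reducible apply IntF.inter | with_reducible apply IntF.sdiff | with_reducible apply IntF.isUnion | with_reducible apply IntF.iimage | with_reducible apply IntF.the | with_reducible apply IntF.irec | with_reducible_and_instances apply IntF.add | with_reducible_and_instances apply IntF.mul | with_reducible apply IntF.succ | with_reducible apply IntF.val | (with_reducible refine Int.comp ?_ ?_; assumption) | (with_reducible refine Int.comp₂ ?_ ?_ ?_; assumption) | (with_reducible refine Int.comp₃ ?_ ?_ ?_ ?_; assumption) | (with_reducible refine IntF.comp ?_ ?_; assumption) | (with_reducible refine IntF.comp₂ ?_ ?_ ?_; assumption) | (with_reducible refine IntF.comp₃ ?_ ?_ ?_ ?_; assumption) | with_reducible apply IntF.pair))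
  have hI2 : Int M (fun b : σ => ∃ a, (a, b) ∈ g) := by
    (repeat' (first | with_reducible exact IntF.id | with_reducible exact IntF.fst' | with_reducible exact IntF.snd' | with_reducible exact IntF.const _ | with_reducible exact Int.const _ | assumption | with_reducible apply Int.and | with_reducible apply Int.or | with_reducible apply Int.not | with_reducible apply Int.imp | with_reducible apply Int.iff | with_reducible apply Int.ne | with_reducible apply Int.eq | with_reducible apply Int.mem | with_reducible apply Int.subset | with_reducible apply Int.ltN | with_reducible apply Int.leN | with_reducible apply Int.fin | with_reducible apply Int.unique | with_reducible apply Int.all | with_reducible apply Int.ex | with_reducible apply IntF.fst | with_reducible apply IntF.snd | with_reducible apply IntF.app | with_reducible apply IntF.ite | with_reducible apply IntF.sep | with_reducible apply IntF.lam | with_reducible apply IntF.insert | with_reducible apply IntF.singleton | with_reducible apply IntF.union | with_reducible apply IntF.inter | with_reducible apply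 IntF.sdiff | with_reducible apply IntF.isUnion | with_reducible apply IntF.iimage | with_reducible apply IntF.the | with_reducible apply IntF.irec | with_reducible_and_instances apply IntF.add | with_reducible_and_instances apply IntF.mul | with_reducible apply IntF.succ | with_reducible apply IntF.val | (with_reducible refine Int.comp ?_ ?_; assumption) | (with_reducible refine Int.comp₂ ?_ ?_ ?_; assumption) | (with_reducible refine Int.comp₃ ?_ ?_ ?_ ?_; assumption) | (with_reducible refine IntF.comp ?_ ?_; assumption) | (with_reducible refine IntF.comp₂ ?_ ?_ ?_; assumption) | (with_reducible refine IntF.comp₃ ?_ ?_ ?_ ?_; assumption) | with_reducible apply IntF.pair))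
  have hD := seg_cases hR hI1 (fun a ⟨b, hb⟩ => ((hg a b).1 hb).1) (fun a a' ⟨b, hb⟩ h => by
    by_cases hne : a' = a
    · rw [hne]; exact ⟨b, hb⟩
    · obtain ⟨z, hz, -⟩ := hdn a b a' hb h hne
      exact ⟨z, hz⟩)
  have hE := seg_cases hS hI2 (fun b ⟨a, ha⟩ => ((hg a b).1 ha).2.1) (fun b b' ⟨a, ha⟩ h => by
    by_cases hne : b' = b
    · rw [hne]; exact ⟨a, ha⟩
    · obtain ⟨z, hz, -⟩ := hup a b b' ha h hne
      exact ⟨z, hz⟩)
  -- the general statement
  have key : ∀ R' S' : IPow M (σ × σ),
      (∀ a b, (a, b) ∈ R' ↔ (a, b) ∈ R ∧ (∃ c, (a, c) ∈ g) ∧ ∃ c, (b, c) ∈ g) →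
      (∀ a b, (a, b) ∈ S' ↔ (a, b) ∈ S ∧ (∃ c, (c, a) ∈ g) ∧ ∃ c, (c, b) ∈ g) → Iso R' S' g := by
    intro R' S' h1 h2
    refine ⟨?_, ?_, ?_, ?_⟩
    · intro a b hab
      have := (hg a b).1 hab
      exact ⟨(h1 a a).2 ⟨this.1, ⟨b, hab⟩, ⟨b, hab⟩⟩, (h2 b b).2 ⟨this.2.1, ⟨a, hab⟩, ⟨a, hab⟩⟩⟩
    · intro a ha
      exact ((h1 a a).1 ha).2.1
    · intro b hb
      exact ((h2 b b).1 hb).2.1
    · intro a b a' b' hab hab'
      rw [h1, h2, hor a b a' b' hab hab']
      constructor
      · rintro ⟨h, -⟩
        exact ⟨h, ⟨a, hab⟩, ⟨a', hab'⟩⟩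
      · rintro ⟨h, -⟩
        exact ⟨h, ⟨b, hab⟩, ⟨b', hab'⟩⟩
  have full : ∀ (R : IPow M (σ × σ)) (dm : σ → Prop), IsW R → (∀ a, (a, a) ∈ R → dm a) →
      ∀ a b, (a, b) ∈ R ↔ (a, b) ∈ R ∧ dm a ∧ dm b := by
    intro R dm hR h a b
    exact ⟨fun h1 => ⟨h1, h a (hR.1 _ _ h1).1, h b (hR.1 _ _ h1).2⟩, fun h1 => h1.1⟩
  have part : ∀ (R : IPow M (σ × σ)) (dm : σ → Prop) (x : σ), IsW R →
      (∀ a, dm a ↔ ((a, x) ∈ R ∧ a ≠ x)) →
      ∀ a b, (a, b) ∈ rst R x ↔ (a, b) ∈ R ∧ dm a ∧ dm b := by
    intro R dm x hR h a b
    rw [mem_rst, h a, h b]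
    constructor
    · rintro ⟨h1, h2, h3, h4, h5⟩
      exact ⟨h1, ⟨h2, h3⟩, h4, h5⟩
    · rintro ⟨h1, ⟨h2, h3⟩, h4, h5⟩
      exact ⟨h1, h2, h3, h4, h5⟩
  rcases hD with hD | ⟨x, hx, hxd, hD⟩
  · rcases hE with hE | ⟨y, hy, hyd, hE⟩
    · exact Or.inl ⟨g, key R S (full R _ hR hD) (full S _ hS hE)⟩
    · exact Or.inr (Or.inl ⟨g, y, hy, key R _ (full R _ hR hD) (part S _ y hS hE)⟩)
  · rcases hE with hE | ⟨y, hy, hyd, hE⟩
    · exact Or.inr (Or.inr ⟨g, x, hx, key _ S (part R _ x hR hD) (full S _ hS hE)⟩)
    · exact absurd ⟨y, (hg x y).2 ⟨hx, hy, g, key _ _ (part R _ x hR hD) (part S _ y hS hE)⟩⟩ hxd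

end Pool.Agent.Q222.ZE
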