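import Pool.Agent.Q212.ZE.Stm

/-!
# Project ZE: recursion, lexicographic products, finitely supported functions
(jobs REC, KWO, JWO, RR)
-/

set_option maxHeartbeats 400000
set_option linter.all false

namespace Pool.Agent.Q222.ZE

open FirstOrder FirstOrder.Language
open Pool.Agent.Helper672.ZFA
open Pool.Agent.H310
open Pool.Agent.Q212.ZA
open Pool.Agent.Q212.ZE
open Pool.Agent.Q212.ZD (IWO)

universe u

theorem t_REC : S_REC.{u} := by
  intro M _ _ κ τ _ _ hne lt hlt G hG hloc
  obtain ⟨d⟩ := hne
  have hl : Int M (fun q : κ × κ => lt q.1 q.2) := hlt.int
  have hI : Int M (fun q : κ × τ => ∃ t : IFun M κ τ, (∀ i, lt i q.1 → t i = G i t) ∧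
      q.2 = G q.1 t) := by
    (repeat' (first | with_reducible exact IntF.id | with_reducible exact IntF.fst' | with_reducible exact IntF.snd' | with_reducible exact IntF.const _ | with_reducible exact Int.const _ | assumption | with_reducible apply Int.and | with_reducible apply Int.or | with_reducible apply Int.not | with_reducible apply Int.imp | with_reducible apply Int.iff | with_reducible apply Int.ne | with_reducible apply Int.eq | with_reducible apply Int.mem | with_reducible apply Int.subset | with_reducible apply Int.ltN | with_reducible apply Int.leN | with_reducible apply Int.fin | with_reducible apply Int.unique | with_reducible apply Int.all | with_reducible apply Int.ex | with_reducible apply IntF.fst | with_reducible apply IntF.snd | with_reducible apply IntF.app | with_reducible apply IntF.ite | with_reducible apply IntF.sep | with_reducible apply IntF.lam | with_reducible apply IntF.insert | with_reducible apply IntF.singleton | with_reducible apply IntF.union | with_reducible apply IntF.inter | with_reducible apply IntF.sdiff | with_reducible apply IntF.isUnion | with_reducible apply IntF.iimage | with_reducible apply IntF.the | with_reducible apply IntF.irec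 | with_reducible_and_instances apply IntF.add | with_reducible_and_instances apply IntF.mul | with_reducible apply IntF.succ | with_reducible apply IntF.val | (with_reducible refine Int.comp ?_ ?_; assumption) | (with_reducible refine Int.comp₂ ?_ ?_ ?_; assumption) | (with_reducible refine Int.comp₃ ?_ ?_ ?_ ?_; assumption) | (with_reducible refine IntF.comp ?_ ?_; assumption) | (with_reducible refine IntF.comp₂ ?_ ?_ ?_; assumption) | (with_reducible refine IntF.comp₃ ?_ ?_ ?_ ?_; assumption) | with_reducible apply IntF.pair))
  have hef : IntF M (fun j : κ => the (fun s => ∃ t : IFun M κ τ, (∀ i, lt i j → t i = G i t) ∧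
      s = G j t) d) := IntF.the hI (IntF.const d)
  have hag : ∀ (t t' : IFun M κ τ) j, (∀ i, lt i j → t i = G i t) →
      (∀ i, lt i j → t' i = G i t') → ∀ i, lt i j → t i = t' i := by
    intro t t' j h h' i hi
    by_contra hc
    have hJ : Int M (fun i => lt i j ∧ t i ≠ t' i) := by
      (repeat' (first | with_reducible exact IntF.id | with_reducible exact IntF.fst' | with_reducible exact IntF.snd' | with_reducible exact IntF.const _ | with_reducible exact Int.const _ | assumption | with_reducible apply Int.and | with_reducible apply Int.or | with_reducible apply Int.not | with_reducible apply Int.imp | with_reducible apply Int.iff | with_reducible apply Int.ne | with_reducible apply Int.eq | with_reducible apply Int.mem | with_reducible apply Int.subset | with_reducible apply Int.ltN | with_reducible apply Int.leN | with_reducible apply Int.fin | with_reducible apply Int.unique | with_reducible apply Int.all | with_reducible apply Int.ex | with_reducible apply IntF.fst | with_reducible apply IntF.snd | with_reducible apply IntF.app | with_reducible apply IntF.ite | with_reducible apply IntF.sep | with_reducible apply IntF.lam | with_reducible apply IntF.insert | with_reducible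 apply IntF.singleton | with_reducible apply IntF.union | with_reducible apply IntF.inter | with_reducible apply IntF.sdiff | with_reducible apply IntF.isUnion | with_reducible apply IntF.iimage | with_reducible apply IntF.the | with_reducible apply IntF.irec | with_reducible_and_instances apply IntF.add | with_reducible_and_instances apply IntF.mul | with_reducible apply IntF.succ | with_reducible apply IntF.val | (with_reducible refine Int.comp ?_ ?_; assumption) | (with_reducible refine Int.comp₂ ?_ ?_ ?_; assumption) | (with_reducible refine Int.comp₃ ?_ ?_ ?_ ?_; assumption) | (with_reducible refine IntF.comp ?_ ?_; assumption) | (with_reducible refine IntF.comp₂ ?_ ?_ ?_; assumption) | (with_reducible refine IntF.comp₃ ?_ ?_ ?_ ?_; assumption) | with_reducible apply IntF.pair))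
    obtain ⟨k, ⟨hk, hk'⟩, hmin⟩ := hlt.min _ hJ ⟨i, hi, hc⟩
    apply hk'
    rw [h k hk, h' k hk]
    apply hloc
    intro i hi
    by_contra hc
    exact hmin i ⟨hlt.tr _ _ _ hi hk, hc⟩ hi
  obtain ⟨e, he⟩ : ∃ e : IFun M κ τ, ∀ j, e j = the (fun s => ∃ t : IFun M κ τ,
      (∀ i, lt i j → t i = G i t) ∧ s = G j t) d := ⟨⟨_, hef⟩, fun _ => rfl⟩
  refine ⟨e, fun j => ?_⟩
  by_contra hc
  have hJ : Int M (fun j => e j ≠ G j e) := by
    (repeat' (first | with_reducible exact IntF.id | with_reducible exact IntF.fst' | with_reducible exact IntF.snd' | with_reducible exact IntF.const _ | with_reducible exact Int.const _ | assumption | with_reducible apply Int.and | with_reducible apply Int.or | with_reducible apply Int.not | with_reducible apply Int.imp | with_reducible apply Int.iff | with_reducible apply Int.ne | with_reducible apply Int.eq | with_reducible apply Int.mem | with_reducible apply Int.subset | with_reducible apply Int.ltN | with_reducible apply Int.leN | with_reducible apply Int.fin | with_reducible apply Int.unique | with_reducible apply Int.all | with_reducible apply Int.ex | with_reducible apply IntF.fst | with_reducible apply IntF.snd | with_reducible apply IntF.app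 | with_reducible apply IntF.ite | with_reducible apply IntF.sep | with_reducible apply IntF.lam | with_reducible apply IntF.insert | with_reducible apply IntF.singleton | with_reducible apply IntF.union | with_reducible apply IntF.inter | with_reducible apply IntF.sdiff | with_reducible apply IntF.isUnion | with_reducible apply IntF.iimage | with_reducible apply IntF.the | with_reducible apply IntF.irec | with_reducible_and_instances apply IntF.add | with_reducible_and_instances apply IntF.mul | with_reducible apply IntF.succ | with_reducible apply IntF.val | (with_reducible refine Int.comp ?_ ?_; assumption) | (with_reducible refine Int.comp₂ ?_ ?_ ?_; assumption) | (with_reducible refine Int.comp₃ ?_ ?_ ?_ ?_; assumption) | (with_reducible refine IntF.comp ?_ ?_; assumption) | (with_reducible refine IntF.comp₂ ?_ ?_ ?_; assumption) | (with_reducible refine IntF.comp₃ ?_ ?_ ?_ ?_; assumption) | with_reducible apply IntF.pair))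
  obtain ⟨k, hk, hmin⟩ := hlt.min _ hJ ⟨j, hc⟩
  apply hk
  have hbel : ∀ i, lt i k → e i = G i e := by
    intro i hi
    by_contra hc
    exact hmin i hc hi
  rw [he]
  refine the_eq ⟨G k e, ⟨e, hbel, rfl⟩, ?_⟩ ⟨e, hbel, rfl⟩
  rintro s ⟨t, ht, rfl⟩
  exact hloc k t e (hag t e k ht hbel)

theorem t_KWO : S_KWO.{u} := by
  intro M _ _ κ δ _ _ lt lt' h h'
  have hl : Int M (fun q : κ × κ => lt q.1 q.2) := h.int
  have hl' : Int M (fun q : δ × δ => lt' q.1 q.2) := h'.int
  refine ⟨?_, ?_, ?_, ?_, ?_⟩
  · unfold prodLT
    (repeat' (first | with_reducible exact IntF.id | with_reducible exact IntF.fst' | with_reducible exact IntF.snd' | with_reducible exact IntF.const _ | with_reducible exact Int.const _ | assumption | with_reducible apply Int.and | with_reducible apply Int.or | with_reducible apply Int.not | with_reducible apply Int.imp | with_reducible apply Int.iff | with_reducible apply Int.ne | with_reducible apply Int.eq | with_reducible apply Int.mem | with_reducible apply Int.subset | with_reducible apply Int.ltN | with_reducible apply Int.leN | with_reducible apply Int.fin | with_reducible apply Int.unique | with_reducible apply Int.all | with_reducible apply Int.ex |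 with_reducible apply IntF.fst | with_reducible apply IntF.snd | with_reducible apply IntF.app | with_reducible apply IntF.ite | with_reducible apply IntF.sep | with_reducible apply IntF.lam | with_reducible apply IntF.insert | with_reducible apply IntF.singleton | with_reducible apply IntF.union | with_reducible apply IntF.inter | with_reducible apply IntF.sdiff | with_reducible apply IntF.isUnion | with_reducible apply IntF.iimage | with_reducible apply IntF.the | with_reducible apply IntF.irec | with_reducible_and_instances apply IntF.add | with_reducible_and_instances apply IntF.mul | with_reducible apply IntF.succ | with_reducible apply IntF.val | (with_reducible refine Int.comp ?_ ?_; assumption) | (with_reducible refine Int.comp₂ ?_ ?_ ?_; assumption) | (with_reducible refine Int.comp₃ ?_ ?_ ?_ ?_; assumption) | (with_reducible refine IntF.comp ?_ ?_; assumption) | (with_reducible refine IntF.comp₂ ?_ ?_ ?_; assumption) | (with_reducible refine IntF.comp₃ ?_ ?_ ?_ ?_; assumption) | with_reducible apply IntF.pair))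
  · rintro ⟨a, b⟩ (h1 | ⟨-, h1⟩)
    · exact h.irr _ h1
    · exact h'.irr _ h1
  · rintro ⟨a, b⟩ ⟨c, d⟩ ⟨e, f⟩ (h1 | ⟨h1, h2⟩) (h3 | ⟨h3, h4⟩)
    · exact Or.inl (h.tr _ _ _ h1 h3)
    · simp only at h3
      subst h3
      exact Or.inl h1
    · simp only at h1
      subst h1
      exact Or.inl h3
    · simp only at h1 h3
      subst h1 h3
      exact Or.inr ⟨rfl, h'.tr _ _ _ h2 h4⟩
  · rintro ⟨a, b⟩ ⟨c, d⟩
    rcases h.tri a c with h1 | rfl | h1
    · exact Or.inl (Or.inl h1)
    · rcases h'.tri b d with h2 | rfl | h2
      · exact Or.inl (Or.inr ⟨rfl, h2⟩)
      · exact Or.inr (Or.inl rfl)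
      · exact Or.inr (Or.inr (Or.inr ⟨rfl, h2⟩))
    · exact Or.inr (Or.inr (Or.inl h1))
  · rintro p hp ⟨⟨a₀, b₀⟩, h0⟩
    have hp1 : Int M (fun a : κ => ∃ b, p (a, b)) := by
      (repeat' (first | with_reducible exact IntF.id | with_reducible exact IntF.fst' | with_reducible exact IntF.snd' | with_reducible exact IntF.const _ | with_reducible exact Int.const _ | assumption | with_reducible apply Int.and | with_reducible apply Int.or | with_reducible apply Int.not | with_reducible apply Int.imp | with_reducible apply Int.iff | with_reducible apply Int.ne | with_reducible apply Int.eq | with_reducible apply Int.mem | with_reducible apply Int.subset | with_reducible apply Int.ltN | with_reducible apply Int.leN | with_reducible apply Int.fin | with_reducible apply Int.unique | with_reducible apply Int.all | with_reducible apply Int.ex | with_reducible apply IntF.fst | with_reducible apply IntF.snd | with_reducible apply IntF.app | with_reducible apply IntF.ite | with_reducible apply IntF.sep | with_reducible apply IntF.lam | with_reducible apply IntF.insert | with_reducible apply IntF.singleton | with_reducible apply IntF.union | with_reducible apply IntF.inter | with_reducible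 apply IntF.sdiff | with_reducible apply IntF.isUnion | with_reducible apply IntF.iimage | with_reducible apply IntF.the | with_reducible apply IntF.irec | with_reducible_and_instances apply IntF.add | with_reducible_and_instances apply IntF.mul | with_reducible apply IntF.succ | with_reducible apply IntF.val | (with_reducible refine Int.comp ?_ ?_; assumption) | (with_reducible refine Int.comp₂ ?_ ?_ ?_; assumption) | (with_reducible refine Int.comp₃ ?_ ?_ ?_ ?_; assumption) | (with_reducible refine IntF.comp ?_ ?_; assumption) | (with_reducible refine IntF.comp₂ ?_ ?_ ?_; assumption) | (with_reducible refine IntF.comp₃ ?_ ?_ ?_ ?_; assumption) | with_reducible apply IntF.pair))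
    obtain ⟨a, ⟨b₁, hb₁⟩, ha⟩ := h.min _ hp1 ⟨a₀, b₀, h0⟩
    have hp2 : Int M (fun b : δ => p (a, b)) := by
      (repeat' (first | with_reducible exact IntF.id | with_reducible exact IntF.fst' | with_reducible exact IntF.snd' | with_reducible exact IntF.const _ | with_reducible exact Int.const _ | assumption | with_reducible apply Int.and | with_reducible apply Int.or | with_reducible apply Int.not | with_reducible apply Int.imp | with_reducible apply Int.iff | with_reducible apply Int.ne | with_reducible apply Int.eq | with_reducible apply Int.mem | with_reducible apply Int.subset | with_reducible apply Int.ltN | with_reducible apply Int.leN | with_reducible apply Int.fin | with_reducible apply Int.unique | with_reducible apply Int.all | with_reducible apply Int.ex | with_reducible apply IntF.fst | with_reducible apply IntF.snd | with_reducible apply IntF.app | with_reducible apply IntF.ite | with_reducible apply IntF.sep | with_reducible apply IntF.lam | with_reducible apply IntF.insert | with_reducible apply IntF.singleton | with_reducible apply IntF.union | with_reducible apply IntF.inter | with_reducible apply IntF.sdiff | with_reducible apply IntF.isUnion | with_reducible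 apply IntF.iimage | with_reducible apply IntF.the | with_reducible apply IntF.irec | with_reducible_and_instances apply IntF.add | with_reducible_and_instances apply IntF.mul | with_reducible apply IntF.succ | with_reducible apply IntF.val | (with_reducible refine Int.comp ?_ ?_; assumption) | (with_reducible refine Int.comp₂ ?_ ?_ ?_; assumption) | (with_reducible refine Int.comp₃ ?_ ?_ ?_ ?_; assumption) | (with_reducible refine IntF.comp ?_ ?_; assumption) | (with_reducible refine IntF.comp₂ ?_ ?_ ?_; assumption) | (with_reducible refine IntF.comp₃ ?_ ?_ ?_ ?_; assumption) | with_reducible apply IntF.pair))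
    obtain ⟨b, hb, hb'⟩ := h'.min _ hp2 ⟨b₁, hb₁⟩
    refine ⟨(a, b), hb, ?_⟩
    rintro ⟨c, d⟩ hcd (h1 | ⟨h1, h2⟩)
    · exact ha c ⟨d, hcd⟩ h1
    · simp only at h1
      subst h1
      exact hb' d hcd h2

section

variable {M : Type u} [L.Structure M] [hM : IsModel M]
variable {δ : Type u} [ITy M δ] {lt : δ → δ → Prop}

theorem int_supp (g : IFun M δ (INat M)) : Int M (fun x : δ => g x ≠ 0) := by
  (repeat' (first | with_reducible exact IntF.id | with_reducible exact IntF.fst' | with_reducible exact IntF.snd' | with_reducible exact IntF.const _ | with_reducible exact Int.const _ | assumption | with_reducible apply Int.and | with_reducible apply Int.or | with_reducible apply Int.not | with_reducible apply Int.imp | with_reducible apply Int.iff | with_reducible apply Int.ne | with_reducible apply Int.eq | with_reducible apply Int.mem | with_reducible apply Int.subset | with_reducible apply Int.ltN | with_reducible apply Int.leN | with_reducible apply Int.fin | with_reducible apply Int.unique | with_reducible apply Int.all | with_reducible apply Int.ex | with_reducible apply IntF.fst | with_reducible apply IntF.snd | with_reducible apply IntF.app | with_reducible apply IntF.ite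 | with_reducible apply IntF.sep | with_reducible apply IntF.lam | with_reducible apply IntF.insert | with_reducible apply IntF.singleton | with_reducible apply IntF.union | with_reducible apply IntF.inter | with_reducible apply IntF.sdiff | with_reducible apply IntF.isUnion | with_reducible apply IntF.iimage | with_reducible apply IntF.the | with_reducible apply IntF.irec | with_reducible_and_instances apply IntF.add | with_reducible_and_instances apply IntF.mul | with_reducible apply IntF.succ | with_reducible apply IntF.val | (with_reducible refine Int.comp ?_ ?_; assumption) | (with_reducible refine Int.comp₂ ?_ ?_ ?_; assumption) | (with_reducible refine Int.comp₃ ?_ ?_ ?_ ?_; assumption) | (with_reducible refine IntF.comp ?_ ?_; assumption) | (with_reducible refine IntF.comp₂ ?_ ?_ ?_; assumption) | (with_reducible refine IntF.comp₃ ?_ ?_ ?_ ?_; assumption) | with_reducible apply IntF.pair))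

theorem int_ltJ (hl : Int M (fun q : δ × δ => lt q.1 q.2)) :
    Int M (fun q : Jt M δ × Jt M δ => ltJ lt q.1 q.2) := by
  unfold ltJ
  (repeat' (first | with_reducible exact IntF.id | with_reducible exact IntF.fst' | with_reducible exact IntF.snd' | with_reducible exact IntF.const _ | with_reducible exact Int.const _ | assumption | with_reducible apply Int.and | with_reducible apply Int.or | with_reducible apply Int.not | with_reducible apply Int.imp | with_reducible apply Int.iff | with_reducible apply Int.ne | with_reducible apply Int.eq | with_reducible apply Int.mem | with_reducible apply Int.subset | with_reducible apply Int.ltN | with_reducible apply Int.leN | with_reducible apply Int.fin | with_reducible apply Int.unique | with_reducible apply Int.all | with_reducible apply Int.ex | with_reducible apply IntF.fst | with_reducible apply IntF.snd | with_reducible apply IntF.app | with_reducible apply IntF.ite | with_reducible apply IntF.sep | with_reducible apply IntF.lam | with_reducible apply IntF.insert | with_reducible apply IntF.singleton | with_reducible apply IntF.union | with_reducible apply IntF.inter | with_reducible apply IntF.sdiff | with_reducible apply IntF.isUnion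 | with_reducible apply IntF.iimage | with_reducible apply IntF.the | with_reducible apply IntF.irec | with_reducible_and_instances apply IntF.add | with_reducible_and_instances apply IntF.mul | with_reducible apply IntF.succ | with_reducible apply IntF.val | (with_reducible refine Int.comp ?_ ?_; assumption) | (with_reducible refine Int.comp₂ ?_ ?_ ?_; assumption) | (with_reducible refine Int.comp₃ ?_ ?_ ?_ ?_; assumption) | (with_reducible refine IntF.comp ?_ ?_; assumption) | (with_reducible refine IntF.comp₂ ?_ ?_ ?_; assumption) | (with_reducible refine IntF.comp₃ ?_ ?_ ?_ ?_; assumption) | with_reducible apply IntF.pair))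

/-- The largest element of the support. -/
theorem exists_top (h : IWO M lt) {g : Jt M δ} (hg : ∃ x, g.1 x ≠ 0) : ∃ ξ, Top lt g ξ := by
  have hl : Int M (fun q : δ × δ => lt q.1 q.2) := h.int
  have hrev : Int M (fun q : δ × δ => lt q.2 q.1) := by
    (repeat' (first | with_reducible exact IntF.id | with_reducible exact IntF.fst' | with_reducible exact IntF.snd' | with_reducible exact IntF.const _ | with_reducible exact Int.const _ | assumption | with_reducible apply Int.and | with_reducible apply Int.or | with_reducible apply Int.not | with_reducible apply Int.imp | with_reducible apply Int.iff | with_reducible apply Int.ne | with_reducible apply Int.eq | with_reducible apply Int.mem | with_reducible apply Int.subset | with_reducible apply Int.ltN | with_reducible apply Int.leN | with_reducible apply Int.fin | with_reducible apply Int.unique | with_reducible apply Int.all | with_reducible apply Int.ex | with_reducible apply IntF.fst | with_reducible apply IntF.snd | with_reducible apply IntF.app | with_reducible apply IntF.ite | with_reducible apply IntF.sep | with_reducible apply IntF.lam | with_reducible apply IntF.insert | with_reducible apply IntF.singleton | with_reducible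 apply IntF.union | with_reducible apply IntF.inter | with_reducible apply IntF.sdiff | with_reducible apply IntF.isUnion | with_reducible apply IntF.iimage | with_reducible apply IntF.the | with_reducible apply IntF.irec | with_reducible_and_instances apply IntF.add | with_reducible_and_instances apply IntF.mul | with_reducible apply IntF.succ | with_reducible apply IntF.val | (with_reducible refine Int.comp ?_ ?_; assumption) | (with_reducible refine Int.comp₂ ?_ ?_ ?_; assumption) | (with_reducible refine Int.comp₃ ?_ ?_ ?_ ?_; assumption) | (with_reducible refine IntF.comp ?_ ?_; assumption) | (with_reducible refine IntF.comp₂ ?_ ?_ ?_; assumption) | (with_reducible refine IntF.comp₃ ?_ ?_ ?_ ?_; assumption) | with_reducible apply IntF.pair))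
  obtain ⟨x, hx⟩ := hg
  obtain ⟨ξ, h1, h2⟩ := IFin.exists_min (lt := fun a b => lt b a) hrev (fun a => h.irr a)
    (fun a b c k k' => h.tr _ _ _ k' k) g.2 ⟨x, (mem_sep (int_supp g.1)).2 hx⟩
  refine ⟨ξ, (mem_sep (int_supp g.1)).1 h1, fun y hy => ?_⟩
  by_contra hc
  exact h2 y ((mem_sep (int_supp g.1)).2 hc) hy

theorem int_upd (x : δ) : IntF M (fun q : (IFun M δ (INat M) × INat M) × δ =>
    open Classical in if q.2 = x then q.1.2 else q.1.1 q.2) := by
  classical
  refine IntF.ite ?_ ?_ ?_
  · (repeat' (first | with_reducible exact IntF.id | with_reducible exact IntF.fst' | with_reducible exact IntF.snd' | with_reducible exact IntF.const _ | with_reducible exact Int.const _ | assumption | with_reducible apply Int.and | with_reducible apply Int.or | with_reducible apply Int.not | with_reducible apply Int.imp | with_reducible apply Int.iff | with_reducible apply Int.ne | with_reducible apply Int.eq | with_reducible apply Int.mem | with_reducible apply Int.subset | with_reducible apply Int.ltN | with_reducible apply Int.leN | with_reducible apply Int.fin | with_reducible apply Int.unique | with_reducible apply Int.all | with_reducible apply Int.ex | with_reducible apply IntF.fst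 | with_reducible apply IntF.snd | with_reducible apply IntF.app | with_reducible apply IntF.ite | with_reducible apply IntF.sep | with_reducible apply IntF.lam | with_reducible apply IntF.insert | with_reducible apply IntF.singleton | with_reducible apply IntF.union | with_reducible apply IntF.inter | with_reducible apply IntF.sdiff | with_reducible apply IntF.isUnion | with_reducible apply IntF.iimage | with_reducible apply IntF.the | with_reducible apply IntF.irec | with_reducible_and_instances apply IntF.add | with_reducible_and_instances apply IntF.mul | with_reducible apply IntF.succ | with_reducible apply IntF.val | (with_reducible refine Int.comp ?_ ?_; assumption) | (with_reducible refine Int.comp₂ ?_ ?_ ?_; assumption) | (with_reducible refine Int.comp₃ ?_ ?_ ?_ ?_; assumption) | (with_reducible refine IntF.comp ?_ ?_; assumption) | (with_reducible refine IntF.comp₂ ?_ ?_ ?_; assumption) | (with_reducible refine IntF.comp₃ ?_ ?_ ?_ ?_; assumption) | with_reducible apply IntF.pair))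
  · (repeat' (first | with_reducible exact IntF.id | with_reducible exact IntF.fst' | with_reducible exact IntF.snd' | with_reducible exact IntF.const _ | with_reducible exact Int.const _ | assumption | with_reducible apply Int.and | with_reducible apply Int.or | with_reducible apply Int.not | with_reducible apply Int.imp | with_reducible apply Int.iff | with_reducible apply Int.ne | with_reducible apply Int.eq | with_reducible apply Int.mem | with_reducible apply Int.subset | with_reducible apply Int.ltN | with_reducible apply Int.leN | with_reducible apply Int.fin | with_reducible apply Int.unique | with_reducible apply Int.all | with_reducible apply Int.ex | with_reducible apply IntF.fst | with_reducible apply IntF.snd | with_reducible apply IntF.app | with_reducible apply IntF.ite | with_reducible apply IntF.sep | with_reducible apply IntF.lam | with_reducible apply IntF.insert | with_reducible apply IntF.singleton | with_reducible apply IntF.union | with_reducible apply IntF.inter | with_reducible apply IntF.sdiff | with_reducible apply IntF.isUnion | with_reducible apply IntF.iimage | with_reducible apply IntF.the | with_reducible apply IntF.irec | with_reducible_and_instances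 apply IntF.add | with_reducible_and_instances apply IntF.mul | with_reducible apply IntF.succ | with_reducible apply IntF.val | (with_reducible refine Int.comp ?_ ?_; assumption) | (with_reducible refine Int.comp₂ ?_ ?_ ?_; assumption) | (with_reducible refine Int.comp₃ ?_ ?_ ?_ ?_; assumption) | (with_reducible refine IntF.comp ?_ ?_; assumption) | (with_reducible refine IntF.comp₂ ?_ ?_ ?_; assumption) | (with_reducible refine IntF.comp₃ ?_ ?_ ?_ ?_; assumption) | with_reducible apply IntF.pair))
  · (repeat' (first | with_reducible exact IntF.id | with_reducible exact IntF.fst' | with_reducible exact IntF.snd' | with_reducible exact IntF.const _ | with_reducible exact Int.const _ | assumption | with_reducible apply Int.and | with_reducible apply Int.or | with_reducible apply Int.not | with_reducible apply Int.imp | with_reducible apply Int.iff | with_reducible apply Int.ne | with_reducible apply Int.eq | with_reducible apply Int.mem | with_reducible apply Int.subset | with_reducible apply Int.ltN | with_reducible apply Int.leN | with_reducible apply Int.fin | with_reducible apply Int.unique | with_reducible apply Int.all | with_reducible apply Int.ex | with_reducible apply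 IntF.fst | with_reducible apply IntF.snd | with_reducible apply IntF.app | with_reducible apply IntF.ite | with_reducible apply IntF.sep | with_reducible apply IntF.lam | with_reducible apply IntF.insert | with_reducible apply IntF.singleton | with_reducible apply IntF.union | with_reducible apply IntF.inter | with_reducible apply IntF.sdiff | with_reducible apply IntF.isUnion | with_reducible apply IntF.iimage | with_reducible apply IntF.the | with_reducible apply IntF.irec | with_reducible_and_instances apply IntF.add | with_reducible_and_instances apply IntF.mul | with_reducible apply IntF.succ | with_reducible apply IntF.val | (with_reducible refine Int.comp ?_ ?_; assumption) | (with_reducible refine Int.comp₂ ?_ ?_ ?_; assumption) | (with_reducible refine Int.comp₃ ?_ ?_ ?_ ?_; assumption) | (with_reducible refine IntF.comp ?_ ?_; assumption) | (with_reducible refine IntF.comp₂ ?_ ?_ ?_; assumption) | (with_reducible refine IntF.comp₃ ?_ ?_ ?_ ?_; assumption) | with_reducible apply IntF.pair))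

open Classical in
theorem fin_upd (x : δ) (g : Jt M δ) (n : INat M) :
    IFin (sep M fun y => (lam M fun y => if y = x then n else g.1 y) y ≠ 0) := by
  have hI : IntF M (fun y => if y = x then n else g.1 y) :=
    IntF.slice (f := fun (q : IFun M δ (INat M) × INat M) y => if y = x then q.2 else q.1 y)
      (int_upd x) (g.1, n)
  refine IFin.subset (IFin.insert g.2 x) fun y hy => ?_
  have h1 := (mem_sep (int_supp _)).1 hy
  rw [lam_apply hI] at h1
  rw [mem_insert]
  by_cases hyx : y = x
  · exact Or.inl hyx
  · rw [if_neg hyx] at h1
    exact Or.inr ((mem_sep (int_supp g.1)).2 h1)

open Classical in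
/-- Change of one value. -/
noncomputable def upd (x : δ) (g : Jt M δ) (n : INat M) : Jt M δ :=
  ⟨lam M fun y => if y = x then n else g.1 y, fin_upd x g n⟩

open Classical in
theorem upd_apply (x : δ) (g : Jt M δ) (n : INat M) (y : δ) :
    (upd x g n).1 y = if y = x then n else g.1 y := by
  have hI : IntF M (fun y => if y = x then n else g.1 y) :=
    IntF.slice (f := fun (q : IFun M δ (INat M) × INat M) y => if y = x then q.2 else q.1 y)
      (int_upd x) (g.1, n)
  exact lam_apply hI y

theorem upd_same (x : δ) (g : Jt M δ) (n : INat M) : (upd x g n).1 x = n := by
  rw [upd_apply, if_pos rfl]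

theorem upd_ne {x y : δ} (h : y ≠ x) (g : Jt M δ) (n : INat M) : (upd x g n).1 y = g.1 y := by
  rw [upd_apply, if_neg h]

theorem int_updF (x : δ) (n : INat M) : IntF M (fun g : Jt M δ => upd x g n) := by
  classical
  refine IntF.mk ?_
  refine IntF.lam (f := fun (g : Jt M δ) y => if y = x then n else g.1 y) ?_
  have h := int_upd (M := M) x
  refine IntF.comp (g := fun q : (IFun M δ (INat M) × INat M) × δ =>
    if q.2 = x then q.1.2 else q.1.1 q.2) (f := fun q : Jt M δ × δ => ((q.1.1, n), q.2)) h ?_
  (repeat' (first | with_reducible exact IntF.id | with_reducible exact IntF.fst' | with_reducible exact IntF.snd' | with_reducible exact IntF.const _ | with_reducible exact Int.const _ | assumption | with_reducible apply Int.and | with_reducible apply Int.or | with_reducible apply Int.not | with_reducible apply Int.imp | with_reducible apply Int.iff | with_reducible apply Int.ne | with_reducible apply Int.eq | with_reducible apply Int.mem | with_reducible apply Int.subset | with_reducible apply Int.ltN | with_reducible apply Int.leN | with_reducible apply Int.fin | with_reducible apply Int.unique | with_reducible apply Int.all | with_reducible apply Int.ex | with_reducible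 apply IntF.fst | with_reducible apply IntF.snd | with_reducible apply IntF.app | with_reducible apply IntF.ite | with_reducible apply IntF.sep | with_reducible apply IntF.lam | with_reducible apply IntF.insert | with_reducible apply IntF.singleton | with_reducible apply IntF.union | with_reducible apply IntF.inter | with_reducible apply IntF.sdiff | with_reducible apply IntF.isUnion | with_reducible apply IntF.iimage | with_reducible apply IntF.the | with_reducible apply IntF.irec | with_reducible_and_instances apply IntF.add | with_reducible_and_instances apply IntF.mul | with_reducible apply IntF.succ | with_reducible apply IntF.val | (with_reducible refine Int.comp ?_ ?_; assumption) | (with_reducible refine Int.comp₂ ?_ ?_ ?_; assumption) | (with_reducible refine Int.comp₃ ?_ ?_ ?_ ?_; assumption) | (with_reducible refine IntF.comp ?_ ?_; assumption) | (with_reducible refine IntF.comp₂ ?_ ?_ ?_; assumption) | (with_reducible refine IntF.comp₃ ?_ ?_ ?_ ?_; assumption) | with_reducible apply IntF.pair))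

theorem jt_ext {g h : Jt M δ} (hh : ∀ x, g.1 x = h.1 x) : g = h := Subtype.ext (IFun.ext' hh)

/-- The claim for `ξ`. -/
def ClJ (lt : δ → δ → Prop) (ξ : δ) : Prop := ∀ P : IPow M (Jt M δ),
  (∃ g, g ∈ P ∧ ∀ y, ¬ lt y ξ → g.1 y = 0) → ∃ g, g ∈ P ∧ ∀ k, k ∈ P → ¬ ltJ lt k g

theorem int_ClJ (hl : Int M (fun q : δ × δ => lt q.1 q.2)) :
    Int M (fun ξ : δ => ClJ (M := M) lt ξ) := by
  have hj : Int M (fun q : Jt M δ × Jt M δ => ltJ lt q.1 q.2) := int_ltJ hl
  unfold ClJ
  (repeat' (first | with_reducible exact IntF.id | with_reducible exact IntF.fst' | with_reducible exact IntF.snd' | with_reducible exact IntF.const _ | with_reducible exact Int.const _ | assumption | with_reducible apply Int.and | with_reducible apply Int.or | with_reducible apply Int.not | with_reducible apply Int.imp | with_reducible apply Int.iff | with_reducible apply Int.ne | with_reducible apply Int.eq | with_reducible apply Int.mem | with_reducible apply Int.subset | with_reducible apply Int.ltN | with_reducible apply Int.leN | with_reducible apply Int.fin | with_reducible apply Int.unique | with_reducible apply Int.all | with_reducible apply Int.ex | with_reducible apply IntF.fst | with_reducible apply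 IntF.snd | with_reducible apply IntF.app | with_reducible apply IntF.ite | with_reducible apply IntF.sep | with_reducible apply IntF.lam | with_reducible apply IntF.insert | with_reducible apply IntF.singleton | with_reducible apply IntF.union | with_reducible apply IntF.inter | with_reducible apply IntF.sdiff | with_reducible apply IntF.isUnion | with_reducible apply IntF.iimage | with_reducible apply IntF.the | with_reducible apply IntF.irec | with_reducible_and_instances apply IntF.add | with_reducible_and_instances apply IntF.mul | with_reducible apply IntF.succ | with_reducible apply IntF.val | (with_reducible refine Int.comp ?_ ?_; assumption) | (with_reducible refine Int.comp₂ ?_ ?_ ?_; assumption) | (with_reducible refine Int.comp₃ ?_ ?_ ?_ ?_; assumption) | (with_reducible refine IntF.comp ?_ ?_; assumption) | (with_reducible refine IntF.comp₂ ?_ ?_ ?_; assumption) | (with_reducible refine IntF.comp₃ ?_ ?_ ?_ ?_; assumption) | with_reducible apply IntF.pair))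

theorem stepJ (h : IWO M lt) {x : δ} (hx : ClJ (M := M) lt x) (P : IPow M (Jt M δ))
    (hP : ∃ g, g ∈ P ∧ ∀ y, lt x y → g.1 y = 0) : ∃ g, g ∈ P ∧ ∀ k, k ∈ P → ¬ ltJ lt k g := by
  have hl : Int M (fun q : δ × δ => lt q.1 q.2) := h.int
  have hN : Int M (fun n : INat M => ∃ g : Jt M δ, g ∈ P ∧ (∀ y, lt x y → g.1 y = 0) ∧
      g.1 x = n) := by
    (repeat' (first | with_reducible exact IntF.id | with_reducible exact IntF.fst' | with_reducible exact IntF.snd' | with_reducible exact IntF.const _ | with_reducible exact Int.const _ | assumption | with_reducible apply Int.and | with_reducible apply Int.or | with_reducible apply Int.not | with_reducible apply Int.imp | with_reducible apply Int.iff | with_reducible apply Int.ne | with_reducible apply Int.eq | with_reducible apply Int.mem | with_reducible apply Int.subset | with_reducible apply Int.ltN | with_reducible apply Int.leN | with_reducible apply Int.fin | with_reducible apply Int.unique | with_reducible apply Int.all | with_reducible apply Int.ex | with_reducible apply IntF.fst | with_reducible apply IntF.snd | with_reducible apply IntF.app | with_reducible apply IntF.ite | with_reducible apply IntF.sep | with_reducible apply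 IntF.lam | with_reducible apply IntF.insert | with_reducible apply IntF.singleton | with_reducible apply IntF.union | with_reducible apply IntF.inter | with_reducible apply IntF.sdiff | with_reducible apply IntF.isUnion | with_reducible apply IntF.iimage | with_reducible apply IntF.the | with_reducible apply IntF.irec | with_reducible_and_instances apply IntF.add | with_reducible_and_instances apply IntF.mul | with_reducible apply IntF.succ | with_reducible apply IntF.val | (with_reducible refine Int.comp ?_ ?_; assumption) | (with_reducible refine Int.comp₂ ?_ ?_ ?_; assumption) | (with_reducible refine Int.comp₃ ?_ ?_ ?_ ?_; assumption) | (with_reducible refine IntF.comp ?_ ?_; assumption) | (with_reducible refine IntF.comp₂ ?_ ?_ ?_; assumption) | (with_reducible refine IntF.comp₃ ?_ ?_ ?_ ?_; assumption) | with_reducible apply IntF.pair))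
  obtain ⟨n, ⟨g₀, h1, h2, h3⟩, hmin⟩ := INat.exists_least hN (by
    obtain ⟨g, k1, k2⟩ := hP
    exact ⟨g.1 x, g, k1, k2, rfl⟩)
  have hu : IntF M (fun g : Jt M δ => upd x g n) := int_updF x n
  have hI : Int M (fun g : Jt M δ => (∀ y, ¬ lt y x → g.1 y = 0) ∧ upd x g n ∈ P) := by
    refine Int.and ?_ ?_
    · (repeat' (first | with_reducible exact IntF.id | with_reducible exact IntF.fst' | with_reducible exact IntF.snd' | with_reducible exact IntF.const _ | with_reducible exact Int.const _ | assumption | with_reducible apply Int.and | with_reducible apply Int.or | with_reducible apply Int.not | with_reducible apply Int.imp | with_reducible apply Int.iff | with_reducible apply Int.ne | with_reducible apply Int.eq | with_reducible apply Int.mem | with_reducible apply Int.subset | with_reducible apply Int.ltN | with_reducible apply Int.leN | with_reducible apply Int.fin | with_reducible apply Int.unique | with_reducible apply Int.all | with_reducible apply Int.ex | with_reducible apply IntF.fst | with_reducible apply IntF.snd | with_reducible apply IntF.app | with_reducible apply IntF.ite | with_reducible apply IntF.sep | with_reducible apply IntF.lam | with_reducible apply IntF.insert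 | with_reducible apply IntF.singleton | with_reducible apply IntF.union | with_reducible apply IntF.inter | with_reducible apply IntF.sdiff | with_reducible apply IntF.isUnion | with_reducible apply IntF.iimage | with_reducible apply IntF.the | with_reducible apply IntF.irec | with_reducible_and_instances apply IntF.add | with_reducible_and_instances apply IntF.mul | with_reducible apply IntF.succ | with_reducible apply IntF.val | (with_reducible refine Int.comp ?_ ?_; assumption) | (with_reducible refine Int.comp₂ ?_ ?_ ?_; assumption) | (with_reducible refine Int.comp₃ ?_ ?_ ?_ ?_; assumption) | (with_reducible refine IntF.comp ?_ ?_; assumption) | (with_reducible refine IntF.comp₂ ?_ ?_ ?_; assumption) | (with_reducible refine IntF.comp₃ ?_ ?_ ?_ ?_; assumption) | with_reducible apply IntF.pair))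
    · exact Int.mem hu (IntF.const P)
  obtain ⟨Q, hQ⟩ : ∃ Q : IPow M (Jt M δ), ∀ g, g ∈ Q ↔ (∀ y, ¬ lt y x → g.1 y = 0) ∧
    upd x g n ∈ P := ⟨_, fun g => mem_sep hI⟩
  have hup0 : ∀ k : Jt M δ, (∀ y, lt x y → k.1 y = 0) → k.1 x = n → k ∈ P → upd x k 0 ∈ Q := by
    intro k k1 k2 k3
    rw [hQ]
    constructor
    · intro y hy
      by_cases hyx : y = x
      · rw [hyx, upd_same]
      · rw [upd_ne hyx]
        rcases h.tri x y with h4 | h4 | h4
        · exact k1 y h4
        · exact absurd h4.symm hyx
        · exact absurd h4 hy
    · have h5 : upd x (upd x k 0) n = k := by
        refine jt_ext fun y => ?_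
        by_cases hyx : y = x
        · rw [hyx, upd_same, k2]
        · rw [upd_ne hyx, upd_ne hyx]
      rw [h5]
      exact k3
  obtain ⟨k, hk, hk'⟩ := hx Q ⟨upd x g₀ 0, hup0 g₀ h2 h3 h1, by
    have := (hQ _).1 (hup0 g₀ h2 h3 h1)
    exact this.1⟩
  obtain ⟨l1, l2⟩ := (hQ k).1 hk
  have hkx : k.1 x = 0 := l1 x (h.irr x)
  refine ⟨upd x k n, l2, ?_⟩
  rintro h' hh' ⟨y, hy, hy'⟩
  rcases h.tri x y with h4 | h4 | h4
  · have hne : y ≠ x := by
      rintro rfl
      exact h.irr _ h4
    rw [upd_ne hne, l1 y (fun h5 => h.irr _ (h.tr _ _ _ h4 h5))] at hy
    exact INat.not_lt_zero hy
  · subst h4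
    rw [upd_same] at hy
    have h5 : ∀ y, lt x y → h'.1 y = 0 := by
      intro y h6
      have hne : y ≠ x := by
        rintro rfl
        exact h.irr _ h6
      rw [hy' y h6, upd_ne hne]
      exact l1 y (fun h5 => h.irr _ (h.tr _ _ _ h6 h5))
    exact absurd (hmin _ ⟨h', hh', h5, rfl⟩) (not_le.2 hy)
  · have h5 : h'.1 x = n := by
      rw [hy' x h4, upd_same]
    have h6 : ∀ z, lt x z → h'.1 z = 0 := by
      intro z h6
      have hne : z ≠ x := by
        rintro rfl
        exact h.irr _ h6
      rw [hy' z (h.tr _ _ _ h4 h6), upd_ne hne]
      exact l1 z (fun h5 => h.irr _ (h.tr _ _ _ h6 h5))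
    have h7 := hup0 h' h6 h5 hh'
    refine hk' _ h7 ⟨y, ?_, ?_⟩
    · have hne : y ≠ x := by
        rintro rfl
        exact h.irr _ h4
      rw [upd_ne hne]
      rw [upd_ne hne] at hy
      exact hy
    · intro z hz
      by_cases hzx : z = x
      · rw [hzx, upd_same, hkx]
      · rw [upd_ne hzx, hy' z hz, upd_ne hzx]

theorem clJ (h : IWO M lt) (ξ : δ) : ClJ (M := M) lt ξ := by
  have hl : Int M (fun q : δ × δ => lt q.1 q.2) := h.int
  have hC : Int M (fun ξ : δ => ClJ (M := M) lt ξ) := int_ClJ hl
  by_contra hc
  obtain ⟨ζ, hζ, hmin⟩ := h.min (fun ξ => ¬ ClJ (M := M) lt ξ) hC.not ⟨ξ, hc⟩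
  apply hζ
  rintro P ⟨g, hg, hg'⟩
  by_cases h0 : ∃ x, g.1 x ≠ 0
  · obtain ⟨x, hx, hx'⟩ := exists_top h h0
    have hxz : lt x ζ := by
      by_contra h1
      exact hx (hg' x h1)
    have hCx : ClJ (M := M) lt x := by
      by_contra h1
      exact hmin x h1 hxz
    exact stepJ h hCx P ⟨g, hg, hx'⟩
  · push Not at h0
    refine ⟨g, hg, ?_⟩
    rintro k - ⟨y, hy, -⟩
    rw [h0 y] at hy
    exact INat.not_lt_zero hy

end

theorem t_JWO : S_JWO.{u} := by
  intro M _ _ δ _ lt h
  have hl : Int M (fun q : δ × δ => lt q.1 q.2) := h.int
  refine ⟨int_ltJ hl, ?_, ?_, ?_, ?_⟩
  · rintro g ⟨x, hx, -⟩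
    exact lt_irrefl _ hx
  · rintro g g' g'' ⟨x, hx, hx'⟩ ⟨y, hy, hy'⟩
    rcases h.tri x y with h1 | h1 | h1
    · refine ⟨y, ?_, fun z hz => ?_⟩
      · rw [hx' y h1]
        exact hy
      · rw [hx' z (h.tr _ _ _ h1 hz), hy' z hz]
    · subst h1
      exact ⟨x, lt_trans hx hy, fun z hz => (hx' z hz).trans (hy' z hz)⟩
    · refine ⟨x, ?_, fun z hz => ?_⟩
      · rw [← hy' x h1]
        exact hx
      · rw [hx' z hz, hy' z (h.tr _ _ _ h1 hz)]
  · intro g g'
    by_cases hne : ∃ x, g.1 x ≠ g'.1 x
    · have hI : Int M (fun x : δ => g.1 x ≠ g'.1 x) := by
        (repeat' (first | with_reducible exact IntF.id | with_reducible exact IntF.fst' | with_reducible exact IntF.snd' | with_reducible exact IntF.const _ | with_reducible exact Int.const _ | assumption | with_reducible apply Int.and | with_reducible apply Int.or | with_reducible apply Int.not | with_reducible apply Int.imp | with_reducible apply Int.iff | with_reducible apply Int.ne | with_reducible apply Int.eq | with_reducible apply Int.mem | with_reducible apply Int.subset | with_reducible apply Int.ltN | with_reducible apply Int.leN | with_reducible apply Int.fin | with_reducible apply Int.unique | with_reducible apply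 Int.all | with_reducible apply Int.ex | with_reducible apply IntF.fst | with_reducible apply IntF.snd | with_reducible apply IntF.app | with_reducible apply IntF.ite | with_reducible apply IntF.sep | with_reducible apply IntF.lam | with_reducible apply IntF.insert | with_reducible apply IntF.singleton | with_reducible apply IntF.union | with_reducible apply IntF.inter | with_reducible apply IntF.sdiff | with_reducible apply IntF.isUnion | with_reducible apply IntF.iimage | with_reducible apply IntF.the | with_reducible apply IntF.irec | with_reducible_and_instances apply IntF.add | with_reducible_and_instances apply IntF.mul | with_reducible apply IntF.succ | with_reducible apply IntF.val | (with_reducible refine Int.comp ?_ ?_; assumption) | (with_reducible refine Int.comp₂ ?_ ?_ ?_; assumption) | (with_reducible refine Int.comp₃ ?_ ?_ ?_ ?_; assumption) | (with_reducible refine IntF.comp ?_ ?_; assumption) | (with_reducible refine IntF.comp₂ ?_ ?_ ?_; assumption) | (with_reducible refine IntF.comp₃ ?_ ?_ ?_ ?_; assumption) | with_reducible apply IntF.pair))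
      have hrev : Int M (fun q : δ × δ => lt q.2 q.1) := by
        (repeat' (first | with_reducible exact IntF.id | with_reducible exact IntF.fst' | with_reducible exact IntF.snd' | with_reducible exact IntF.const _ | with_reducible exact Int.const _ | assumption | with_reducible apply Int.and | with_reducible apply Int.or | with_reducible apply Int.not | with_reducible apply Int.imp | with_reducible apply Int.iff | with_reducible apply Int.ne | with_reducible apply Int.eq | with_reducible apply Int.mem | with_reducible apply Int.subset | with_reducible apply Int.ltN | with_reducible apply Int.leN | with_reducible apply Int.fin | with_reducible apply Int.unique | with_reducible apply Int.all | with_reducible apply Int.ex | with_reducible apply IntF.fst | with_reducible apply IntF.snd | with_reducible apply IntF.app | with_reducible apply IntF.ite | with_reducible apply IntF.sep | with_reducible apply IntF.lam | with_reducible apply IntF.insert | with_reducible apply IntF.singleton | with_reducible apply IntF.union | with_reducible apply IntF.inter | with_reducible apply IntF.sdiff | with_reducible apply IntF.isUnion | with_reducible apply IntF.iimage | with_reducible apply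 IntF.the | with_reducible apply IntF.irec | with_reducible_and_instances apply IntF.add | with_reducible_and_instances apply IntF.mul | with_reducible apply IntF.succ | with_reducible apply IntF.val | (with_reducible refine Int.comp ?_ ?_; assumption) | (with_reducible refine Int.comp₂ ?_ ?_ ?_; assumption) | (with_reducible refine Int.comp₃ ?_ ?_ ?_ ?_; assumption) | (with_reducible refine IntF.comp ?_ ?_; assumption) | (with_reducible refine IntF.comp₂ ?_ ?_ ?_; assumption) | (with_reducible refine IntF.comp₃ ?_ ?_ ?_ ?_; assumption) | with_reducible apply IntF.pair))
      obtain ⟨x₀, hx₀⟩ := hne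
      have hfin : IFin (sep M fun x => g.1 x ≠ g'.1 x) := by
        refine IFin.subset (IFin.union g.2 g'.2) fun y hy => ?_
        have h1 := (mem_sep hI).1 hy
        rw [mem_union, mem_sep (int_supp g.1), mem_sep (int_supp g'.1)]
        by_contra h2
        push Not at h2
        exact h1 (h2.1.trans h2.2.symm)
      obtain ⟨x, hx, hx'⟩ := IFin.exists_min (lt := fun a b => lt b a) hrev (fun a => h.irr a)
        (fun a b c k k' => h.tr _ _ _ k' k) hfin ⟨x₀, (mem_sep hI).2 hx₀⟩
      have h1 := (mem_sep hI).1 hx
      have h2 : ∀ y, lt x y → g.1 y = g'.1 y := by
        intro y hy
        by_contra hc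
        exact hx' y ((mem_sep hI).2 hc) hy
      rcases lt_or_gt_of_ne h1 with h3 | h3
      · exact Or.inl ⟨x, h3, h2⟩
      · exact Or.inr (Or.inr ⟨x, h3, fun y hy => (h2 y hy).symm⟩)
    · push Not at hne
      exact Or.inr (Or.inl (jt_ext hne))
  · rintro p hp ⟨g, hg⟩
    have key : ∃ g, g ∈ sep M p ∧ ∀ k, k ∈ sep M p → ¬ ltJ lt k g := by
      by_cases h0 : ∃ x, g.1 x ≠ 0
      · obtain ⟨x, hx, hx'⟩ := exists_top h h0
        exact stepJ h (clJ h x) (sep M p) ⟨g, (mem_sep hp).2 hg, hx'⟩
      · push Not at h0
        refine ⟨g, (mem_sep hp).2 hg, ?_⟩
        rintro k - ⟨y, hy, -⟩
        rw [h0 y] at hy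
        exact INat.not_lt_zero hy
    obtain ⟨g, h1, h2⟩ := key
    exact ⟨g, (mem_sep hp).1 h1, fun k hk => h2 k ((mem_sep hp).2 hk)⟩

end Pool.Agent.Q222.ZE
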