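import Pool.Agent.Q222.ZE.Rec

/-!
# Project ZE: the coding function (job RR)
-/

set_option maxHeartbeats 400000
set_option linter.all false

namespace Pool.Agent.Q222.ZE

open FirstOrder FirstOrder.Language
open Pool.Agent.Helper672.ZFA
open Pool.Agent.H310
open Pool.Agent.Q212.ZA
open Pool.Agent.Q212.ZE
open Pool.Agent.Q212.ZD (IWO)

universe u

section

variable {M : Type u} [L.Structure M] [hM : IsModel M]
variable {δ : Type u} [ITy M δ] {lt : δ → δ → Prop}

open Classical in
/-- The pairing function with `q2 0 0 = 0`. -/
noncomputable def q2 (m n : INat M) : INat M := if m = 0 ∧ n = 0 then 0 else (pr m n).succ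

theorem int_q2 : IntF M (fun q : INat M × INat M => q2 q.1 q.2) := by
  classical
  have hp : IntF M (fun q : INat M × INat M => pr q.1 q.2) := int_pr
  unfold q2
  refine IntF.ite ?_ ?_ ?_
  · (repeat' (first | with_reducible exact IntF.id | with_reducible exact IntF.fst' | with_reducible exact IntF.snd' | with_reducible exact IntF.const _ | with_reducible exact Int.const _ | assumption | with_reducible apply Int.and | with_reducible apply Int.or | with_reducible apply Int.not | with_reducible apply Int.imp | with_reducible apply Int.iff | with_reducible apply Int.ne | with_reducible apply Int.eq | with_reducible apply Int.mem | with_reducible apply Int.subset | with_reducible apply Int.ltN | with_reducible apply Int.leN | with_reducible apply Int.fin | with_reducible apply Int.unique | with_reducible apply Int.all | with_reducible apply Int.ex | with_reducible apply IntF.fst | with_reducible apply IntF.snd | with_reducible apply IntF.app | with_reducible apply IntF.ite | with_reducible apply IntF.sep | with_reducible apply IntF.lam | with_reducible apply IntF.insert | with_reducible apply IntF.singleton | with_reducible apply IntF.union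 | with_reducible apply IntF.inter | with_reducible apply IntF.sdiff | with_reducible apply IntF.isUnion | with_reducible apply IntF.iimage | with_reducible apply IntF.the | with_reducible apply IntF.irec | with_reducible_and_instances apply IntF.add | with_reducible_and_instances apply IntF.mul | with_reducible apply IntF.succ | with_reducible apply IntF.val | (with_reducible refine Int.comp ?_ ?_; assumption) | (with_reducible refine Int.comp₂ ?_ ?_ ?_; assumption) | (with_reducible refine Int.comp₃ ?_ ?_ ?_ ?_; assumption) | (with_reducible refine IntF.comp ?_ ?_; assumption) | (with_reducible refine IntF.comp₂ ?_ ?_ ?_; assumption) | (with_reducible refine Pool.Agent.Helper672.ZFA.IntF.comp₃ ?_ ?_ ?_ ?_; assumption) | with_reducible apply IntF.pair))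
  · (repeat' (first | with_reducible exact IntF.id | with_reducible exact IntF.fst' | with_reducible exact IntF.snd' | with_reducible exact IntF.const _ | with_reducible exact Int.const _ | assumption | with_reducible apply Int.and | with_reducible apply Int.or | with_reducible apply Int.not | with_reducible apply Int.imp | with_reducible apply Int.iff | with_reducible apply Int.ne | with_reducible apply Int.eq | with_reducible apply Int.mem | with_reducible apply Int.subset | with_reducible apply Int.ltN | with_reducible apply Int.leN | with_reducible apply Int.fin | with_reducible apply Int.unique | with_reducible apply Int.all | with_reducible apply Int.ex | with_reducible apply IntF.fst | with_reducible apply IntF.snd | with_reducible apply IntF.app | with_reducible apply IntF.ite | with_reducible apply IntF.sep | with_reducible apply IntF.lam | with_reducible apply IntF.insert | with_reducible apply IntF.singleton | with_reducible apply IntF.union | with_reducible apply IntF.inter | with_reducible apply IntF.sdiff | with_reducible apply IntF.isUnion | with_reducible apply IntF.iimage | with_reducible apply IntF.the | with_reducible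 apply IntF.irec | with_reducible_and_instances apply IntF.add | with_reducible_and_instances apply IntF.mul | with_reducible apply IntF.succ | with_reducible apply IntF.val | (with_reducible refine Int.comp ?_ ?_; assumption) | (with_reducible refine Int.comp₂ ?_ ?_ ?_; assumption) | (with_reducible refine Int.comp₃ ?_ ?_ ?_ ?_; assumption) | (with_reducible refine IntF.comp ?_ ?_; assumption) | (with_reducible refine IntF.comp₂ ?_ ?_ ?_; assumption) | (with_reducible refine Pool.Agent.Helper672.ZFA.IntF.comp₃ ?_ ?_ ?_ ?_; assumption) | with_reducible apply IntF.pair))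
  · (repeat' (first | with_reducible exact IntF.id | with_reducible exact IntF.fst' | with_reducible exact IntF.snd' | with_reducible exact IntF.const _ | with_reducible exact Int.const _ | assumption | with_reducible apply Int.and | with_reducible apply Int.or | with_reducible apply Int.not | with_reducible apply Int.imp | with_reducible apply Int.iff | with_reducible apply Int.ne | with_reducible apply Int.eq | with_reducible apply Int.mem | with_reducible apply Int.subset | with_reducible apply Int.ltN | with_reducible apply Int.leN | with_reducible apply Int.fin | with_reducible apply Int.unique | with_reducible apply Int.all | with_reducible apply Int.ex | with_reducible apply IntF.fst | with_reducible apply IntF.snd | with_reducible apply IntF.app | with_reducible apply IntF.ite | with_reducible apply IntF.sep | with_reducible apply IntF.lam | with_reducible apply IntF.insert | with_reducible apply IntF.singleton | with_reducible apply IntF.union | with_reducible apply IntF.inter | with_reducible apply IntF.sdiff | with_reducible apply IntF.isUnion | with_reducible apply IntF.iimage | with_reducible apply IntF.the | with_reducible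 apply IntF.irec | with_reducible_and_instances apply IntF.add | with_reducible_and_instances apply IntF.mul | with_reducible apply IntF.succ | with_reducible apply IntF.val | (with_reducible refine Int.comp ?_ ?_; assumption) | (with_reducible refine Int.comp₂ ?_ ?_ ?_; assumption) | (with_reducible refine Int.comp₃ ?_ ?_ ?_ ?_; assumption) | (with_reducible refine IntF.comp ?_ ?_; assumption) | (with_reducible refine IntF.comp₂ ?_ ?_ ?_; assumption) | (with_reducible refine Pool.Agent.Helper672.ZFA.IntF.comp₃ ?_ ?_ ?_ ?_; assumption) | with_reducible apply IntF.pair))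

theorem q2_zero : q2 (0 : INat M) 0 = 0 := by
  unfold q2
  rw [if_pos ⟨rfl, rfl⟩]

theorem q2_inj {m n m' n' : INat M} (h : q2 m n = q2 m' n') : m = m' ∧ n = n' := by
  unfold q2 at h
  by_cases h1 : m = 0 ∧ n = 0
  · rw [if_pos h1] at h
    by_cases h2 : m' = 0 ∧ n' = 0
    · exact ⟨h1.1.trans h2.1.symm, h1.2.trans h2.2.symm⟩
    · rw [if_neg h2] at h
      exact absurd h.symm (INat.succ_ne_zero _)
  · rw [if_neg h1] at h
    by_cases h2 : m' = 0 ∧ n' = 0
    · rw [if_pos h2] at h
      exact absurd h (INat.succ_ne_zero _)
    · rw [if_neg h2] at h
      exact pr_inj (INat.succ_inj h)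

/-- Codes of triples. -/
noncomputable def q3 (a b c : INat M) : INat M := q2 (q2 a b) c

theorem q3_zero : q3 (0 : INat M) 0 0 = 0 := by
  unfold q3
  rw [q2_zero, q2_zero]

theorem q3_inj {a b c a' b' c' : INat M} (h : q3 a b c = q3 a' b' c') :
    a = a' ∧ b = b' ∧ c = c' := by
  obtain ⟨h1, h2⟩ := q2_inj h
  obtain ⟨h3, h4⟩ := q2_inj h1
  exact ⟨h3, h4, h2⟩

theorem int_q3 : IntF M (fun q : (INat M × INat M) × INat M => q3 q.1.1 q.1.2 q.2) := by
  have hp : IntF M (fun q : INat M × INat M => q2 q.1 q.2) := int_q2
  unfold q3
  (repeat' (first | with_reducible exact IntF.id | with_reducible exact IntF.fst' | with_reducible exact IntF.snd' | with_reducible exact IntF.const _ | with_reducible exact Int.const _ | assumption | with_reducible apply Int.and | with_reducible apply Int.or | with_reducible apply Int.not | with_reducible apply Int.imp | with_reducible apply Int.iff | with_reducible apply Int.ne | with_reducible apply Int.eq | with_reducible apply Int.mem | with_reducible apply Int.subset | with_reducible apply Int.ltN | with_reducible apply Int.leN | with_reducible apply Int.fin | with_reducible apply Int.unique | with_reducible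 apply Int.all | with_reducible apply Int.ex | with_reducible apply IntF.fst | with_reducible apply IntF.snd | with_reducible apply IntF.app | with_reducible apply IntF.ite | with_reducible apply IntF.sep | with_reducible apply IntF.lam | with_reducible apply IntF.insert | with_reducible apply IntF.singleton | with_reducible apply IntF.union | with_reducible apply IntF.inter | with_reducible apply IntF.sdiff | with_reducible apply IntF.isUnion | with_reducible apply IntF.iimage | with_reducible apply IntF.the | with_reducible apply IntF.irec | with_reducible_and_instances apply IntF.add | with_reducible_and_instances apply IntF.mul | with_reducible apply IntF.succ | with_reducible apply IntF.val | (with_reducible refine Int.comp ?_ ?_; assumption) | (with_reducible refine Int.comp₂ ?_ ?_ ?_; assumption) | (with_reducible refine Int.comp₃ ?_ ?_ ?_ ?_; assumption) | (with_reducible refine IntF.comp ?_ ?_; assumption) | (with_reducible refine IntF.comp₂ ?_ ?_ ?_; assumption) | (with_reducible refine Pool.Agent.Helper672.ZFA.IntF.comp₃ ?_ ?_ ?_ ?_; assumption) | with_reducible apply IntF.pair))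

open Classical in
/-- The code of three functions below `ξ`. -/
noncomputable def hc (lt : δ → δ → Prop) (ξ : δ) (g₁ g₂ g₃ : Jt M δ) (x : δ) : INat M :=
  if lt x ξ then q3 (g₁.1 x) (g₂.1 x) (g₃.1 x) else 0

theorem int_hc (hl : Int M (fun q : δ × δ => lt q.1 q.2)) :
    IntF M (fun q : (((δ × Jt M δ) × Jt M δ) × Jt M δ) × δ =>
      hc lt q.1.1.1.1 q.1.1.1.2 q.1.1.2 q.1.2 q.2) := by
  classical
  have hp : IntF M (fun q : (INat M × INat M) × INat M => q3 q.1.1 q.1.2 q.2) := int_q3
  unfold hc
  refine IntF.ite ?_ ?_ ?_
  · (repeat' (first | with_reducible exact IntF.id | with_reducible exact IntF.fst' | with_reducible exact IntF.snd' | with_reducible exact IntF.const _ | with_reducible exact Int.const _ | assumption | with_reducible apply Int.and | with_reducible apply Int.or | with_reducible apply Int.not | with_reducible apply Int.imp | with_reducible apply Int.iff | with_reducible apply Int.ne | with_reducible apply Int.eq | with_reducible apply Int.mem | with_reducible apply Int.subset | with_reducible apply Int.ltN | with_reducible apply Int.leN | with_reducible apply Int.fin | with_reducible apply Int.unique | with_reducible apply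 Int.all | with_reducible apply Int.ex | with_reducible apply IntF.fst | with_reducible apply IntF.snd | with_reducible apply IntF.app | with_reducible apply IntF.ite | with_reducible apply IntF.sep | with_reducible apply IntF.lam | with_reducible apply IntF.insert | with_reducible apply IntF.singleton | with_reducible apply IntF.union | with_reducible apply IntF.inter | with_reducible apply IntF.sdiff | with_reducible apply IntF.isUnion | with_reducible apply IntF.iimage | with_reducible apply IntF.the | with_reducible apply IntF.irec | with_reducible_and_instances apply IntF.add | with_reducible_and_instances apply IntF.mul | with_reducible apply IntF.succ | with_reducible apply IntF.val | (with_reducible refine Int.comp ?_ ?_; assumption) | (with_reducible refine Int.comp₂ ?_ ?_ ?_; assumption) | (with_reducible refine Int.comp₃ ?_ ?_ ?_ ?_; assumption) | (with_reducible refine IntF.comp ?_ ?_; assumption) | (with_reducible refine IntF.comp₂ ?_ ?_ ?_; assumption) | (with_reducible refine Pool.Agent.Helper672.ZFA.IntF.comp₃ ?_ ?_ ?_ ?_; assumption) | with_reducible apply IntF.pair))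
  · (repeat' (first | with_reducible exact IntF.id | with_reducible exact IntF.fst' | with_reducible exact IntF.snd' | with_reducible exact IntF.const _ | with_reducible exact Int.const _ | assumption | with_reducible apply Int.and | with_reducible apply Int.or | with_reducible apply Int.not | with_reducible apply Int.imp | with_reducible apply Int.iff | with_reducible apply Int.ne | with_reducible apply Int.eq | with_reducible apply Int.mem | with_reducible apply Int.subset | with_reducible apply Int.ltN | with_reducible apply Int.leN | with_reducible apply Int.fin | with_reducible apply Int.unique | with_reducible apply Int.all | with_reducible apply Int.ex | with_reducible apply IntF.fst | with_reducible apply IntF.snd | with_reducible apply IntF.app | with_reducible apply IntF.ite | with_reducible apply IntF.sep | with_reducible apply IntF.lam | with_reducible apply IntF.insert | with_reducible apply IntF.singleton | with_reducible apply IntF.union | with_reducible apply IntF.inter | with_reducible apply IntF.sdiff | with_reducible apply IntF.isUnion | with_reducible apply IntF.iimage | with_reducible apply IntF.the | with_reducible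 apply IntF.irec | with_reducible_and_instances apply IntF.add | with_reducible_and_instances apply IntF.mul | with_reducible apply IntF.succ | with_reducible apply IntF.val | (with_reducible refine Int.comp ?_ ?_; assumption) | (with_reducible refine Int.comp₂ ?_ ?_ ?_; assumption) | (with_reducible refine Int.comp₃ ?_ ?_ ?_ ?_; assumption) | (with_reducible refine IntF.comp ?_ ?_; assumption) | (with_reducible refine IntF.comp₂ ?_ ?_ ?_; assumption) | (with_reducible refine Pool.Agent.Helper672.ZFA.IntF.comp₃ ?_ ?_ ?_ ?_; assumption) | with_reducible apply IntF.pair))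
  · (repeat' (first | with_reducible exact IntF.id | with_reducible exact IntF.fst' | with_reducible exact IntF.snd' | with_reducible exact IntF.const _ | with_reducible exact Int.const _ | assumption | with_reducible apply Int.and | with_reducible apply Int.or | with_reducible apply Int.not | with_reducible apply Int.imp | with_reducible apply Int.iff | with_reducible apply Int.ne | with_reducible apply Int.eq | with_reducible apply Int.mem | with_reducible apply Int.subset | with_reducible apply Int.ltN | with_reducible apply Int.leN | with_reducible apply Int.fin | with_reducible apply Int.unique | with_reducible apply Int.all | with_reducible apply Int.ex | with_reducible apply IntF.fst | with_reducible apply IntF.snd | with_reducible apply IntF.app | with_reducible apply IntF.ite | with_reducible apply IntF.sep | with_reducible apply IntF.lam | with_reducible apply IntF.insert | with_reducible apply IntF.singleton | with_reducible apply IntF.union | with_reducible apply IntF.inter | with_reducible apply IntF.sdiff | with_reducible apply IntF.isUnion | with_reducible apply IntF.iimage | with_reducible apply IntF.the | with_reducible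 apply IntF.irec | with_reducible_and_instances apply IntF.add | with_reducible_and_instances apply IntF.mul | with_reducible apply IntF.succ | with_reducible apply IntF.val | (with_reducible refine Int.comp ?_ ?_; assumption) | (with_reducible refine Int.comp₂ ?_ ?_ ?_; assumption) | (with_reducible refine Int.comp₃ ?_ ?_ ?_ ?_; assumption) | (with_reducible refine IntF.comp ?_ ?_; assumption) | (with_reducible refine IntF.comp₂ ?_ ?_ ?_; assumption) | (with_reducible refine Pool.Agent.Helper672.ZFA.IntF.comp₃ ?_ ?_ ?_ ?_; assumption) | with_reducible apply IntF.pair))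

theorem fin_hc (hl : Int M (fun q : δ × δ => lt q.1 q.2)) (ξ : δ) (g₁ g₂ g₃ : Jt M δ) :
    IFin (sep M fun x => (lam M (hc lt ξ g₁ g₂ g₃)) x ≠ 0) := by
  have hI : IntF M (hc lt ξ g₁ g₂ g₃) :=
    IntF.slice (f := fun (q : ((δ × Jt M δ) × Jt M δ) × Jt M δ) x =>
      hc lt q.1.1.1 q.1.1.2 q.1.2 q.2 x) (int_hc hl) (((ξ, g₁), g₂), g₃)
  refine IFin.subset (IFin.union (IFin.union g₁.2 g₂.2) g₃.2) fun y hy => ?_
  have h1 := (mem_sep (int_supp _)).1 hy
  rw [lam_apply hI] at h1
  rw [mem_union, mem_union, mem_sep (int_supp g₁.1), mem_sep (int_supp g₂.1),
    mem_sep (int_supp g₃.1)]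
  by_contra hcon
  push Not at hcon
  apply h1
  unfold hc
  rw [hcon.1.1, hcon.1.2, hcon.2, q3_zero]
  split_ifs <;> rfl

/-- The finitely supported function with the values `hc`. -/
noncomputable def hJ (hl : Int M (fun q : δ × δ => lt q.1 q.2)) (ξ : δ) (g₁ g₂ g₃ : Jt M δ) :
    Jt M δ := ⟨lam M (hc lt ξ g₁ g₂ g₃), fin_hc hl ξ g₁ g₂ g₃⟩

theorem hJ_apply (hl : Int M (fun q : δ × δ => lt q.1 q.2)) (ξ : δ) (g₁ g₂ g₃ : Jt M δ) (x : δ) :
    (hJ hl ξ g₁ g₂ g₃).1 x = hc lt ξ g₁ g₂ g₃ x := by
  have hI : IntF M (hc lt ξ g₁ g₂ g₃) :=
    IntF.slice (f := fun (q : ((δ × Jt M δ) × Jt M δ) × Jt M δ) x =>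
      hc lt q.1.1.1 q.1.1.2 q.1.2 q.2 x) (int_hc hl) (((ξ, g₁), g₂), g₃)
  exact lam_apply hI x

theorem int_hJ (hl : Int M (fun q : δ × δ => lt q.1 q.2)) :
    IntF M (fun q : ((δ × Jt M δ) × Jt M δ) × Jt M δ => hJ hl q.1.1.1 q.1.1.2 q.1.2 q.2) :=
  IntF.mk (IntF.lam (f := fun (q : ((δ × Jt M δ) × Jt M δ) × Jt M δ) x =>
      hc lt q.1.1.1 q.1.1.2 q.1.2 q.2 x) (int_hc hl))

/-- The code of eight numbers. -/
noncomputable def q8 (a b c d e f k i : INat M) : INat M :=
  q2 (q2 (q3 a b c) (q3 d e f)) (q2 k i)

theorem q8_inj {a b c d e f k i a' b' c' d' e' f' k' i' : INat M}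
    (h : q8 a b c d e f k i = q8 a' b' c' d' e' f' k' i') :
    (a = a' ∧ b = b' ∧ c = c') ∧ (d = d' ∧ e = e' ∧ f = f') ∧ k = k' ∧ i = i' := by
  obtain ⟨h1, h2⟩ := q2_inj h
  obtain ⟨h3, h4⟩ := q2_inj h1
  exact ⟨q3_inj h3, q3_inj h4, q2_inj h2⟩

/-- The coding function. -/
noncomputable def rrf (hl : Int M (fun q : δ × δ => lt q.1 q.2)) (ξ : δ)
    (s : Tr (Kt M δ) × (INat M × INat M)) : Kt M δ :=
  (hJ hl ξ s.1.1.1.1 s.1.1.2.1 s.1.2.1,
    q8 (s.1.1.1.1.1 ξ) (s.1.1.2.1.1 ξ) (s.1.2.1.1 ξ) s.1.1.1.2 s.1.1.2.2 s.1.2.2 s.2.1 s.2.2)

theorem int_rrf (hl : Int M (fun q : δ × δ => lt q.1 q.2)) :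
    IntF M (fun q : δ × (Tr (Kt M δ) × (INat M × INat M)) => rrf hl q.1 q.2) := by
  have hp : IntF M (fun q : (INat M × INat M) × INat M => q3 q.1.1 q.1.2 q.2) := int_q3
  have hp2 : IntF M (fun q : INat M × INat M => q2 q.1 q.2) := int_q2
  unfold rrf
  refine IntF.pair ?_ ?_
  · refine IntF.comp (g := fun q : ((δ × Jt M δ) × Jt M δ) × Jt M δ =>
      hJ hl q.1.1.1 q.1.1.2 q.1.2 q.2) (f := fun q : δ × (Tr (Kt M δ) × (INat M × INat M)) =>
        (((q.1, q.2.1.1.1.1), q.2.1.1.2.1), q.2.1.2.1)) (int_hJ hl) ?_
    (repeat' (first | with_reducible exact IntF.id | with_reducible exact IntF.fst' | with_reducible exact IntF.snd' | with_reducible exact IntF.const _ | with_reducible exact Int.const _ | assumption | with_reducible apply Int.and | with_reducible apply Int.or | with_reducible apply Int.not | with_reducible apply Int.imp | with_reducible apply Int.iff | with_reducible apply Int.ne | with_reducible apply Int.eq | with_reducible apply Int.mem | with_reducible apply Int.subset | with_reducible apply Int.ltN | with_reducible apply Int.leN | with_reducible apply Int.fin | with_reducible apply Int.unique | with_reducible apply Int.all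 | with_reducible apply Int.ex | with_reducible apply IntF.fst | with_reducible apply IntF.snd | with_reducible apply IntF.app | with_reducible apply IntF.ite | with_reducible apply IntF.sep | with_reducible apply IntF.lam | with_reducible apply IntF.insert | with_reducible apply IntF.singleton | with_reducible apply IntF.union | with_reducible apply IntF.inter | with_reducible apply IntF.sdiff | with_reducible apply IntF.isUnion | with_reducible apply IntF.iimage | with_reducible apply IntF.the | with_reducible apply IntF.irec | with_reducible_and_instances apply IntF.add | with_reducible_and_instances apply IntF.mul | with_reducible apply IntF.succ | with_reducible apply IntF.val | (with_reducible refine Int.comp ?_ ?_; assumption) | (with_reducible refine Int.comp₂ ?_ ?_ ?_; assumption) | (with_reducible refine Int.comp₃ ?_ ?_ ?_ ?_; assumption) | (with_reducible refine IntF.comp ?_ ?_; assumption) | (with_reducible refine IntF.comp₂ ?_ ?_ ?_; assumption) | (with_reducible refine Pool.Agent.Helper672.ZFA.IntF.comp₃ ?_ ?_ ?_ ?_; assumption) | with_reducible apply IntF.pair))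
  · unfold q8
    (repeat' (first | with_reducible exact IntF.id | with_reducible exact IntF.fst' | with_reducible exact IntF.snd' | with_reducible exact IntF.const _ | with_reducible exact Int.const _ | assumption | with_reducible apply Int.and | with_reducible apply Int.or | with_reducible apply Int.not | with_reducible apply Int.imp | with_reducible apply Int.iff | with_reducible apply Int.ne | with_reducible apply Int.eq | with_reducible apply Int.mem | with_reducible apply Int.subset | with_reducible apply Int.ltN | with_reducible apply Int.leN | with_reducible apply Int.fin | with_reducible apply Int.unique | with_reducible apply Int.all | with_reducible apply Int.ex | with_reducible apply IntF.fst | with_reducible apply IntF.snd | with_reducible apply IntF.app | with_reducible apply IntF.ite | with_reducible apply IntF.sep | with_reducible apply IntF.lam | with_reducible apply IntF.insert | with_reducible apply IntF.singleton | with_reducible apply IntF.union | with_reducible apply IntF.inter | with_reducible apply IntF.sdiff | with_reducible apply IntF.isUnion | with_reducible apply IntF.iimage | with_reducible apply IntF.the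 | with_reducible apply IntF.irec | with_reducible_and_instances apply IntF.add | with_reducible_and_instances apply IntF.mul | with_reducible apply IntF.succ | with_reducible apply IntF.val | (with_reducible refine Int.comp ?_ ?_; assumption) | (with_reducible refine Int.comp₂ ?_ ?_ ?_; assumption) | (with_reducible refine Int.comp₃ ?_ ?_ ?_ ?_; assumption) | (with_reducible refine IntF.comp ?_ ?_; assumption) | (with_reducible refine IntF.comp₂ ?_ ?_ ?_; assumption) | (with_reducible refine Pool.Agent.Helper672.ZFA.IntF.comp₃ ?_ ?_ ?_ ?_; assumption) | with_reducible apply IntF.pair))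

end

theorem t_RR : S_RR.{u} := by
  intro M _ _ δ _ lt h
  have hl : Int M (fun q : δ × δ => lt q.1 q.2) := h.int
  have hI : ∀ ξ, IntF M (rrf (M := M) hl ξ) := fun ξ =>
    IntF.slice (f := rrf (M := M) hl) (int_rrf hl) ξ
  refine ⟨fun ξ => lam M (rrf hl ξ), IntF.lam (int_rrf hl), ?_⟩
  intro g ξ n hT
  have hj : Int M (fun q : Jt M δ × Jt M δ => ltJ lt q.1 q.2) := int_ltJ hl
  have hB : ∀ i : Kt M δ, i ∈ bel (M := M) (ltK lt) ((g, n) : Kt M δ) ↔
      ltK lt i ((g, n) : Kt M δ) := by
    intro i
    have hb : Int M (fun i : Kt M δ => ltK lt i ((g, n) : Kt M δ)) := by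
      unfold ltK prodLT
      (repeat' (first | with_reducible exact IntF.id | with_reducible exact IntF.fst' | with_reducible exact IntF.snd' | with_reducible exact IntF.const _ | with_reducible exact Int.const _ | assumption | with_reducible apply Int.and | with_reducible apply Int.or | with_reducible apply Int.not | with_reducible apply Int.imp | with_reducible apply Int.iff | with_reducible apply Int.ne | with_reducible apply Int.eq | with_reducible apply Int.mem | with_reducible apply Int.subset | with_reducible apply Int.ltN | with_reducible apply Int.leN | with_reducible apply Int.fin | with_reducible apply Int.unique | with_reducible apply Int.all | with_reducible apply Int.ex | with_reducible apply IntF.fst | with_reducible apply IntF.snd | with_reducible apply IntF.app | with_reducible apply IntF.ite | with_reducible apply IntF.sep | with_reducible apply IntF.lam | with_reducible apply IntF.insert | with_reducible apply IntF.singleton | with_reducible apply IntF.union | with_reducible apply IntF.inter | with_reducible apply IntF.sdiff | with_reducible apply IntF.isUnion | with_reducible apply IntF.iimage | with_reducible apply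 IntF.the | with_reducible apply IntF.irec | with_reducible_and_instances apply IntF.add | with_reducible_and_instances apply IntF.mul | with_reducible apply IntF.succ | with_reducible apply IntF.val | (with_reducible refine Int.comp ?_ ?_; assumption) | (with_reducible refine Int.comp₂ ?_ ?_ ?_; assumption) | (with_reducible refine Int.comp₃ ?_ ?_ ?_ ?_; assumption) | (with_reducible refine IntF.comp ?_ ?_; assumption) | (with_reducible refine IntF.comp₂ ?_ ?_ ?_; assumption) | (with_reducible refine Pool.Agent.Helper672.ZFA.IntF.comp₃ ?_ ?_ ?_ ?_; assumption) | with_reducible apply IntF.pair))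
    exact mem_sep hb
  -- vanishing above the top
  have hv : ∀ i : Kt M δ, i ∈ bel (M := M) (ltK lt) ((g, n) : Kt M δ) →
      ∀ y, lt ξ y → i.1.1 y = 0 := by
    intro i hi y hy
    rcases (hB i).1 hi with ⟨x, hx, hx'⟩ | ⟨h1, -⟩
    · have h2 : ¬ lt ξ x := by
        intro h3
        have h4 : g.1 x = 0 := hT.2 x h3
        change i.1.1 x < g.1 x at hx
        rw [h4] at hx
        exact INat.not_lt_zero hx
      have h3 : lt x y := by
        rcases h.tri ξ x with h4 | h4 | h4
        · exact absurd h4 h2
        · rw [← h4]; exact hy
        · exact h.tr _ _ _ h4 hy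
      rw [hx' y h3]
      exact hT.2 y hy
    · change i.1 = g at h1
      rw [h1]
      exact hT.2 y hy
  constructor
  · intro t c ht
    rw [lam_apply (hI ξ), hB]
    left
    refine ⟨ξ, ?_, ?_⟩
    · change (hJ hl ξ t.1.1.1 t.1.2.1 t.2.1).1 ξ < g.1 ξ
      rw [hJ_apply]
      unfold hc
      rw [if_neg (h.irr ξ)]
      exact lt_of_le_of_ne (INat.zero_le _) (Ne.symm hT.1)
    · intro y hy
      change (hJ hl ξ t.1.1.1 t.1.2.1 t.2.1).1 y = g.1 y
      rw [hJ_apply]
      unfold hc
      rw [if_neg (fun h1 => h.irr _ (h.tr _ _ _ hy h1)), hT.2 y hy]
  · intro t t' c c' ht ht' hr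
    rw [lam_apply (hI ξ), lam_apply (hI ξ)] at hr
    have h1 : hJ hl ξ t.1.1.1 t.1.2.1 t.2.1 = hJ hl ξ t'.1.1.1 t'.1.2.1 t'.2.1 :=
      congrArg Prod.fst hr
    have h2 := q8_inj (congrArg Prod.snd hr)
    obtain ⟨⟨a1, a2, a3⟩, ⟨b1, b2, b3⟩, c1, c2⟩ := h2
    have h3 : ∀ x, lt x ξ → t.1.1.1.1 x = t'.1.1.1.1 x ∧ t.1.2.1.1 x = t'.1.2.1.1 x ∧
        t.2.1.1 x = t'.2.1.1 x := by
      intro x hx
      have h4 : (hJ hl ξ t.1.1.1 t.1.2.1 t.2.1).1 x = (hJ hl ξ t'.1.1.1 t'.1.2.1 t'.2.1).1 x := by
        rw [h1]
      rw [hJ_apply, hJ_apply] at h4
      unfold hc at h4
      rw [if_pos hx, if_pos hx] at h4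
      exact q3_inj h4
    have key : ∀ (i i' : Kt M δ), i ∈ bel (M := M) (ltK lt) ((g, n) : Kt M δ) →
        i' ∈ bel (M := M) (ltK lt) ((g, n) : Kt M δ) → i.1.1 ξ = i'.1.1 ξ →
        (∀ x, lt x ξ → i.1.1 x = i'.1.1 x) → i.2 = i'.2 → i = i' := by
      intro i i' hi hi' k1 k2 k3
      refine Prod.ext (jt_ext fun x => ?_) k3
      rcases h.tri x ξ with h4 | h4 | h4
      · exact k2 x h4
      · rw [h4]; exact k1
      · rw [hv i hi x h4, hv i' hi' x h4]
    refine ⟨Prod.ext (Prod.ext ?_ ?_) ?_, Prod.ext c1 c2⟩
    · exact key _ _ ht.1 ht'.1 a1 (fun x hx => (h3 x hx).1) b1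
    · exact key _ _ ht.2.1 ht'.2.1 a2 (fun x hx => (h3 x hx).2.1) b2
    · exact key _ _ ht.2.2 ht'.2.2 a3 (fun x hx => (h3 x hx).2.2) b3

end Pool.Agent.Q222.ZE
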